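import Pool.Agent.L0h13.SD.Stm

/-!
# Module HWV: the values of `phi` on a highest weight vector
-/

set_option autoImplicit false

namespace Pool.Agent.L0h13.SD

universe u

open Polynomial Equiv

namespace HWV

variable {r N : ℕ}

lemma cnt_cons_same (c : Fin r) (v : Fin N → Fin r) :
    cnt (Fin.cons c v : Fin (N + 1) → Fin r) c = cnt v c + 1 := by
  unfold cnt
  rw [Fin.univ_succ, Finset.filter_cons]
  rw [Finset.card_eq_sum_ones]
  simp [Finset.filter_map]

lemma cnt_cons_ne {a c : Fin r} (h : a ≠ c) (v : Fin N → Fin r) :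
    cnt (Fin.cons c v : Fin (N + 1) → Fin r) a = cnt v a := by
  unfold cnt
  rw [Fin.univ_succ, Finset.filter_cons]
  rw [Finset.card_eq_sum_ones]
  simp [Finset.filter_map, h.symm]

lemma dpol_step (K : Type u) [Field K] (m : ℕ) (μ : Fin r → ℕ) (c : Fin r) (k : ℕ)
    (hk : μ c = k + 1) :
    dpol K m μ = (X + C ((-1 : K) ^ par m c * ((μ c : K) - 1) -
      ∑ a : Fin r, if a < c then (-1 : K) ^ par m a else 0)) *
        dpol K m (Function.update μ c k) := by
  unfold dpol
  rw [← Finset.mul_prod_erase Finset.univ _ (Finset.mem_univ c),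
    ← Finset.mul_prod_erase Finset.univ (fun c' => ∏ l ∈ Finset.range (Function.update μ c k c'),
      (X + C ((-1 : K) ^ par m c' * l - ∑ a : Fin r, if a < c' then (-1 : K) ^ par m a else 0)))
      (Finset.mem_univ c), Function.update_self, hk, Finset.prod_range_succ]
  have e : ∏ x ∈ Finset.univ.erase c, ∏ l ∈ Finset.range (μ x),
      (X + C ((-1 : K) ^ par m x * l - ∑ a : Fin r, if a < x then (-1 : K) ^ par m a else 0)) =
      ∏ x ∈ Finset.univ.erase c, ∏ l ∈ Finset.range (Function.update μ c k x),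
      (X + C ((-1 : K) ^ par m x * l - ∑ a : Fin r, if a < x then (-1 : K) ^ par m a else 0)) := by
    apply Finset.prod_congr rfl
    intro x hx
    rw [Function.update_of_ne (Finset.ne_of_mem_erase hx)]
  rw [e]
  have e2 : ((k + 1 : ℕ) : K) - 1 = (k : K) := by push_cast; ring
  rw [e2]
  ring

end HWV

theorem t_HWV (h1 : S_XOP.{u}) (h2 : S_XHW.{u}) : S_HWV.{u} := by
  intro K _ m r N
  induction N with
  | zero =>
    intro F μ hF hμ _
    obtain ⟨w, hw⟩ := Function.ne_iff.1 hF
    refine ⟨w, hw, ?_⟩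
    have h0 : μ = 0 := by
      rw [← hμ w hw]
      funext a
      show (Finset.univ.filter fun i : Fin 0 => w i = a).card = 0
      simp
    have h3 : dpol K m μ = 1 := by
      rw [h0]
      unfold dpol
      simp
    rw [h3, one_mul]
    unfold phi
    rw [Fintype.sum_unique]
    have h4 : cyc (default : Perm (Fin 0)) = 0 := rfl
    rw [h4, pow_zero, mul_one]
    congr 1
    have h6 : ∀ (σ : Perm (Fin 0)), act K m (r := r) σ F w = F w := by
      intro σ
      show (eps m σ (w ∘ σ) : K) * F (w ∘ σ) = F w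
      have h5 : w ∘ σ = w := Subsingleton.elim _ _
      have h7 : eps m σ w = 1 := by
        unfold eps
        simp
      rw [h5, h7]
      simp
    exact h6 _
  | succ N ih =>
    intro F μ hF hμ hr
    classical
    have hex : (Finset.univ.filter fun c : Fin r => ∃ v : Fin N → Fin r,
        F (Fin.cons c v) ≠ 0).Nonempty := by
      obtain ⟨w, hw⟩ := Function.ne_iff.1 hF
      refine ⟨w 0, Finset.mem_filter.2 ⟨Finset.mem_univ _, Fin.tail w, ?_⟩⟩
      rw [Fin.cons_self_tail]
      exact hw
    obtain ⟨c, hcm, hmax⟩ : ∃ c : Fin r, (∃ v : Fin N → Fin r, F (Fin.cons c v) ≠ 0) ∧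
        ∀ (b : Fin r) (v : Fin N → Fin r), c < b → F (Fin.cons b v) = 0 := by
      refine ⟨Finset.max' _ hex, (Finset.mem_filter.1 (Finset.max'_mem _ hex)).2, ?_⟩
      intro b v hb
      by_contra hne
      have hb' : b ∈ Finset.univ.filter fun c : Fin r => ∃ v : Fin N → Fin r,
          F (Fin.cons c v) ≠ 0 := Finset.mem_filter.2 ⟨Finset.mem_univ _, v, hne⟩
      have := Finset.le_max' _ b hb'
      exact absurd hb (not_lt.2 this)
    obtain ⟨hX, hr'⟩ := h2 K m r N F μ c hμ hr hmax
    obtain ⟨v₀, hv₀⟩ := hcm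
    have hcnt : ∀ v : Fin N → Fin r, F (Fin.cons c v) ≠ 0 →
        cnt v = Function.update μ c (cnt v₀ c) := by
      intro v hv
      have e1 := hμ _ hv
      have e0 := hμ _ hv₀
      funext a
      by_cases ha : a = c
      · subst ha
        rw [Function.update_self]
        have f1 := congrFun e1 a
        have f0 := congrFun e0 a
        rw [HWV.cnt_cons_same] at f1 f0
        omega
      · rw [Function.update_of_ne ha]
        have f1 := congrFun e1 a
        rw [HWV.cnt_cons_ne ha] at f1
        exact f1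
    have hμc : μ c = cnt v₀ c + 1 := by
      have f0 := congrFun (hμ _ hv₀) c
      rw [HWV.cnt_cons_same] at f0
      exact f0.symm
    obtain ⟨v, hv, e⟩ := ih (fun v => F (Fin.cons c v)) (Function.update μ c (cnt v₀ c))
      (fun h => hv₀ (congrFun h v₀)) hcnt hr'
    refine ⟨Fin.cons c v, hv, ?_⟩
    rw [h1 K m r N F c v _ hX, e, HWV.dpol_step K m μ c _ hμc]
    ring

end Pool.Agent.L0h13.SD
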