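import Pool.Agent.L0h13.SD.Stm

/-!
# Project SD (helper13), module CYC (helper65): the number of cycles
-/

set_option autoImplicit false

namespace Pool.Agent.L0h13.SD

open Polynomial Equiv

namespace CYC

/-- the words fixed by a permutation -/
abbrev Fx (r : ℕ) {N : ℕ} (σ : Perm (Fin N)) : Type := {w : Fin N → Fin r // ∀ x, w (σ x) = w x}

/-- taking out the first point: the values at the other points -/
theorem fx_iff {r N : ℕ} (p : Fin (N + 1)) (e : Perm (Fin N)) (w : Fin (N + 1) → Fin r) :
    (∀ x, w (Perm.decomposeFin.symm (p, e) x) = w x) ↔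
      w p = w 0 ∧ ∀ x : Fin N, w (e x).succ = w x.succ := by
  have key : w p = w 0 → ∀ y : Fin (N + 1), y ≠ 0 → w (swap 0 p y) = w y := by
    intro h y hy
    by_cases hyp : y = p
    · rw [hyp, swap_apply_right, h]
    · rw [swap_apply_of_ne_of_ne hy hyp]
  constructor
  · intro h
    have h0 := h 0
    rw [Perm.decomposeFin_symm_apply_zero] at h0
    refine ⟨h0, fun x => ?_⟩
    have h1 := h x.succ
    rw [Perm.decomposeFin_symm_apply_succ, key h0 _ (Fin.succ_ne_zero _)] at h1
    exact h1
  · rintro ⟨h0, h1⟩ x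
    refine Fin.cases ?_ (fun y => ?_) x
    · rw [Perm.decomposeFin_symm_apply_zero, h0]
    · rw [Perm.decomposeFin_symm_apply_succ, key h0 _ (Fin.succ_ne_zero _), h1]

theorem card_fx (r : ℕ) : ∀ {N : ℕ} (σ : Perm (Fin N)), Nat.card (Fx r σ) = r ^ cyc σ := by
  intro N
  induction N with
  | zero =>
    intro σ
    have : cyc σ = 0 := by rw [cyc]
    rw [this, pow_zero, Nat.card_eq_one_iff_unique]
    refine ⟨⟨fun a b => Subtype.ext (funext fun x => x.elim0)⟩, ⟨⟨fun x => x.elim0, fun x => x.elim0⟩⟩⟩
  | succ N ih =>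
    intro σ
    obtain ⟨⟨p, e⟩, rfl⟩ := Perm.decomposeFin.symm.surjective σ
    have hc : cyc (Perm.decomposeFin.symm (p, e)) = cyc e + if p = 0 then 1 else 0 := by
      rw [cyc, Equiv.apply_symm_apply]
    rw [hc]
    by_cases hp : p = 0
    · subst hp
      rw [if_pos rfl, pow_succ, ← ih e]
      have : Nat.card (Fx r (Perm.decomposeFin.symm ((0 : Fin (N + 1)), e))) =
          Nat.card (Fx r e × Fin r) := by
        refine Nat.card_congr
          { toFun := fun w => (⟨fun x => w.1 x.succ, ((fx_iff 0 e w.1).1 w.2).2⟩, w.1 0)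
            invFun := fun v => ⟨Fin.cons v.2 v.1.1, (fx_iff 0 e _).2 ⟨rfl, fun x => ?_⟩⟩
            left_inv := ?_
            right_inv := ?_ }
        · simp only [Fin.cons_succ]
          exact v.1.2 x
        · rintro ⟨w, hw⟩
          apply Subtype.ext
          funext x
          refine Fin.cases ?_ (fun y => ?_) x <;> simp
        · rintro ⟨⟨v, hv⟩, a⟩
          simp
      rw [this, Nat.card_prod, Nat.card_fin]
    · rw [if_neg hp, add_zero, ← ih e]
      obtain ⟨q, rfl⟩ := Fin.exists_succ_eq.2 hp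
      refine Nat.card_congr
          { toFun := fun w => ⟨fun x => w.1 x.succ, ((fx_iff q.succ e w.1).1 w.2).2⟩
            invFun := fun v => ⟨Fin.cons (v.1 q) v.1, (fx_iff q.succ e _).2 ⟨?_, fun x => ?_⟩⟩
            left_inv := ?_
            right_inv := ?_ }
      · simp
      · simp only [Fin.cons_succ]
        exact v.2 x
      · rintro ⟨w, hw⟩
        apply Subtype.ext
        funext x
        refine Fin.cases ?_ (fun y => ?_) x
        · simpa using ((fx_iff q.succ e w).1 hw).1
        · simp
      · rintro ⟨v, hv⟩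
        simp

theorem cyc_comm {N : ℕ} (σ τ : Perm (Fin N)) : cyc (σ * τ) = cyc (τ * σ) := by
  have h : Nat.card (Fx 2 (σ * τ)) = Nat.card (Fx 2 (τ * σ)) := by
    refine Nat.card_congr
      { toFun := fun w => ⟨fun x => w.1 (σ x), fun x => ?_⟩
        invFun := fun w => ⟨fun x => w.1 (τ x), fun x => ?_⟩
        left_inv := ?_
        right_inv := ?_ }
    · exact w.2 (σ x)
    · exact w.2 (τ x)
    · rintro ⟨w, hw⟩
      exact Subtype.ext (funext fun x => hw x)
    · rintro ⟨w, hw⟩
      exact Subtype.ext (funext fun x => hw x)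
  rw [card_fx, card_fx] at h
  exact Nat.pow_right_injective le_rfl h

theorem del_of_ne {N : ℕ} (σ : Perm (Fin (N + 1))) (i : Fin N)
    (h : σ i.castSucc ≠ Fin.last N) : (del σ i).castSucc = σ i.castSucc := by
  obtain ⟨j, hj⟩ : ∃ j : Fin N, j.castSucc = σ i.castSucc := Fin.exists_castSucc_eq.2 h
  have e1 : (finSuccEquivLast.permCongr σ) (some i) = some j := by
    rw [Equiv.permCongr_apply, finSuccEquivLast_symm_some, ← hj, finSuccEquivLast_castSucc]
  have h2 := Equiv.removeNone_some (e := finSuccEquivLast.permCongr σ) ⟨j, e1⟩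
  rw [e1] at h2
  have h3 : del σ i = j := Option.some_injective _ h2
  rw [h3, hj]

theorem del_of_eq {N : ℕ} (σ : Perm (Fin (N + 1))) (i : Fin N)
    (h : σ i.castSucc = Fin.last N) : (del σ i).castSucc = σ (Fin.last N) := by
  have e1 : (finSuccEquivLast.permCongr σ) (some i) = none := by
    rw [Equiv.permCongr_apply, finSuccEquivLast_symm_some, h, finSuccEquivLast_last]
  have h2 := Equiv.removeNone_none (e := finSuccEquivLast.permCongr σ) e1
  have h3 : (finSuccEquivLast.permCongr σ) none = finSuccEquivLast (σ (Fin.last N)) := by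
    rw [Equiv.permCongr_apply, finSuccEquivLast_symm_none]
  rw [h3] at h2
  have h4 : finSuccEquivLast (del σ i).castSucc = finSuccEquivLast (σ (Fin.last N)) := by
    rw [finSuccEquivLast_castSucc]
    exact h2
  exact finSuccEquivLast.injective h4

theorem fx_iff' {r N : ℕ} (σ : Perm (Fin (N + 1))) (w : Fin (N + 1) → Fin r) :
    (∀ x, w (σ x) = w x) ↔
      w (σ (Fin.last N)) = w (Fin.last N) ∧ ∀ i : Fin N, w (del σ i).castSucc = w i.castSucc := by
  constructor
  · intro h
    refine ⟨h _, fun i => ?_⟩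
    by_cases hi : σ i.castSucc = Fin.last N
    · rw [del_of_eq σ i hi, h, ← h i.castSucc, hi]
    · rw [del_of_ne σ i hi, h]
  · rintro ⟨h0, h1⟩ x
    refine Fin.lastCases ?_ (fun i => ?_) x
    · exact h0
    · by_cases hi : σ i.castSucc = Fin.last N
      · rw [← h1 i, del_of_eq σ i hi, h0, hi]
      · rw [← h1 i, del_of_ne σ i hi]

theorem cyc_del {N : ℕ} (σ : Perm (Fin (N + 1))) :
    cyc σ = cyc (del σ) + if σ (Fin.last N) = Fin.last N then 1 else 0 := by
  have h : Nat.card (Fx 2 σ) =
      Nat.card (Fx 2 (del σ)) * if σ (Fin.last N) = Fin.last N then 2 else 1 := by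
    by_cases hs : σ (Fin.last N) = Fin.last N
    · rw [if_pos hs]
      have : Nat.card (Fx 2 σ) = Nat.card (Fx 2 (del σ) × Fin 2) := by
        refine Nat.card_congr
          { toFun := fun w => (⟨fun x => w.1 x.castSucc, ((fx_iff' σ w.1).1 w.2).2⟩,
              w.1 (Fin.last N))
            invFun := fun v => ⟨Fin.snoc v.1.1 v.2, (fx_iff' σ _).2 ⟨by rw [hs], fun x => ?_⟩⟩
            left_inv := ?_
            right_inv := ?_ }
        · simp only [Fin.snoc_castSucc]
          exact v.1.2 x
        · rintro ⟨w, hw⟩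
          apply Subtype.ext
          funext x
          refine Fin.lastCases ?_ (fun y => ?_) x <;> simp
        · rintro ⟨⟨v, hv⟩, a⟩
          simp
      rw [this, Nat.card_prod, Nat.card_fin]
    · rw [if_neg hs, mul_one]
      obtain ⟨q, hq⟩ := Fin.exists_castSucc_eq.2 hs
      refine Nat.card_congr
          { toFun := fun w => ⟨fun x => w.1 x.castSucc, ((fx_iff' σ w.1).1 w.2).2⟩
            invFun := fun v => ⟨Fin.snoc v.1 (v.1 q), (fx_iff' σ _).2 ⟨?_, fun x => ?_⟩⟩
            left_inv := ?_
            right_inv := ?_ }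
      · rw [← hq]
        simp
      · simp only [Fin.snoc_castSucc]
        exact v.2 x
      · rintro ⟨w, hw⟩
        apply Subtype.ext
        funext x
        refine Fin.lastCases ?_ (fun y => ?_) x
        · have := ((fx_iff' σ w).1 hw).1
          rw [← hq] at this
          simpa using this
        · simp
      · rintro ⟨v, hv⟩
        simp
  rw [card_fx, card_fx] at h
  split_ifs at h ⊢ with hs
  · rw [← pow_succ] at h
    exact Nat.pow_right_injective le_rfl h
  · rw [mul_one] at h
    exact Nat.pow_right_injective le_rfl h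

theorem cyc_le : ∀ {N : ℕ} (σ : Perm (Fin N)), cyc σ ≤ N ∧ (cyc σ = N → σ = 1) := by
  intro N
  induction N with
  | zero =>
    intro σ
    refine ⟨by rw [cyc], fun _ => Subsingleton.elim _ _⟩
  | succ N ih =>
    intro σ
    obtain ⟨⟨p, e⟩, rfl⟩ := Perm.decomposeFin.symm.surjective σ
    have hc : cyc (Perm.decomposeFin.symm (p, e)) = cyc e + if p = 0 then 1 else 0 := by
      rw [cyc, Equiv.apply_symm_apply]
    rw [hc]
    obtain ⟨h1, h2⟩ := ih e
    refine ⟨by split_ifs <;> omega, fun h => ?_⟩
    have hp : p = 0 := by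
      by_contra hp
      rw [if_neg hp] at h
      omega
    rw [if_pos hp] at h
    rw [h2 (by omega), hp, Perm.decomposeFin_symm_of_one, swap_self]
    rfl

theorem cyc_one : ∀ N : ℕ, cyc (1 : Perm (Fin N)) = N := by
  intro N
  induction N with
  | zero => rw [cyc]
  | succ N ih =>
    have h : (1 : Perm (Fin (N + 1))) = Perm.decomposeFin.symm (0, 1) := by
      rw [Perm.decomposeFin_symm_of_one, swap_self]
      rfl
    rw [h, cyc, Equiv.apply_symm_apply, if_pos rfl, ih]

end CYC

theorem t_CYC : S_CYC :=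
  ⟨fun _ σ τ => CYC.cyc_comm σ τ, fun _ σ => CYC.cyc_del σ, fun _ σ => CYC.cyc_le σ, CYC.cyc_one⟩

end Pool.Agent.L0h13.SD
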