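import Pool.Agent.L0h13.SD.Stm

/-!
# Project SD (helper13), module BRL (helper65): elements of `JJ` act as zero on the words
-/

set_option autoImplicit false

namespace Pool.Agent.L0h13.SD

universe u

open Polynomial Equiv

namespace BRL

variable {K : Type u} [Field K] {m r N : ℕ}

theorem act_apply (σ : Perm (Fin N)) (F : (Fin N → Fin r) → K) (w : Fin N → Fin r) :
    act K m σ F w = (eps m σ (w ∘ σ) : K) * F (w ∘ σ) := rfl

theorem act_mul (h1 : S_EPS) (τ σ : Perm (Fin N)) (F : (Fin N → Fin r) → K)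
    (w : Fin N → Fin r) : act K m (τ * σ) F w = act K m τ (act K m σ F) w := by
  have e : (w ∘ τ) ∘ σ = w ∘ (τ * σ : Perm (Fin N)) := rfl
  rw [act_apply, act_apply, act_apply, h1.1 m r N σ τ w, e, Int.cast_mul, mul_assoc]

theorem op_apply (y : GA K N) (F : (Fin N → Fin r) → K) (w : Fin N → Fin r) :
    op K m r y F w = ∑ ρ, y.coeff ρ * act K m ρ F w := by
  rw [op, lin_apply, LinearMap.sum_apply, Finset.sum_apply]
  rfl

theorem pol_mul_pm (y : GA K N) (τ : Perm (Fin N)) :
    pol (y * pm K τ) = ∑ ρ, C (y.coeff ρ) * X ^ cyc (ρ * τ) := by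
  have h : y * pm K τ = ∑ ρ, y.coeff ρ • pm K (ρ * τ) := by
    conv_lhs => rw [← sum_pm y]
    rw [Finset.sum_mul]
    exact Finset.sum_congr rfl fun ρ _ => by rw [smul_mul_assoc, pm_mul]
  rw [h, map_sum]
  refine Finset.sum_congr rfl fun ρ _ => ?_
  rw [map_smul, pol, lin_pm, Polynomial.smul_eq_C_mul]

/-- the polynomial of `op y F` -/
theorem phi_op (h1 : S_EPS) (y : GA K N) (F : (Fin N → Fin r) → K) (w : Fin N → Fin r) :
    phi K m (op K m r y F) w = ∑ τ : Perm (Fin N), C (act K m τ F w) * pol (y * pm K τ⁻¹) := by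
  have h2 : ∀ σ : Perm (Fin N), act K m σ⁻¹ (op K m r y F) w =
      ∑ ρ, y.coeff ρ * act K m (σ⁻¹ * ρ) F w := by
    intro σ
    rw [act_apply, op_apply, Finset.mul_sum]
    refine Finset.sum_congr rfl fun ρ _ => ?_
    rw [act_mul h1, act_apply σ⁻¹]
    ring
  rw [phi]
  calc ∑ σ : Perm (Fin N), C (act K m σ⁻¹ (op K m r y F) w) * X ^ cyc σ
      = ∑ σ : Perm (Fin N), ∑ ρ : Perm (Fin N),
          C (y.coeff ρ * act K m (σ⁻¹ * ρ) F w) * X ^ cyc σ := by
        refine Finset.sum_congr rfl fun σ _ => ?_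
        rw [h2, map_sum, Finset.sum_mul]
    _ = ∑ ρ : Perm (Fin N), ∑ σ : Perm (Fin N),
          C (y.coeff ρ * act K m (σ⁻¹ * ρ) F w) * X ^ cyc σ := Finset.sum_comm
    _ = ∑ ρ : Perm (Fin N), ∑ τ : Perm (Fin N),
          C (y.coeff ρ * act K m τ F w) * X ^ cyc (ρ * τ⁻¹) := by
        refine Finset.sum_congr rfl fun ρ _ => ?_
        refine Fintype.sum_equiv ((Equiv.inv (Perm (Fin N))).trans (Equiv.mulRight ρ)) _ _ ?_
        intro σ
        simp
    _ = ∑ τ : Perm (Fin N), ∑ ρ : Perm (Fin N),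
          C (y.coeff ρ * act K m τ F w) * X ^ cyc (ρ * τ⁻¹) := Finset.sum_comm
    _ = _ := by
        refine Finset.sum_congr rfl fun τ _ => ?_
        rw [pol_mul_pm, Finset.mul_sum]
        refine Finset.sum_congr rfl fun ρ _ => ?_
        rw [C_mul]
        ring

/-- the polynomial of `rep a b F` -/
theorem phi_rep (h2 : S_REP.{u}) (a b : Fin r) (F : (Fin N → Fin r) → K) (w : Fin N → Fin r) :
    phi K m (rep K m a b F) w = ∑ j : Fin N, if w j = a then
      C ((-1 : K) ^ ((par m a + par m b) * ∑ l : Fin N, if l < j then par m (w l) else 0)) *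
        phi K m F (Function.update w j b) else 0 := by
  have h3 : ∀ σ : Perm (Fin N), act K m σ⁻¹ (rep K m a b F) w =
      rep K m a b (act K m σ⁻¹ F) w := by
    intro σ
    have h := congrArg (fun (T : Module.End K ((Fin N → Fin r) → K)) => T F w)
      (h2 K m r N a b σ⁻¹)
    exact h
  have h4 : ∀ σ : Perm (Fin N), rep K m a b (act K m σ⁻¹ F) w = ∑ j : Fin N, if w j = a then
      (-1 : K) ^ ((par m a + par m b) * ∑ l : Fin N, if l < j then par m (w l) else 0) *
        act K m σ⁻¹ F (Function.update w j b) else 0 := fun σ => rfl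
  rw [phi]
  have h5 : ∀ σ : Perm (Fin N), C (act K m σ⁻¹ (rep K m a b F) w) * X ^ cyc σ =
      ∑ j : Fin N, C (if w j = a then
        (-1 : K) ^ ((par m a + par m b) * ∑ l : Fin N, if l < j then par m (w l) else 0) *
          act K m σ⁻¹ F (Function.update w j b) else 0) * X ^ cyc σ := by
    intro σ
    rw [h3, h4, map_sum, Finset.sum_mul]
  rw [Finset.sum_congr rfl fun σ _ => h5 σ, Finset.sum_comm]
  refine Finset.sum_congr rfl fun j _ => ?_
  by_cases hj : w j = a
  · rw [if_pos hj]
    generalize (-1 : K) ^ ((par m a + par m b) * ∑ l : Fin N, if l < j then par m (w l) else 0) = ε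
    rw [phi, Finset.mul_sum]
    refine Finset.sum_congr rfl fun σ _ => ?_
    rw [if_pos hj, C_mul]
    ring
  · rw [if_neg hj]
    refine Finset.sum_eq_zero fun σ _ => ?_
    rw [if_neg hj, C_0, zero_mul]

theorem cnt_comp (w : Fin N → Fin r) (σ : Perm (Fin N)) : cnt (w ∘ σ) = cnt w := by
  funext a
  have h : (Finset.univ.filter fun i => (w ∘ σ) i = a) =
      (Finset.univ.filter fun i => w i = a).map σ.symm.toEmbedding := by
    ext i
    simp
  rw [cnt, cnt, h, Finset.card_map]

/-- the part of weight `μ` -/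
noncomputable def prj (μ : Fin r → ℕ) (F : (Fin N → Fin r) → K) : (Fin N → Fin r) → K :=
  fun w => if cnt w = μ then F w else 0

theorem phi_prj (μ : Fin r → ℕ) (F : (Fin N → Fin r) → K) (w : Fin N → Fin r) :
    phi K m (prj μ F) w = if cnt w = μ then phi K m F w else 0 := by
  have h : ∀ σ : Perm (Fin N), act K m σ (prj μ F) w = if cnt w = μ then act K m σ F w else 0 := by
    intro σ
    rw [act_apply, act_apply, prj, cnt_comp]
    split_ifs <;> simp
  rw [phi, phi]
  split_ifs with hc
  · refine Finset.sum_congr rfl fun σ _ => ?_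
    rw [h, if_pos hc]
  · refine Finset.sum_eq_zero fun σ _ => ?_
    rw [h, if_neg hc, C_0, zero_mul]

end BRL

open BRL in
theorem t_BRL (h1 : S_EPS) (h2 : S_REP.{u}) (h3 : S_HWV.{u}) (h4 : S_DPM.{u}) : S_BRL.{u} := by
  intro K _ _ m n N y hy
  obtain ⟨Q, hQ⟩ : ∃ Q : K[X], Q = (X - C ((m : K) - n)) ^ (min m n + 1) := ⟨_, rfl⟩
  -- the functions with divisible polynomials
  let U : Set ((Fin N → Fin (m + n)) → K) := {F | ∀ w, Q ∣ phi K m F w}
  have hUop : ∀ F : (Fin N → Fin (m + n)) → K, op K m (m + n) y F ∈ U := by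
    intro F w
    rw [phi_op h1]
    refine Finset.dvd_sum fun τ _ => Dvd.dvd.mul_left ?_ _
    rw [hQ]
    exact hy (pm K τ⁻¹)
  have hUrep : ∀ F ∈ U, ∀ a b, rep K m a b F ∈ U := by
    intro F hF a b w
    rw [phi_rep h2]
    refine Finset.dvd_sum fun j _ => ?_
    split_ifs with hj
    · exact Dvd.dvd.mul_left (hF _) _
    · exact dvd_zero _
  have hUprj : ∀ F ∈ U, ∀ μ, prj μ F ∈ U := by
    intro F hF μ w
    rw [phi_prj]
    split_ifs
    · exact hF w
    · exact dvd_zero _
  have hU0 : ∀ F ∈ U, F = 0 := by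
    intro F₀ hF₀
    by_contra hne₀
    -- homogeneous functions of minimal potential
    have hex : ∃ p : ℕ, ∃ F ∈ U, F ≠ 0 ∧ (∃ μ, ∀ w, F w ≠ 0 → cnt w = μ) ∧
        ∀ w, F w ≠ 0 → ∑ i, (w i : ℕ) = p := by
      obtain ⟨w₀, hw₀⟩ := Function.ne_iff.1 hne₀
      refine ⟨∑ i, (w₀ i : ℕ), prj (cnt w₀) F₀, hUprj F₀ hF₀ _, ?_, ⟨cnt w₀, ?_⟩, ?_⟩
      · refine Function.ne_iff.2 ⟨w₀, ?_⟩
        rw [prj, if_pos rfl]
        exact hw₀
      · intro w hw
        by_contra hc
        exact hw (by rw [prj, if_neg hc])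
      · intro w hw
        have hc : cnt w = cnt w₀ := by
          by_contra hc
          exact hw (by rw [prj, if_neg hc])
        have hs : ∀ v : Fin N → Fin (m + n), ∑ i, (v i : ℕ) = ∑ a : Fin (m + n), cnt v a * (a : ℕ) := by
          intro v
          rw [← Finset.sum_fiberwise (s := Finset.univ) (g := v) (f := fun i => (v i : ℕ))]
          refine Finset.sum_congr rfl fun a _ => ?_
          rw [Finset.sum_congr rfl (g := fun _ => (a : ℕ)) (fun i hi => by
            rw [(Finset.mem_filter.1 hi).2]), Finset.sum_const, cnt, smul_eq_mul]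
        rw [hs, hs, hc]
    classical
    obtain ⟨F, hFU, hF0, ⟨μ, hμ⟩, hp⟩ := Nat.find_spec hex
    have hmin := fun q (hq : q < Nat.find hex) => Nat.find_min hex hq
    have hrep : ∀ a b : Fin (m + n), a < b → rep K m a b F = 0 := by
      intro a b hab
      by_contra hne
      obtain ⟨w₁, hw₁⟩ := Function.ne_iff.1 hne
      have key : ∀ w, rep K m a b F w ≠ 0 → ∑ i, (w i : ℕ) + ((b : ℕ) - a) = Nat.find hex := by
        intro w hw
        have hj : ∃ j : Fin N, w j = a ∧ F (Function.update w j b) ≠ 0 := by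
          by_contra hcon
          push Not at hcon
          apply hw
          have e : rep K m a b F w = ∑ j : Fin N, if w j = a then
              (-1 : K) ^ ((par m a + par m b) * ∑ l : Fin N, if l < j then par m (w l) else 0) *
                F (Function.update w j b) else 0 := rfl
          rw [e]
          refine Finset.sum_eq_zero fun j _ => ?_
          split_ifs with hj
          · rw [hcon j hj, mul_zero]
          · rfl
        obtain ⟨j, hj, hFj⟩ := hj
        rw [← hp _ hFj, ← Finset.add_sum_erase _ _ (Finset.mem_univ j),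
          ← Finset.add_sum_erase _ (fun i => ((Function.update w j b i : Fin (m + n)) : ℕ))
            (Finset.mem_univ j)]
        have e2 : ∑ i ∈ Finset.univ.erase j, ((Function.update w j b i : Fin (m + n)) : ℕ) =
            ∑ i ∈ Finset.univ.erase j, (w i : ℕ) := by
          refine Finset.sum_congr rfl fun i hi => ?_
          rw [Function.update_of_ne (Finset.ne_of_mem_erase hi)]
        rw [e2, Function.update_self, hj]
        have : (a : ℕ) < b := hab
        omega
      have hlt : ∑ i, (w₁ i : ℕ) < Nat.find hex := by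
        have h := key w₁ hw₁
        have : (a : ℕ) < b := hab
        omega
      refine hmin _ hlt ⟨prj (cnt w₁) (rep K m a b F), hUprj _ (hUrep F hFU a b) _, ?_,
        ⟨cnt w₁, ?_⟩, ?_⟩
      · refine Function.ne_iff.2 ⟨w₁, ?_⟩
        rw [prj, if_pos rfl]
        exact hw₁
      · intro w hw
        by_contra hc
        exact hw (by rw [prj, if_neg hc])
      · intro w hw
        have hw' : rep K m a b F w ≠ 0 := by
          intro h0
          apply hw
          rw [prj, h0]
          simp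
        have ha := key w hw'
        have hb := key w₁ hw₁
        omega
    obtain ⟨w, hw, hphi⟩ := h3 K m (m + n) N F μ hF0 hμ hrep
    have hd := hFU w
    rw [hphi, hQ] at hd
    refine h4 K m n μ ?_
    have hu : IsUnit (C (F w)) := isUnit_C.2 (isUnit_iff_ne_zero.2 hw)
    exact (hu.dvd_mul_right).1 hd
  apply LinearMap.ext
  intro F
  rw [hU0 _ (hUop F)]
  rfl

end Pool.Agent.L0h13.SD
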