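import Pool.Agent.L0h13.SD.OPM

set_option autoImplicit false

/-! BRR: elements which act as zero on the words belong to `JJ`. -/

namespace Pool.Agent.L0h13.SD

open Polynomial Equiv

universe u

theorem t_BRR (h1 : S_EPS) (h2 : S_TRC.{u}) (h3 : S_CMP.{u}) (h4 : S_MVP.{u}) : S_BRR.{u} := by
  intro K _ _ m n N y hy
  rw [mem_JJ]
  intro z
  have hx : op K m (m + n) (y * z) = 0 := by
    rw [(t_OPM h1 K m (m + n) N y z).1, hy, zero_mul]
  obtain ⟨x, hxd⟩ : ∃ x, x = y * z := ⟨_, rfl⟩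
  rw [← hxd] at hx ⊢
  have e1 : pol x = MvPolynomial.aeval (fun _ => (X : K[X]))
      (∑ σ, x.coeff σ • cmon K σ (fun _ => 0)) := by
    rw [pol, lin_apply, map_sum]
    refine Finset.sum_congr rfl fun σ _ => ?_
    rw [map_smul, h3]
  rw [e1]
  refine h4 K m n _ fun D => ?_
  rw [map_sum]
  have e2 : ∀ σ : Perm (Fin N), MvPolynomial.eval (psum K m D) (x.coeff σ • cmon K σ (fun _ => 0)) =
      ∑ w : Fin N → Fin (m + n), (∏ i, ((-1 : K) ^ par m (w i) * D (w i) ^ (0 + 1))) *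
        (x.coeff σ * if w ∘ σ = w then (eps m σ w : K) else 0) := by
    intro σ
    rw [MvPolynomial.smul_eval, ← h2 K m (m + n) N σ (fun _ => 0) D, Finset.mul_sum]
    exact Finset.sum_congr rfl fun w _ => by ring
  rw [Finset.sum_congr rfl fun σ _ => e2 σ, Finset.sum_comm]
  refine Finset.sum_eq_zero fun w _ => ?_
  rw [← Finset.mul_sum]
  have e3 : ∑ σ : Perm (Fin N), (x.coeff σ * if w ∘ σ = w then (eps m σ w : K) else 0) =
      (op K m (m + n) x (Pi.single w 1)) w := by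
    rw [op, lin_apply, LinearMap.sum_apply, Finset.sum_apply]
    refine Finset.sum_congr rfl fun σ _ => ?_
    show _ = x.coeff σ * ((eps m σ (w ∘ σ) : K) * (Pi.single w 1 : (Fin N → Fin (m + n)) → K) (w ∘ σ))
    split_ifs with h
    · rw [h, Pi.single_eq_same, mul_one]
    · rw [Pi.single_eq_of_ne h, mul_zero, mul_zero, mul_zero]
  rw [e3, hx]
  simp

end Pool.Agent.L0h13.SD
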