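import Pool.Agent.L0h13.SD.Stm

set_option autoImplicit false

/-! CMP: the specialisation of the cycle monomials. -/

namespace Pool.Agent.L0h13.SD

open Polynomial Equiv

theorem t_CMP : S_CMP := by
  intro K _ N
  induction N with
  | zero => intro σ l; simp [cmon, cyc]
  | succ N ih =>
    intro σ l
    rw [cmon, cyc]
    split_ifs with h
    · rw [map_mul, MvPolynomial.aeval_X, ih, pow_succ, mul_comm]
    · rw [ih, add_zero]

end Pool.Agent.L0h13.SD
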