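import Pool.Agent.L0h13.SD.Stm

/-! Module DEL of the project SD: taking out the last point. -/

set_option autoImplicit false

namespace Pool.Agent.L0h13.SD

open Equiv

lemma dn_eq_last_iff {N : ℕ} (a : Perm (Fin N)) (y : Fin (N + 1)) :
    dn a y = Fin.last N ↔ y = Fin.last N := by
  constructor
  · intro h
    exact (dn a).injective (h.trans (dn_last a).symm)
  · rintro rfl
    exact dn_last a

lemma del_castSucc {N : ℕ} (σ : Perm (Fin (N + 1))) (i : Fin N) :
    (del σ i).castSucc =
      if σ i.castSucc = Fin.last N then σ (Fin.last N) else σ i.castSucc := by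
  have hs : ∀ j : Fin N, j.castSucc = finSuccEquivLast.symm (some j) := fun j => by simp
  have he : finSuccEquivLast.permCongr σ (some i) = finSuccEquivLast (σ i.castSucc) := by
    simp [Equiv.permCongr_apply]
  have hn : finSuccEquivLast.permCongr σ none = finSuccEquivLast (σ (Fin.last N)) := by
    simp [Equiv.permCongr_apply]
  split_ifs with h
  · have h1 : finSuccEquivLast.permCongr σ (some i) = none := by
      rw [he, h, finSuccEquivLast_last]
    have h2 := Equiv.removeNone_none _ h1
    rw [hn] at h2
    rw [hs, Equiv.symm_apply_eq]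
    exact h2
  · have h1 : ∃ x', finSuccEquivLast.permCongr σ (some i) = some x' := by
      rw [he]
      cases hx : finSuccEquivLast (σ i.castSucc) with
      | none =>
        exfalso
        apply h
        rw [← finSuccEquivLast_last] at hx
        exact finSuccEquivLast.injective hx
      | some x => exact ⟨x, rfl⟩
    have h2 := Equiv.removeNone_some _ h1
    rw [he] at h2
    rw [hs, Equiv.symm_apply_eq]
    exact h2

/-- DEL. -/
theorem t_DEL : S_DEL := by
  refine ⟨fun N a b => ?_, fun N a b σ => ⟨?_, ?_⟩, fun N a => ?_⟩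
  · ext x
    refine Fin.lastCases ?_ (fun i => ?_) x
    · rw [Perm.mul_apply, dn_last, dn_last, dn_last]
    · rw [Perm.mul_apply, dn_castSucc, dn_castSucc, dn_castSucc, Perm.mul_apply]
  · apply Equiv.ext
    intro i
    apply Fin.castSucc_injective
    have h1 : (dn a * σ * dn b) i.castSucc = dn a (σ (b i).castSucc) := by
      rw [Perm.mul_apply, Perm.mul_apply, dn_castSucc]
    have h2 : (dn a * σ * dn b) (Fin.last N) = dn a (σ (Fin.last N)) := by
      rw [Perm.mul_apply, Perm.mul_apply, dn_last]
    have h3 : ((a * del σ * b) i).castSucc = dn a ((del σ (b i)).castSucc) := by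
      rw [Perm.mul_apply, Perm.mul_apply, dn_castSucc]
    rw [del_castSucc, h1, h2, h3, del_castSucc]
    by_cases h : σ (b i).castSucc = Fin.last N
    · rw [if_pos h, if_pos ((dn_eq_last_iff a _).2 h)]
    · rw [if_neg h, if_neg (fun h' => h ((dn_eq_last_iff a _).1 h'))]
  · rw [Perm.mul_apply, Perm.mul_apply, dn_last, dn_eq_last_iff]
  · apply Equiv.ext
    intro i
    apply Fin.castSucc_injective
    rw [del_castSucc, dn_castSucc, if_neg (Fin.castSucc_lt_last _).ne]

end Pool.Agent.L0h13.SD
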