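import Pool.Agent.L0h13.SD.Stm

set_option autoImplicit false

/-! DPM: the order of vanishing of the content polynomial. -/

namespace Pool.Agent.L0h13.SD

open Polynomial Equiv

lemma dvd_prod_lin {K ι : Type*} [Field K] [DecidableEq K] (s : Finset ι) (a : ι → K) (t : K)
    (k : ℕ) (h : (X - C t) ^ k ∣ ∏ i ∈ s, (X + C (a i))) :
    k ≤ (s.filter fun i => a i = -t).card := by
  by_contra hk
  push Not at hk
  have h1 : ∏ i ∈ s, (X + C (a i)) = (X - C t) ^ (s.filter fun i => a i = -t).card *
      ∏ i ∈ s.filter (fun i => ¬ a i = -t), (X + C (a i)) := by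
    rw [← Finset.prod_filter_mul_prod_filter_not s (fun i => a i = -t)]
    congr 1
    rw [Finset.prod_congr rfl (g := fun _ => X - C t)]
    · rw [Finset.prod_const]
    · intro i hi
      rw [(Finset.mem_filter.1 hi).2, C_neg, sub_eq_add_neg]
  have h2 : (X - C t) ^ ((s.filter fun i => a i = -t).card + 1) ∣
      (X - C t) ^ (s.filter fun i => a i = -t).card *
      ∏ i ∈ s.filter (fun i => ¬ a i = -t), (X + C (a i)) := by
    rw [← h1]
    exact (pow_dvd_pow _ hk).trans h
  rw [pow_succ] at h2
  have h3 := (mul_dvd_mul_iff_left (pow_ne_zero _ (X_sub_C_ne_zero t))).1 h2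
  have h4 := dvd_iff_isRoot.1 h3
  rw [IsRoot.def, eval_prod, Finset.prod_eq_zero_iff] at h4
  obtain ⟨i, hi, h5⟩ := h4
  rw [eval_add, eval_X, eval_C] at h5
  exact (Finset.mem_filter.1 hi).2 (eq_neg_of_add_eq_zero_right h5)

lemma sum_sgn (K : Type*) [Field K] (m c : ℕ) :
    (∑ a ∈ Finset.range c, (if a < m then (1 : K) else -1)) =
      if c ≤ m then (c : K) else 2 * m - c := by
  induction c with
  | zero => simp
  | succ c ih =>
    rw [Finset.sum_range_succ, ih]
    by_cases h : c < m
    · rw [if_pos h, if_pos h.le, if_pos (by omega)]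
      push_cast
      ring
    · rw [if_neg h, if_neg (show ¬ c + 1 ≤ m by omega)]
      split_ifs with h'
      · have : c = m := by omega
        subst this
        push_cast
        ring
      · push_cast
        ring

lemma sum_par (K : Type*) [Field K] (m n : ℕ) (c : Fin (m + n)) :
    (∑ a : Fin (m + n), if a < c then (-1 : K) ^ par m a else 0) =
      if (c : ℕ) ≤ m then ((c : ℕ) : K) else 2 * m - (c : ℕ) := by
  rw [← sum_sgn]
  have h1 : ∀ a : Fin (m + n), (if a < c then (-1 : K) ^ par m a else 0) =
      (fun a : ℕ => if a < (c : ℕ) then (if a < m then (1 : K) else -1) else 0) (a : ℕ) := by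
    intro a
    simp only [par, Fin.lt_def]
    split_ifs <;> simp
  rw [Finset.sum_congr rfl fun a _ => h1 a,
    Fin.sum_univ_eq_sum_range (fun a : ℕ => if a < (c : ℕ) then
      (if a < m then (1 : K) else -1) else 0) (m + n), ← Finset.sum_filter]
  refine Finset.sum_congr ?_ fun _ _ => rfl
  ext a
  simp only [Finset.mem_filter, Finset.mem_range]
  have := c.isLt
  omega

theorem t_DPM : S_DPM := by
  classical
  intro K _ _ m n μ h
  have e : dpol K m μ = ∏ x ∈ (Finset.univ : Finset (Fin (m + n))).sigma
      (fun c => Finset.range (μ c)), (X + C ((-1 : K) ^ par m x.1 * x.2 -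
        ∑ a : Fin (m + n), if a < x.1 then (-1 : K) ^ par m a else 0)) := by
    rw [dpol, Finset.prod_sigma]
  rw [e] at h
  have h1 := dvd_prod_lin _ _ _ _ h
  have key : ∀ x : (_ : Fin (m + n)) × ℕ, ((-1 : K) ^ par m x.1 * x.2 -
        ∑ a : Fin (m + n), if a < x.1 then (-1 : K) ^ par m a else 0) = -((m : K) - n) →
      (x.1 : ℕ) < m ∧ x.2 + m = (x.1 : ℕ) + n := by
    rintro ⟨c, l⟩ hx
    have hc := c.isLt
    rw [sum_par] at hx
    simp only [par] at hx
    by_cases hcm : (c : ℕ) < m
    · refine ⟨hcm, ?_⟩
      rw [if_pos hcm, if_pos hcm.le, pow_zero, one_mul] at hx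
      have : ((l + m : ℕ) : K) = ((c + n : ℕ) : K) := by
        push_cast
        linear_combination hx
      exact_mod_cast this
    · exfalso
      rw [if_neg hcm, pow_one] at hx
      have h2 : (if (c : ℕ) ≤ m then ((c : ℕ) : K) else 2 * m - (c : ℕ)) = 2 * m - (c : ℕ) := by
        split_ifs with h'
        · have : (c : ℕ) = m := by omega
          rw [this]
          ring
        · rfl
      rw [h2] at hx
      have : ((l + m + n : ℕ) : K) = ((c : ℕ) : K) := by
        push_cast
        linear_combination -hx
      have h3 : l + m + n = c := by exact_mod_cast this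
      omega
  have h2 : (((Finset.univ : Finset (Fin (m + n))).sigma
      (fun c => Finset.range (μ c))).filter fun x => ((-1 : K) ^ par m x.1 * x.2 -
        ∑ a : Fin (m + n), if a < x.1 then (-1 : K) ^ par m a else 0) = -((m : K) - n)).card ≤
      (Finset.Ico (m - n) m).card := by
    refine Finset.card_le_card_of_injOn (fun x => (x.1 : ℕ)) ?_ ?_
    · intro x hx
      have h3 := key x (Finset.mem_filter.1 hx).2
      simp only [Finset.coe_Ico, Set.mem_Ico]
      omega
    · intro x hx y hy hxy
      have h3 := key x (Finset.mem_filter.1 hx).2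
      have h4 := key y (Finset.mem_filter.1 hy).2
      obtain ⟨c, l⟩ := x
      obtain ⟨d, k⟩ := y
      simp only at h3 h4 hxy
      have h5 : c = d := Fin.ext hxy
      subst h5
      have h6 : l = k := by omega
      rw [h6]
  rw [Nat.card_Ico] at h2
  omega

end Pool.Agent.L0h13.SD
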