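import Pool.Agent.L0h13.SD.Stm

/-!
# Polynomials in the power sums which vanish for all alphabets
-/

set_option autoImplicit false

namespace Pool.Agent.L0h13.SD

universe u

open Polynomial Equiv

namespace MVPm

variable {K : Type u} [Field K]

/-- the power sums of two alphabets -/
def pp {m n : ℕ} (D : Fin m → K) (E : Fin n → K) (k : ℕ) : K :=
  ∑ i, D i ^ (k + 1) - ∑ j, E j ^ (k + 1)

lemma psum_append {m n : ℕ} (D : Fin m → K) (E : Fin n → K) (k : ℕ) :
    psum K m (Fin.append D E) k = pp D E k := by
  unfold psum pp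
  rw [Fin.sum_univ_add]
  have h1 : ∀ i : Fin m, par m (Fin.castAdd n i) = 0 := by
    intro i
    unfold par
    rw [if_pos (by simp)]
  have h2 : ∀ j : Fin n, par m (Fin.natAdd m j) = 1 := by
    intro j
    unfold par
    rw [if_neg (by simp)]
  simp only [h1, h2, Fin.append_left, Fin.append_right, pow_zero, one_mul, pow_one, neg_mul,
    Finset.sum_neg_distrib]
  ring

lemma pp_cons {m n : ℕ} (D : Fin m → K) (E : Fin n → K) (z w : K) (k : ℕ) :
    pp (Fin.cons z D : Fin (m + 1) → K) (Fin.cons w E : Fin (n + 1) → K) k =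
      pp D E k + z ^ (k + 1) - w ^ (k + 1) := by
  unfold pp
  rw [Fin.sum_univ_succ, Fin.sum_univ_succ]
  simp only [Fin.cons_zero, Fin.cons_succ]
  ring

lemma eval_aeval (f : ℕ → K[X]) (z : K) (F : MvPolynomial ℕ K) :
    Polynomial.eval z (MvPolynomial.aeval f F) =
      MvPolynomial.eval (fun k => Polynomial.eval z (f k)) F := by
  induction F using MvPolynomial.induction_on with
  | C a => simp
  | add p q hp hq => rw [map_add, Polynomial.eval_add, hp, hq, map_add]
  | mul_X p i hp =>
    rw [map_mul, Polynomial.eval_mul, hp, map_mul, MvPolynomial.aeval_X, MvPolynomial.eval_X]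

/-- the chain rule -/
lemma chain (F : MvPolynomial ℕ K) : ∃ N : ℕ, ∀ (f : ℕ → K[X]) (N' : ℕ), N ≤ N' →
    derivative (MvPolynomial.aeval f F) =
      ∑ k ∈ Finset.range N', MvPolynomial.aeval f (MvPolynomial.pderiv k F) * derivative (f k) := by
  induction F using MvPolynomial.induction_on with
  | C a =>
    refine ⟨0, fun f N' _ => ?_⟩
    rw [Finset.sum_eq_zero]
    · rw [MvPolynomial.aeval_C]
      simp
    · intro k _
      rw [MvPolynomial.pderiv_C, map_zero, zero_mul]
  | add p q hp hq =>
    obtain ⟨N1, h1⟩ := hp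
    obtain ⟨N2, h2⟩ := hq
    refine ⟨max N1 N2, fun f N' hN => ?_⟩
    rw [map_add, derivative_add, h1 f N' ((le_max_left _ _).trans hN),
      h2 f N' ((le_max_right _ _).trans hN), ← Finset.sum_add_distrib]
    refine Finset.sum_congr rfl fun k _ => ?_
    rw [map_add, map_add, add_mul]
  | mul_X p i hp =>
    obtain ⟨N1, h1⟩ := hp
    refine ⟨max N1 (i + 1), fun f N' hN => ?_⟩
    rw [map_mul, derivative_mul, h1 f N' ((le_max_left _ _).trans hN), MvPolynomial.aeval_X]
    have e : ∀ k, MvPolynomial.aeval f (MvPolynomial.pderiv k (p * MvPolynomial.X i)) *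
        derivative (f k) = MvPolynomial.aeval f (MvPolynomial.pderiv k p) * derivative (f k) * f i +
        (if k = i then MvPolynomial.aeval f p * derivative (f i) else 0) := by
      intro k
      rw [MvPolynomial.pderiv_mul, map_add, map_mul, map_mul, MvPolynomial.aeval_X,
        MvPolynomial.pderiv_X]
      by_cases hk : k = i
      · subst hk
        rw [if_pos rfl, Pi.single_eq_same, map_one]
        ring
      · rw [if_neg hk, Pi.single_eq_of_ne (Ne.symm hk), map_zero]
        ring
    rw [Finset.sum_congr rfl fun k _ => e k, Finset.sum_add_distrib, Finset.sum_ite_eq',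
      if_pos (Finset.mem_range.mpr (lt_of_lt_of_le (Nat.lt_succ_self i)
        ((le_max_right _ _).trans hN))), Finset.sum_mul]

/-- the inductive step for the vanishing -/
lemma step [CharZero K] {m n : ℕ} (F : MvPolynomial ℕ K)
    (hF : ∀ (D : Fin (m + 1) → K) (E : Fin (n + 1) → K), MvPolynomial.eval (pp D E) F = 0) (k : ℕ)
    (D : Fin m → K) (E : Fin n → K) :
    MvPolynomial.eval (pp D E) (MvPolynomial.pderiv k F) = 0 := by
  obtain ⟨N, hN⟩ := chain F
  obtain ⟨N', hN1, hN2⟩ : ∃ N', N ≤ N' ∧ k < N' := ⟨max N (k + 1), le_max_left _ _,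
    lt_of_lt_of_le (Nat.lt_succ_self k) (le_max_right _ _)⟩
  obtain ⟨c, hc⟩ : ∃ c : ℕ → K, ∀ i, c i = MvPolynomial.eval (pp D E) (MvPolynomial.pderiv i F) :=
    ⟨_, fun _ => rfl⟩
  rw [← hc]
  have hw : ∀ w : K, ∑ i ∈ Finset.range N', c i * (((i : K) + 1) * w ^ i) = 0 := by
    intro w
    obtain ⟨f, hf⟩ : ∃ f : ℕ → K[X], ∀ i, f i = C (pp D E i - w ^ (i + 1)) + X ^ (i + 1) :=
      ⟨_, fun _ => rfl⟩
    have h0 : MvPolynomial.aeval f F = 0 := by
      apply Polynomial.funext
      intro z
      rw [eval_aeval, Polynomial.eval_zero, ← hF (Fin.cons z D) (Fin.cons w E)]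
      congr 2
      funext i
      rw [hf, pp_cons]
      simp only [eval_add, eval_C, eval_pow, eval_X]
      ring
    have h1 := hN f N' hN1
    rw [h0, derivative_zero] at h1
    have h2 := congrArg (Polynomial.eval w) h1
    rw [Polynomial.eval_zero, Polynomial.eval_finsetSum] at h2
    rw [h2]
    refine Finset.sum_congr rfl fun i _ => ?_
    rw [Polynomial.eval_mul, eval_aeval, hc]
    congr 1
    · congr 2
      funext j
      rw [hf]
      simp only [eval_add, eval_C, eval_pow, eval_X]
      ring
    · rw [hf, derivative_add, derivative_C, derivative_X_pow, zero_add]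
      simp
  have hH : ∑ i ∈ Finset.range N', C (c i * ((i : K) + 1)) * X ^ i = 0 := by
    apply Polynomial.funext
    intro w
    rw [Polynomial.eval_zero, ← hw w, Polynomial.eval_finsetSum]
    refine Finset.sum_congr rfl fun i _ => ?_
    simp only [eval_mul, eval_C, eval_pow, eval_X]
    ring
  have h3 := congrArg (fun p => Polynomial.coeff p k) hH
  simp only [Polynomial.finsetSum_coeff, Polynomial.coeff_C_mul_X_pow, Polynomial.coeff_zero] at h3
  rw [Finset.sum_ite_eq, if_pos (Finset.mem_range.mpr hN2)] at h3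
  rcases mul_eq_zero.mp h3 with h | h
  · exact h
  · exact absurd h (Nat.cast_add_one_ne_zero k)

/-- divisibility of a polynomial from its derivative -/
lemma dvd_of_der [CharZero K] (t : K) (s : ℕ) (P : K[X]) (h0 : (X - C t) ∣ P)
    (h1 : (X - C t) ^ s ∣ derivative P) : (X - C t) ^ (s + 1) ∣ P := by
  by_cases hP : P = 0
  · rw [hP]; exact dvd_zero _
  have hroot : P.IsRoot t := dvd_iff_isRoot.mp h0
  have h2 := derivative_rootMultiplicity_of_root hroot
  have hder : derivative P ≠ 0 := by
    intro h
    have h3 := derivative_eq_zero.mp h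
    obtain ⟨c, hc⟩ := natDegree_eq_zero.mp h3
    apply hP
    rw [← hc] at hroot ⊢
    have h4 : c = 0 := by simpa using hroot
    rw [h4, C_0]
  have h3 : s ≤ (derivative P).rootMultiplicity t := (le_rootMultiplicity_iff hder).mpr h1
  have h4 : 1 ≤ P.rootMultiplicity t := by
    rw [le_rootMultiplicity_iff hP, pow_one]
    exact h0
  rw [← le_rootMultiplicity_iff hP]
  omega

theorem main [CharZero K] : ∀ (m n : ℕ) (F : MvPolynomial ℕ K),
    (∀ (D : Fin m → K) (E : Fin n → K), MvPolynomial.eval (pp D E) F = 0) →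
    (X - C ((m : K) - n)) ^ (min m n + 1) ∣ MvPolynomial.aeval (fun _ => (X : K[X])) F := by
  have base : ∀ (m n : ℕ) (F : MvPolynomial ℕ K),
      (∀ (D : Fin m → K) (E : Fin n → K), MvPolynomial.eval (pp D E) F = 0) →
      (X - C ((m : K) - n)) ∣ MvPolynomial.aeval (fun _ => (X : K[X])) F := by
    intro m n F hF
    rw [dvd_iff_isRoot, IsRoot.def, eval_aeval, ← hF (fun _ => 1) (fun _ => 1)]
    congr 2
    funext k
    unfold pp
    simp
  intro m
  induction m with
  | zero =>
    intro n F hF
    rw [Nat.zero_min, zero_add, pow_one]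
    exact base 0 n F hF
  | succ m ih =>
    intro n F hF
    rcases n with - | n
    · rw [Nat.min_zero, zero_add, pow_one]
      exact base (m + 1) 0 F hF
    · have e : ((m + 1 : ℕ) : K) - ((n + 1 : ℕ) : K) = (m : K) - n := by push_cast; ring
      rw [e, Nat.succ_min_succ]
      apply dvd_of_der
      · rw [← e]; exact base (m + 1) (n + 1) F hF
      · obtain ⟨N, hN⟩ := chain F
        rw [hN (fun _ => X) N le_rfl]
        refine Finset.dvd_sum fun k _ => Dvd.dvd.mul_right ?_ _
        exact ih n _ (step F hF k)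

end MVPm

theorem t_MVP : S_MVP.{u} := by
  intro K _ _ m n F hF
  apply MVPm.main m n F
  intro D E
  rw [← hF (Fin.append D E)]
  congr 2
  funext k
  exact (MVPm.psum_append D E k).symm

end Pool.Agent.L0h13.SD
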