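import Pool.Agent.L0h13.SD.Stm

set_option autoImplicit false

/-! OPM: the action is multiplicative. -/

namespace Pool.Agent.L0h13.SD

open Polynomial Equiv

lemma act_mul_opm (h : S_EPS) (K : Type*) [Field K] (m r N : ℕ) (τ σ : Perm (Fin N)) :
    act K m (r := r) (τ * σ) = act K m τ * act K m σ := by
  apply LinearMap.ext
  intro F
  funext w
  have h1 := h.1 m r N σ τ w
  show (eps m (τ * σ) (w ∘ (τ * σ : Perm (Fin N))) : K) * F (w ∘ (τ * σ : Perm (Fin N))) =
    (eps m τ (w ∘ τ) : K) * ((eps m σ (w ∘ (τ * σ : Perm (Fin N))) : K) *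
      F (w ∘ (τ * σ : Perm (Fin N))))
  rw [h1, Int.cast_mul, mul_assoc]

theorem t_OPM (h : S_EPS) : S_OPM := by
  intro K _ m r N y z
  constructor
  · have k2 : ∀ (σ : Perm (Fin N)) (z : GA K N),
        op K m r (pm K σ * z) = op K m r (pm K σ) * op K m r z := by
      intro σ z
      have : (op K m r).comp (LinearMap.mulLeft K (pm K σ)) =
          (LinearMap.mulLeft K (op K m r (pm K σ))).comp (op K m (N := N) r) := by
        apply lin_ext
        intro τ
        rw [LinearMap.comp_apply, LinearMap.comp_apply, LinearMap.mulLeft_apply,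
          LinearMap.mulLeft_apply, pm_mul, op, lin_pm, lin_pm, lin_pm, act_mul_opm h]
      exact LinearMap.congr_fun this z
    have : (op K m r).comp (LinearMap.mulRight K z) =
        (LinearMap.mulRight K (op K m r z)).comp (op K m (N := N) r) := by
      apply lin_ext
      intro σ
      rw [LinearMap.comp_apply, LinearMap.comp_apply, LinearMap.mulRight_apply,
        LinearMap.mulRight_apply, k2]
    exact LinearMap.congr_fun this y
  · rw [← pm_one, op, lin_pm]
    apply LinearMap.ext
    intro F
    funext w
    show (eps m 1 (w ∘ (1 : Perm (Fin N))) : K) * F (w ∘ (1 : Perm (Fin N))) = F w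
    rw [h.2, Int.cast_one, one_mul]
    rfl

end Pool.Agent.L0h13.SD
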