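import Pool.Agent.L0h13.SD.Stm

/-!
# Module PRM of the project SD
-/

set_option autoImplicit false

namespace Pool.Agent.L0h13.SD

universe u

open Polynomial Equiv

theorem t_PRM (h : S_RES) : S_PRM := by
  intro K _ m r N M y f h0
  -- products of functions
  have key : ∀ (F₁ : (Fin N → Fin r) → K) (F₂ : (Fin M → Fin r) → K) (w : Fin (N + M) → Fin r),
      op K m r (blkL y * blkR f : GA K (N + M))
        (fun v => F₁ (fun i => v (Fin.castAdd M i)) * F₂ fun i => v (Fin.natAdd N i)) w =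
      op K m r y F₁ (fun i => w (Fin.castAdd M i)) * op K m r f F₂ fun i => w (Fin.natAdd N i) := by
    intro F₁ F₂ w
    have hblk : ∀ (σ : Perm (Fin N)) (τ : Perm (Fin M)), blk σ 1 * blk 1 τ = blk σ τ := by
      intro σ τ
      ext i
      refine Fin.addCases (fun j => ?_) (fun j => ?_) i
      · rw [Perm.mul_apply, blk_castAdd, blk_castAdd, blk_castAdd, Perm.one_apply]
      · rw [Perm.mul_apply, blk_natAdd, blk_natAdd, blk_natAdd, Perm.one_apply]
    have hact : ∀ (σ : Perm (Fin N)) (τ : Perm (Fin M)), act K m (blk σ τ)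
        (fun v => F₁ (fun i => v (Fin.castAdd M i)) * F₂ fun i => v (Fin.natAdd N i)) w =
        act K m σ F₁ (fun i => w (Fin.castAdd M i)) * act K m τ F₂ fun i => w (Fin.natAdd N i) := by
      intro σ τ
      have e1 : (fun i => (w ∘ (blk σ τ)) (Fin.castAdd M i)) = (fun i => w (Fin.castAdd M i)) ∘ σ := by
        funext i
        simp [blk_castAdd]
      have e2 : (fun i => (w ∘ (blk σ τ)) (Fin.natAdd N i)) = (fun i => w (Fin.natAdd N i)) ∘ τ := by
        funext i
        simp [blk_natAdd]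
      change (eps m (blk σ τ) (w ∘ (blk σ τ)) : K) *
        (F₁ (fun i => (w ∘ (blk σ τ)) (Fin.castAdd M i)) * F₂ fun i => (w ∘ (blk σ τ)) (Fin.natAdd N i)) =
        ((eps m σ ((fun i => w (Fin.castAdd M i)) ∘ σ) : K) * F₁ ((fun i => w (Fin.castAdd M i)) ∘ σ)) *
        ((eps m τ ((fun i => w (Fin.natAdd N i)) ∘ τ) : K) * F₂ ((fun i => w (Fin.natAdd N i)) ∘ τ))
      rw [h.2.2 m r N M σ τ, e1, e2]
      push_cast
      ring
    have hy : (blkL y : GA K (N + M)) = ∑ σ, y.coeff σ • pm K (blk σ 1) := rfl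
    have hf : (blkR f : GA K (N + M)) = ∑ τ, f.coeff τ • pm K (blk 1 τ) := rfl
    have hop : ∀ σ : Perm (Fin (N + M)), op K m r (pm K σ) = act K m (r := r) σ := fun σ => lin_pm _ σ
    rw [hy, hf, Finset.sum_mul_sum]
    simp only [smul_mul_smul_comm, pm_mul, hblk, map_sum, map_smul, hop]
    have e3 : op K m r y F₁ (fun i => w (Fin.castAdd M i)) =
        ∑ σ, y.coeff σ * act K m σ F₁ fun i => w (Fin.castAdd M i) := by
      rw [op, lin_apply]
      simp
    have e4 : (op K m r f F₂ fun i => w (Fin.natAdd N i)) =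
        ∑ τ, f.coeff τ * act K m τ F₂ fun i => w (Fin.natAdd N i) := by
      rw [op, lin_apply]
      simp
    rw [e3, e4, Finset.sum_mul_sum]
    simp only [LinearMap.sum_apply, LinearMap.smul_apply, Finset.sum_apply, Pi.smul_apply,
      smul_eq_mul, hact]
    refine Finset.sum_congr rfl fun σ _ => Finset.sum_congr rfl fun τ _ => ?_
    ring
  by_contra hcon
  rw [not_or] at hcon
  obtain ⟨hy, hf⟩ := hcon
  have ex : ∀ (n : ℕ) (g : GA K n), op K m r g ≠ 0 → ∃ (G : (Fin n → Fin r) → K) (v : Fin n → Fin r),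
      op K m r g G v ≠ 0 := by
    intro n g hg
    by_contra hc
    apply hg
    refine LinearMap.ext fun G => ?_
    funext v
    by_contra hv
    exact hc ⟨G, v, hv⟩
  obtain ⟨F₁, w₁, hw₁⟩ := ex N y hy
  obtain ⟨F₂, w₂, hw₂⟩ := ex M f hf
  have h2 := key F₁ F₂ (Fin.append w₁ w₂)
  rw [h0] at h2
  have e5 : (fun i => Fin.append w₁ w₂ (Fin.castAdd M i)) = w₁ := by
    funext i
    exact Fin.append_left _ _ _
  have e6 : (fun i => Fin.append w₁ w₂ (Fin.natAdd N i)) = w₂ := by
    funext i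
    exact Fin.append_right _ _ _
  rw [e5, e6] at h2
  exact mul_ne_zero hw₁ hw₂ h2.symm

end Pool.Agent.L0h13.SD
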