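import Pool.Agent.L0h13.SD.PTM

/-!
# The partial trace and the polynomials
-/

set_option autoImplicit false

namespace Pool.Agent.L0h13.SD

universe u

open Polynomial Equiv

open PTMaux in
theorem t_PTA (h1 : S_CYC) (h2 : S_DEL) : S_PTA.{u} := by
  intro K _ t N h g
  obtain ⟨-, hc, -⟩ := h1
  obtain ⟨d1, d2, -⟩ := h2
  have dn1 : dn (1 : Perm (Fin N)) = 1 := by
    have := d1 N 1 1
    rw [mul_one] at this
    exact (mul_eq_left.mp this.symm)
  induction g using ga_induction with
  | h0 => simp only [map_zero, mul_zero, add_zero]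
  | hadd x y hx hy =>
    simp only [map_add, mul_add, hx, hy]
    ring
  | hsmul c x hx =>
    simp only [map_smul, mul_smul_comm, hx, smul_add]
  | hpm σ =>
    induction h using ga_induction with
    | h0 => simp only [map_zero, zero_mul, mul_zero, add_zero]
    | hadd x y hx hy =>
      simp only [map_add, add_mul, hx, hy]
      ring
    | hsmul c x hx =>
      simp only [map_smul, smul_mul_assoc, hx, smul_add, mul_smul_comm]
    | hpm a =>
      obtain ⟨h3, h4⟩ := d2 N a 1 σ
      rw [dn1, mul_one, mul_one] at h3
      rw [dn1, mul_one] at h4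
      rw [dnA_pm, pm_mul, ptr_pm, cex_pm, pol_pm, hc, h3, if_congr h4 rfl rfl]
      by_cases hs : σ (Fin.last N) = Fin.last N
      · rw [if_pos hs, if_pos hs, if_pos hs, mul_smul_comm, pm_mul, map_smul, pol_pm,
          Polynomial.smul_eq_C_mul]
        ring
      · rw [if_neg hs, if_neg hs, if_neg hs, one_smul, pm_mul, mul_zero, map_zero, pol_pm]
        ring

end Pool.Agent.L0h13.SD
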