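import Pool.Agent.L0h13.SD.Stm

/-!
# The partial trace is a map of bimodules
-/

set_option autoImplicit false

namespace Pool.Agent.L0h13.SD

universe u

open Polynomial Equiv

namespace PTMaux

/-- Induction for the elements of the group algebra. -/
lemma ga_induction {K : Type*} [Field K] {N : ℕ} {p : GA K N → Prop} (y : GA K N)
    (h0 : p 0) (hadd : ∀ x y, p x → p y → p (x + y)) (hsmul : ∀ (c : K) x, p x → p (c • x))
    (hpm : ∀ σ, p (pm K σ)) : p y := by
  rw [← sum_pm y]
  exact Finset.sum_induction _ p hadd h0 fun σ _ => hsmul _ _ (hpm σ)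

variable {K : Type u} [Field K] {N : ℕ}

lemma dnA_pm (σ : Perm (Fin N)) : dnA (pm K σ) = pm K (dn σ) := by
  rw [dnA, lin_pm]

lemma ptr_pm (t : K) (σ : Perm (Fin (N + 1))) :
    ptr t (pm K σ) = (if σ (Fin.last N) = Fin.last N then t else 1) • pm K (del σ) := by
  rw [ptr, lin_pm]

lemma cex_pm (σ : Perm (Fin (N + 1))) :
    cex (pm K σ) = if σ (Fin.last N) = Fin.last N then pm K (del σ) else 0 := by
  rw [cex, lin_pm]

lemma pol_pm (σ : Perm (Fin N)) : pol (pm K σ) = X ^ cyc σ := by
  rw [pol, lin_pm]

end PTMaux

open PTMaux in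
theorem t_PTM (h : S_DEL) : S_PTM.{u} := by
  intro K _ t N a b g
  obtain ⟨h1, h2, -⟩ := h
  constructor
  · induction b using ga_induction with
    | h0 => simp only [map_zero, mul_zero]
    | hadd x y hx hy => simp only [map_add, mul_add, hx, hy]
    | hsmul c x hx => simp only [map_smul, mul_smul_comm, hx]
    | hpm τ =>
      induction g using ga_induction with
      | h0 => simp only [map_zero, mul_zero, zero_mul]
      | hadd x y hx hy => simp only [map_add, mul_add, add_mul, hx, hy]
      | hsmul c x hx => simp only [map_smul, mul_smul_comm, smul_mul_assoc, hx]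
      | hpm ρ =>
        induction a using ga_induction with
        | h0 => simp only [map_zero, zero_mul]
        | hadd x y hx hy => simp only [map_add, add_mul, hx, hy]
        | hsmul c x hx => simp only [map_smul, smul_mul_assoc, hx]
        | hpm σ =>
          obtain ⟨h3, h4⟩ := h2 N σ τ ρ
          rw [dnA_pm, dnA_pm, pm_mul, pm_mul, ptr_pm, ptr_pm, h3, if_congr h4 rfl rfl,
            mul_smul_comm, smul_mul_assoc, pm_mul, pm_mul]
  · induction b using ga_induction with
    | h0 => simp only [map_zero, mul_zero]
    | hadd x y hx hy => simp only [map_add, mul_add, hx, hy]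
    | hsmul c x hx => simp only [map_smul, mul_smul_comm, hx]
    | hpm τ =>
      induction a using ga_induction with
      | h0 => simp only [map_zero, zero_mul]
      | hadd x y hx hy => simp only [map_add, add_mul, hx, hy]
      | hsmul c x hx => simp only [map_smul, smul_mul_assoc, hx]
      | hpm σ => rw [pm_mul, dnA_pm, dnA_pm, dnA_pm, pm_mul, h1]

end Pool.Agent.L0h13.SD
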