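import Pool.Agent.L0h13.SD.Stm

/-!
# Module REP: the operators `rep a b` commute with the signed permutations
-/

set_option autoImplicit false

namespace Pool.Agent.L0h13.SD

universe u

open Polynomial Equiv

namespace REP

lemma act_mul (h1 : S_EPS) (K : Type u) [Field K] (m : ℕ) {r N : ℕ} (τ σ : Perm (Fin N)) :
    act K m (r := r) (τ * σ) = act K m τ * act K m σ := by
  apply LinearMap.ext
  intro F
  funext w
  show (eps m (τ * σ) (w ∘ (τ * σ : Perm (Fin N))) : K) * F (w ∘ (τ * σ : Perm (Fin N))) =
    (eps m τ (w ∘ τ) : K) * ((eps m σ ((w ∘ τ) ∘ σ) : K) * F ((w ∘ τ) ∘ σ))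
  rw [h1.1 m r N σ τ w]
  push_cast
  rw [mul_assoc]
  rfl

lemma act_one (h1 : S_EPS) (K : Type u) [Field K] (m : ℕ) {r N : ℕ} :
    act K m (r := r) (1 : Perm (Fin N)) = 1 := by
  apply LinearMap.ext
  intro F
  funext w
  show (eps m 1 (w ∘ (1 : Perm (Fin N))) : K) * F (w ∘ (1 : Perm (Fin N))) = F w
  rw [h1.2]
  push_cast
  rw [one_mul]
  rfl

lemma sw_val {N : ℕ} (i : Fin N) (l : Fin (N + 1)) :
    ((swap i.castSucc i.succ l : Fin (N + 1)) : ℕ) =
      if (l : ℕ) = i then (i : ℕ) + 1 else if (l : ℕ) = i + 1 then (i : ℕ) else l := by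
  rw [Equiv.swap_apply_def]
  by_cases h : l = i.castSucc
  · subst h
    simp
  · rw [if_neg h]
    have h' : ¬ (l : ℕ) = i := fun e => h (Fin.ext e)
    rw [if_neg h']
    by_cases h2 : l = i.succ
    · subst h2
      simp
    · have h2' : ¬ (l : ℕ) = i + 1 := fun e => h2 (Fin.ext e)
      rw [if_neg h2, if_neg h2']

variable {r N : ℕ}

lemma sum_a (m : ℕ) (i : Fin N) (w : Fin (N + 1) → Fin r) (j : Fin (N + 1))
    (h0 : j ≠ i.castSucc) (h1 : j ≠ i.succ) :
    (∑ l : Fin (N + 1), if swap i.castSucc i.succ l < swap i.castSucc i.succ j then par m (w l)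
      else 0) = ∑ l : Fin (N + 1), if l < j then par m (w l) else 0 := by
  have h0' : (j : ℕ) ≠ i := fun e => h0 (Fin.ext e)
  have h1' : (j : ℕ) ≠ i + 1 := fun e => h1 (Fin.ext e)
  apply Finset.sum_congr rfl
  intro l _
  congr 1
  rw [Fin.lt_def, Fin.lt_def, sw_val, sw_val]
  apply propext
  split_ifs <;> omega

lemma sum_b (m : ℕ) (i : Fin N) (w : Fin (N + 1) → Fin r) :
    (∑ l : Fin (N + 1), if swap i.castSucc i.succ l < swap i.castSucc i.succ i.castSucc
      then par m (w l) else 0) =
      (∑ l : Fin (N + 1), if l < i.castSucc then par m (w l) else 0) + par m (w i.succ) := by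
  have e : par m (w i.succ) = ∑ l : Fin (N + 1), if l = i.succ then par m (w l) else 0 := by
    rw [Finset.sum_ite_eq' Finset.univ i.succ (fun l => par m (w l)), if_pos (Finset.mem_univ _)]
  rw [e, ← Finset.sum_add_distrib]
  apply Finset.sum_congr rfl
  intro l _
  have c1 : (swap i.castSucc i.succ l < swap i.castSucc i.succ i.castSucc) ↔
      (l < i.castSucc ∨ l = i.succ) := by
    rw [Fin.lt_def, Fin.lt_def, sw_val, sw_val, Fin.ext_iff, Fin.val_castSucc, Fin.val_succ]
    split_ifs <;> omega
  by_cases a1 : l < i.castSucc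
  · have a2 : l ≠ i.succ := by
      rintro rfl
      rw [Fin.lt_def, Fin.val_castSucc, Fin.val_succ] at a1
      omega
    rw [if_pos (c1.2 (Or.inl a1)), if_pos a1, if_neg a2, add_zero]
  · by_cases a2 : l = i.succ
    · rw [if_pos (c1.2 (Or.inr a2)), if_neg a1, if_pos a2, zero_add]
    · rw [if_neg (fun h => (c1.1 h).elim a1 a2), if_neg a1, if_neg a2]

lemma sum_c (m : ℕ) (i : Fin N) (w : Fin (N + 1) → Fin r) :
    (∑ l : Fin (N + 1), if l < i.succ then par m (w l) else 0) =
    (∑ l : Fin (N + 1), if swap i.castSucc i.succ l < swap i.castSucc i.succ i.succ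
      then par m (w l) else 0) + par m (w i.castSucc) := by
  have e : par m (w i.castSucc) =
      ∑ l : Fin (N + 1), if l = i.castSucc then par m (w l) else 0 := by
    rw [Finset.sum_ite_eq' Finset.univ i.castSucc (fun l => par m (w l)),
      if_pos (Finset.mem_univ _)]
  rw [e, ← Finset.sum_add_distrib]
  apply Finset.sum_congr rfl
  intro l _
  have c1 : (swap i.castSucc i.succ l < swap i.castSucc i.succ i.succ) ↔
      (l < i.castSucc) := by
    rw [Fin.lt_def, Fin.lt_def, sw_val, sw_val, Fin.val_castSucc, Fin.val_succ]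
    split_ifs <;> omega
  by_cases a1 : l < i.castSucc
  · have a2 : l ≠ i.castSucc := ne_of_lt a1
    have a3 : l < i.succ := a1.trans (Fin.castSucc_lt_succ)
    rw [if_pos (c1.2 a1), if_pos a3, if_neg a2, add_zero]
  · by_cases a2 : l = i.castSucc
    · subst a2
      rw [if_neg (fun h => a1 (c1.1 h)), if_pos Fin.castSucc_lt_succ, if_pos rfl, zero_add]
    · have a3 : ¬ l < i.succ := by
        rw [Fin.lt_def, Fin.val_succ]
        rw [Fin.lt_def, Fin.val_castSucc] at a1
        rw [Fin.ext_iff, Fin.val_castSucc] at a2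
        omega
      rw [if_neg (fun h => a1 (c1.1 h)), if_neg a3, if_neg a2]

lemma neg_one_pow_congr {K : Type u} [Field K] {a b : ℕ} (c d : ℕ) (h : a + 2 * c = b + 2 * d) :
    (-1 : K) ^ a = (-1 : K) ^ b := by
  have h1 : (-1 : K) ^ (a + 2 * c) = (-1 : K) ^ a := by
    rw [pow_add, pow_mul, neg_one_sq, one_pow, mul_one]
  have h2 : (-1 : K) ^ (b + 2 * d) = (-1 : K) ^ b := by
    rw [pow_add, pow_mul, neg_one_sq, one_pow, mul_one]
  rw [← h1, h, h2]

lemma adj (h2 : S_ADJ) (K : Type u) [Field K] (m : ℕ) (a b : Fin r) (i : Fin N) :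
    act K m (swap i.castSucc i.succ) * rep K m a b =
      rep K m a b * act K m (swap i.castSucc i.succ) := by
  apply LinearMap.ext
  intro F
  funext w
  have hs : ∀ l, swap i.castSucc i.succ (swap i.castSucc i.succ l) = l := by
    intro l
    rw [← Equiv.Perm.mul_apply, Equiv.swap_mul_self]
    rfl
  obtain ⟨s, hsd⟩ : ∃ s : Perm (Fin (N + 1)), s = swap i.castSucc i.succ := ⟨_, rfl⟩
  have s0 : s i.castSucc = i.succ := by rw [hsd, swap_apply_left]
  have s1 : s i.succ = i.castSucc := by rw [hsd, swap_apply_right]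
  have hA := sum_a (r := r) m i
  have hB := sum_b (r := r) m i
  have hC := sum_c (r := r) m i
  have hE := h2 m r N i
  rw [← hsd] at hs hA hB hC hE ⊢
  show (eps m s (w ∘ s) : K) * (∑ j : Fin (N + 1), if (w ∘ s) j = a then
    (-1 : K) ^ ((par m a + par m b) * ∑ l : Fin (N + 1), if l < j then par m ((w ∘ s) l) else 0) *
      F (Function.update (w ∘ s) j b) else 0) = ∑ j : Fin (N + 1), if w j = a then
    (-1 : K) ^ ((par m a + par m b) * ∑ l : Fin (N + 1), if l < j then par m (w l) else 0) *
      ((eps m s ((Function.update w j b) ∘ s) : K) * F ((Function.update w j b) ∘ s)) else 0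
  rw [← Equiv.sum_comp s, Finset.mul_sum]
  apply Finset.sum_congr rfl
  intro j _
  have e1 : (w ∘ s) (s j) = w j := by
    show w (s (s j)) = w j
    rw [hs]
  have e2 : Function.update (w ∘ s) (s j) b = (Function.update w j b) ∘ s := by
    funext l
    show _ = Function.update w j b (s l)
    by_cases hl : l = s j
    · rw [hl, Function.update_self, hs, Function.update_self]
    · have : s l ≠ j := by
        intro h
        apply hl
        rw [← h, hs]
      rw [Function.update_of_ne hl, Function.update_of_ne this]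
      rfl
  have e3 : (∑ l : Fin (N + 1), if l < s j then par m ((w ∘ s) l) else 0) =
      ∑ l : Fin (N + 1), if s l < s j then par m (w l) else 0 := by
    rw [← Equiv.sum_comp s]
    apply Finset.sum_congr rfl
    intro l _
    show (if s l < s j then par m (w (s (s l))) else 0) = _
    rw [hs]
  rw [e1, e2, e3]
  by_cases hj : w j = a
  · rw [if_pos hj, if_pos hj, hE, hE]
    push_cast
    rw [← mul_assoc, ← mul_assoc, ← pow_add, ← pow_add]
    congr 1
    show (-1 : K) ^ (par m (w (s i.castSucc)) * par m (w (s i.succ)) + _) =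
      (-1 : K) ^ (_ + par m (Function.update w j b (s i.castSucc)) *
        par m (Function.update w j b (s i.succ)))
    rw [s0, s1]
    have hne : i.castSucc ≠ i.succ := ne_of_lt Fin.castSucc_lt_succ
    by_cases j0 : j = i.castSucc
    · subst j0
      rw [hB, Function.update_self, Function.update_of_ne hne.symm, hj]
      apply neg_one_pow_congr 0 (par m (w i.succ) * par m a)
      ring
    · by_cases j1 : j = i.succ
      · subst j1
        rw [hC, Function.update_self, Function.update_of_ne hne, hj]
        apply neg_one_pow_congr (par m (w i.castSucc) * par m b) 0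
        ring
      · rw [hA w j j0 j1, Function.update_of_ne (Ne.symm j0), Function.update_of_ne (Ne.symm j1),
          add_comm]
  · rw [if_neg hj, if_neg hj, mul_zero]

end REP

theorem t_REP (h1 : S_EPS) (h2 : S_ADJ) : S_REP := by
  intro K _ m r N a b σ
  rcases N with _ | N
  · have : σ = 1 := Subsingleton.elim _ _
    rw [this, REP.act_one h1, one_mul, mul_one]
  · have hσ : σ ∈ Submonoid.closure (Set.range fun i : Fin N => swap i.castSucc i.succ) := by
      rw [Equiv.Perm.mclosure_swap_castSucc_succ]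
      trivial
    induction hσ using Submonoid.closure_induction with
    | mem x hx =>
      obtain ⟨i, rfl⟩ := hx
      exact REP.adj h2 K m a b i
    | one => rw [REP.act_one h1, one_mul, mul_one]
    | mul x y _ _ hx hy =>
      rw [REP.act_mul h1, mul_assoc, hy, ← mul_assoc, hx, mul_assoc]

end Pool.Agent.L0h13.SD
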