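import Pool.Agent.L0h13.SD.Stm

/-!
# Tensor ideals in the group algebras of the symmetric groups
-/

set_option autoImplicit false

namespace Pool.Agent.L0h13.SD

universe u

open Polynomial Equiv

namespace TIm

lemma exists_central {R : Type*} [Ring R] [IsSemisimpleRing R] (I : Ideal R)
    (hI : ∀ x ∈ I, ∀ y, x * y ∈ I) :
    ∃ e ∈ I, e * e = e ∧ (∀ x ∈ I, x * e = x) ∧ ∀ x, e * x = x * e := by
  obtain ⟨e, he, heI⟩ := IsSemisimpleRing.ideal_eq_span_idempotent I
  let J : Ideal Rᵐᵒᵖ :=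
    { carrier := {x | x.unop ∈ I}
      zero_mem' := I.zero_mem
      add_mem' := fun {a b} ha hb => I.add_mem ha hb
      smul_mem' := fun c a ha => hI _ ha _ }
  obtain ⟨f, hf, hfJ⟩ := IsSemisimpleRing.ideal_eq_span_idempotent J
  have heI' : e ∈ I := by rw [heI]; exact Ideal.mem_span_singleton_self e
  have hfJ' : f ∈ J := by rw [hfJ]; exact Ideal.mem_span_singleton_self f
  have h1 : ∀ x ∈ I, x * e = x := by
    intro x hx
    rw [heI] at hx
    obtain ⟨a, rfl⟩ := Ideal.mem_span_singleton'.1 hx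
    rw [mul_assoc, he.eq]
  have h2 : ∀ x ∈ I, f.unop * x = x := by
    intro x hx
    have hx' : MulOpposite.op x ∈ J := hx
    rw [hfJ] at hx'
    obtain ⟨a, ha⟩ := Ideal.mem_span_singleton'.1 hx'
    have h3 : MulOpposite.op x * f = MulOpposite.op x := by rw [← ha, mul_assoc, hf.eq]
    exact congrArg MulOpposite.unop h3
  have hfI : f.unop ∈ I := hfJ'
  have hef : f.unop = e := by rw [← h1 _ hfI, h2 _ heI']
  rw [hef] at h2
  refine ⟨e, heI', he.eq, h1, fun x => ?_⟩
  rw [← h1 _ (hI _ heI' x), mul_assoc, h2 _ (I.mul_mem_left x heI')]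

variable {K : Type u} [Field K]

/-- the polynomial of a product does not depend on the order -/
lemma pol_comm (h1 : S_CYC) {N : ℕ} (a b : GA K N) : pol (a * b) = pol (b * a) := by
  have e1 : ∀ σ : Perm (Fin N), pol (a * pm K σ) = pol (pm K σ * a) := by
    intro σ
    have e2 : (pol : GA K N →ₗ[K] K[X]).comp (LinearMap.mulRight K (pm K σ)) =
        (pol : GA K N →ₗ[K] K[X]).comp (LinearMap.mulLeft K (pm K σ)) := by
      apply lin_ext
      intro τ
      rw [LinearMap.comp_apply, LinearMap.comp_apply, LinearMap.mulRight_apply,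
        LinearMap.mulLeft_apply, pm_mul, pm_mul]
      unfold pol
      rw [lin_pm, lin_pm, h1.1]
    have e3 := LinearMap.congr_fun e2 a
    rwa [LinearMap.comp_apply, LinearMap.comp_apply, LinearMap.mulRight_apply,
        LinearMap.mulLeft_apply] at e3
  have e2 : (pol : GA K N →ₗ[K] K[X]).comp (LinearMap.mulLeft K a) =
      (pol : GA K N →ₗ[K] K[X]).comp (LinearMap.mulRight K a) := by
    apply lin_ext
    intro τ
    rw [LinearMap.comp_apply, LinearMap.comp_apply, LinearMap.mulRight_apply,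
      LinearMap.mulLeft_apply]
    exact e1 τ
  have e3 := LinearMap.congr_fun e2 b
  rwa [LinearMap.comp_apply, LinearMap.comp_apply, LinearMap.mulRight_apply,
      LinearMap.mulLeft_apply] at e3

lemma JJ_right {t : K} {s N : ℕ} {y : GA K N} (hy : y ∈ JJ t s N) (z : GA K N) :
    y * z ∈ JJ t s N := by
  rw [mem_JJ] at hy ⊢
  intro w
  rw [mul_assoc]
  exact hy _

lemma JJ_anti {t : K} {s s' N : ℕ} (h : s ≤ s') : JJ t s' N ≤ JJ t s N := by
  intro y hy
  rw [mem_JJ] at hy ⊢
  exact fun z => (pow_dvd_pow _ h).trans (hy z)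

lemma JJ_zero (t : K) (N : ℕ) : JJ t 0 N = ⊤ := by
  rw [eq_top_iff]
  intro y _
  rw [mem_JJ]
  intro z
  rw [pow_zero]
  exact one_dvd _

/-- the polynomials of products with elements of `JJ` -/
lemma aux1 (h2 : S_PTA.{u}) (h5 : S_BLK.{u}) (t : K) (a N : ℕ) (y : GA K N) (hy : y ∈ JJ t a N) :
    ∀ (M : ℕ) (g : GA K (N + M)), (X - C t) ^ a ∣ pol ((blkL y : GA K (N + M)) * g) := by
  intro M
  induction M with
  | zero =>
    intro g
    rw [(h5 K N 0 y y 0).2.2.2]
    exact hy g
  | succ M ih =>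
    intro g
    rw [(h5 K N M y y 0).2.2.1, h2 K t (N + M) (blkL y) g]
    exact dvd_add (ih _) (Dvd.dvd.mul_left (ih _) _)

lemma aux2 (h2 : S_PTA.{u}) (h5 : S_BLK.{u}) (t : K) (J : ∀ N, Submodule K (GA K N))
    (hJ : TIdeal t J) (N : ℕ) : ∀ (M : ℕ) (g : GA K (N + M)), g ∈ J (N + M) →
    ∃ g0 ∈ J N, ∀ (a : ℕ) (y : GA K N), y ∈ JJ t a N →
      (X - C t) ^ (a + 1) ∣ pol ((blkL y : GA K (N + M)) * g) - pol (y * g0) := by
  intro M
  induction M with
  | zero =>
    intro g hg
    refine ⟨g, hg, fun a y _ => ?_⟩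
    rw [(h5 K N 0 y y 0).2.2.2]
    have e : pol (y * g) - pol (y * g) = (0 : K[X]) := sub_self _
    rw [e]
    exact dvd_zero _
  | succ M ih =>
    intro g hg
    obtain ⟨g0, hg0, h0⟩ := ih (ptr t g) (hJ.tr hg)
    refine ⟨g0, hg0, fun a y hy => ?_⟩
    rw [(h5 K N M y y 0).2.2.1, h2 K t (N + M) (blkL y) g]
    have e : pol ((blkL y : GA K (N + M)) * ptr t g) + (X - C t) *
        pol ((blkL y : GA K (N + M)) * cex g) - pol (y * g0) =
        (pol ((blkL y : GA K (N + M)) * ptr t g) - pol (y * g0)) + (X - C t) *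
        pol ((blkL y : GA K (N + M)) * cex g) := by ring
    rw [e]
    refine dvd_add (h0 a y hy) ?_
    rw [pow_succ']
    exact mul_dvd_mul_left _ (aux1 h2 h5 t a N y hy M _)

end TIm

open TIm in
theorem t_TI (_h1 : S_CYC) (h2 : S_PTA.{u}) (_h3 : S_PTM.{u}) (h4 : S_SHF.{u}) (h5 : S_BLK.{u}) :
    S_TI.{u} := by
  intro K _ _ t J hJ s₀ hs₀ hprime
  classical
  have hne : ∀ s, (∀ N, J N = JJ t s N) → 1 ≤ s := by
    intro s hs
    by_contra hcon
    have h0 : s = 0 := by omega
    subst h0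
    have h3 := hs 0
    rw [hJ.zero, JJ_zero] at h3
    exact bot_ne_top h3
  -- the largest `s`
  obtain ⟨s, hs, hsJ, hmax⟩ : ∃ s, s ≤ s₀ ∧ (∀ N, J N ≤ JJ t s N) ∧
      ∀ s', s < s' → s' ≤ s₀ → ¬ ∀ N, J N ≤ JJ t s' N := by
    have hP : ∃ s, s ≤ s₀ ∧ ∀ N, J N ≤ JJ t s N := ⟨0, Nat.zero_le _, fun N => by
      rw [JJ_zero]; exact le_top⟩
    refine ⟨Nat.findGreatest (fun s => ∀ N, J N ≤ JJ t s N) s₀, Nat.findGreatest_le _, ?_, ?_⟩
    · exact Nat.findGreatest_spec (P := fun s => ∀ N, J N ≤ JJ t s N) (Nat.zero_le s₀)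
        (fun N => by rw [JJ_zero]; exact le_top)
    · intro s' h h'
      exact Nat.findGreatest_is_greatest h h'
  have hfin : ∀ N, JJ t s N ≤ J N := by
    rcases Nat.eq_or_lt_of_le hs with h | h
    · rw [h]; exact hs₀
    · -- an element of `J` not in `JJ t (s + 1)`
      have h6 := hmax (s + 1) (Nat.lt_succ_self s) h
      push Not at h6
      obtain ⟨M, hM⟩ := h6
      rw [SetLike.not_le_iff_exists] at hM
      obtain ⟨f, hf, hf'⟩ := hM
      intro N y hy
      obtain ⟨ε, hεJ, hεε, hε1, hεc⟩ := exists_central (R := GA K N)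
        { carrier := {x | x ∈ J N}
          zero_mem' := (J N).zero_mem
          add_mem' := fun {a b} ha hb => (J N).add_mem ha hb
          smul_mem' := fun c a ha => hJ.mul_left c ha } (fun x hx z => hJ.mul_right z hx)
      have hεJ' : ε ∈ J N := hεJ
      obtain ⟨y2, hy2⟩ : ∃ y2, y2 = y * (1 - ε) := ⟨_, rfl⟩
      have hann : ∀ x ∈ J N, y2 * x = 0 := by
        intro x hx
        rw [hy2, mul_assoc, sub_mul, one_mul, hεc, hε1 x hx, sub_self, mul_zero]
      have hzero : y2 = 0 := by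
        by_contra hy0
        have hy2s : y2 ∈ JJ t s N := by rw [hy2]; exact JJ_right hy _
        -- the largest `a`
        obtain ⟨a, hsa, ha, haJ, hamax⟩ : ∃ a, s ≤ a ∧ a ≤ s₀ ∧ y2 ∈ JJ t a N ∧
            ∀ a', a < a' → a' ≤ s₀ → y2 ∉ JJ t a' N := by
          refine ⟨Nat.findGreatest (fun a => y2 ∈ JJ t a N) s₀, ?_, Nat.findGreatest_le _, ?_, ?_⟩
          · exact Nat.le_findGreatest hs hy2s
          · exact Nat.findGreatest_spec (P := fun a => y2 ∈ JJ t a N) hs hy2s
          · intro a' h h'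
            exact Nat.findGreatest_is_greatest h h'
        have ha' : a < s₀ := by
          rcases Nat.eq_or_lt_of_le ha with h7 | h7
          · exfalso
            apply hy0
            rw [h7] at haJ
            have h8 := hs₀ N haJ
            rw [← hε1 y2 h8]
            exact hann ε hεJ'
          · exact h7
        have hmem : blkL y2 * blkR f ∈ JJ t (a + 1) (N + M) := by
          rw [mem_JJ]
          intro z
          rw [mul_assoc]
          obtain ⟨g0, hg0, hg⟩ := aux2 h2 h5 t J hJ N M (blkR f * z)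
            (hJ.mul_right z (h4 K t J hJ N M f hf))
          have h7 := hg a y2 haJ
          rw [hann g0 hg0, map_zero, sub_zero] at h7
          exact h7
        rcases hprime (a + 1) (by omega) (by omega) N M y2 f hmem with h7 | h7
        · exact hamax (a + 1) (Nat.lt_succ_self a) ha' h7
        · exact hf' (JJ_anti (by omega) h7)
      have h7 : y = y * ε := by
        rw [hy2, mul_sub, mul_one, sub_eq_zero] at hzero
        exact hzero
      rw [h7]
      exact hJ.mul_left y hεJ'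
  have heq : ∀ N, J N = JJ t s N := fun N => le_antisymm (hsJ N) (hfin N)
  exact ⟨s, hne s heq, hs, heq⟩

end Pool.Agent.L0h13.SD
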