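import Pool.Agent.L0h13.SD.Stm

/-!
# The supertraces of signed permutations
-/

set_option autoImplicit false

namespace Pool.Agent.L0h13.SD

universe u

open Polynomial Equiv

namespace TRCm

/-- words fixed by a permutation that fixes the first point -/
lemma fix_zero {r N : ℕ} (e : Perm (Fin N)) (a : Fin r) (w : Fin N → Fin r) :
    ((Fin.cons a w : Fin (N + 1) → Fin r) ∘ (Perm.decomposeFin.symm (0, e) : Perm (Fin (N + 1))) =
      Fin.cons a w) ↔ w ∘ e = w := by
  constructor
  · intro h
    funext i
    have h1 := congrFun h i.succ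
    simp only [Function.comp_apply, Perm.decomposeFin_symm_apply_succ, Equiv.swap_self,
      Equiv.refl_apply, Fin.cons_succ] at h1
    exact h1
  · intro h
    funext i
    refine Fin.cases ?_ (fun i => ?_) i
    · simp [Perm.decomposeFin_symm_apply_zero]
    · simp only [Function.comp_apply, Perm.decomposeFin_symm_apply_succ, Equiv.swap_self,
        Equiv.refl_apply, Fin.cons_succ]
      exact congrFun h i

lemma dec_eq {N : ℕ} (p : Fin (N + 1)) (e : Perm (Fin N)) :
    Perm.decomposeFin.symm (p, e) = swap 0 p * Perm.decomposeFin.symm (0, e) := by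
  ext i
  refine Fin.cases ?_ (fun i => ?_) i
  · simp [Perm.decomposeFin_symm_apply_zero]
  · simp [Perm.decomposeFin_symm_apply_succ]

/-- words fixed by a permutation that moves the first point -/
lemma fix_succ {r N : ℕ} (q : Fin N) (e : Perm (Fin N)) (a : Fin r) (w : Fin N → Fin r) :
    ((Fin.cons a w : Fin (N + 1) → Fin r) ∘
      (Perm.decomposeFin.symm (q.succ, e) : Perm (Fin (N + 1))) = Fin.cons a w) ↔
      (a = w q ∧ w ∘ e = w) := by
  have hs : a = w q → (Fin.cons a w : Fin (N + 1) → Fin r) ∘ (swap 0 q.succ : Perm (Fin (N + 1))) =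
      Fin.cons a w := by
    intro h
    funext i
    simp only [Function.comp_apply]
    rcases Equiv.swap_apply_def (0 : Fin (N + 1)) q.succ i with h1
    rw [h1]
    split_ifs with h2 h3
    · rw [h2, Fin.cons_succ, Fin.cons_zero, h]
    · rw [h3, Fin.cons_succ, Fin.cons_zero, h]
    · rfl
  constructor
  · intro h
    have h0 : a = w q := by
      have h1 := congrFun h 0
      simp only [Function.comp_apply, Perm.decomposeFin_symm_apply_zero, Fin.cons_succ,
        Fin.cons_zero] at h1
      exact h1.symm
    refine ⟨h0, ?_⟩
    rw [dec_eq] at h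
    rw [← fix_zero e a w]
    have h2 : (Fin.cons a w : Fin (N + 1) → Fin r) ∘
        (swap 0 q.succ * Perm.decomposeFin.symm (0, e) : Perm (Fin (N + 1))) =
        ((Fin.cons a w : Fin (N + 1) → Fin r) ∘ (swap 0 q.succ : Perm (Fin (N + 1)))) ∘
          (Perm.decomposeFin.symm (0, e) : Perm (Fin (N + 1))) := rfl
    rw [h2, hs h0] at h
    exact h
  · rintro ⟨h0, h⟩
    rw [dec_eq]
    have h2 : (Fin.cons a w : Fin (N + 1) → Fin r) ∘
        (swap 0 q.succ * Perm.decomposeFin.symm (0, e) : Perm (Fin (N + 1))) =
        ((Fin.cons a w : Fin (N + 1) → Fin r) ∘ (swap 0 q.succ : Perm (Fin (N + 1)))) ∘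
          (Perm.decomposeFin.symm (0, e) : Perm (Fin (N + 1))) := rfl
    rw [h2, hs h0]
    exact (fix_zero e a w).mpr h

lemma sum_cons {r N : ℕ} {M : Type*} [AddCommMonoid M] (f : (Fin (N + 1) → Fin r) → M) :
    ∑ w, f w = ∑ a : Fin r, ∑ w : Fin N → Fin r, f (Fin.cons a w) := by
  rw [← Fintype.sum_prod_type']
  exact (Fintype.sum_equiv (Fin.consEquiv (fun _ : Fin (N + 1) => Fin r)) _ _ (fun x => rfl)).symm

end TRCm

open TRCm in
theorem t_TRC (h1 : S_EPS) (h2 : S_SWP) (h3 : S_RES) : S_TRC.{u} := by
  intro K _ m r N
  induction N with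
  | zero =>
    intro σ l D
    have hw : ∀ w : Fin 0 → Fin r, w ∘ σ = w := fun w => Subsingleton.elim _ _
    have he : ∀ w : Fin 0 → Fin r, eps m σ w = 1 := fun w => by unfold eps; simp
    simp only [hw, he, if_true]
    simp [cmon]
  | succ N ih =>
    intro σ l D
    obtain ⟨⟨p, e⟩, rfl⟩ := Perm.decomposeFin.symm.surjective σ
    unfold cmon
    rw [Equiv.apply_symm_apply]
    simp only
    rw [sum_cons]
    refine Fin.cases ?_ (fun q => ?_) p
    · rw [if_pos rfl, map_mul, MvPolynomial.eval_X, ← ih e (fun i => l i.succ) D]
      unfold psum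
      rw [Finset.sum_mul_sum]
      refine Finset.sum_congr rfl fun a _ => Finset.sum_congr rfl fun w _ => ?_
      rw [Fin.prod_univ_succ]
      simp only [Fin.cons_zero, Fin.cons_succ, fix_zero]
      rw [h3.2.1]
      simp only [Fin.cons_succ]
      ring
    · rw [if_neg (Fin.succ_ne_zero q), ← ih e _ D]
      rw [Finset.sum_comm]
      refine Finset.sum_congr rfl fun w _ => ?_
      simp only [fix_succ]
      rw [Finset.sum_eq_single (w q)]
      · by_cases hw : w ∘ e = w
        · rw [if_pos ⟨rfl, hw⟩, if_pos hw]
          have e1 : eps m (Perm.decomposeFin.symm (q.succ, e))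
              (Fin.cons (w q) w : Fin (N + 1) → Fin r) = (-1) ^ par m (w q) * eps m e w := by
            have hfix := (fix_succ q e (w q) w).mpr ⟨rfl, hw⟩
            have hfix0 := (fix_zero e (w q) w).mpr hw
            have hsw : (Fin.cons (w q) w : Fin (N + 1) → Fin r) ∘
                (swap 0 q.succ : Perm (Fin (N + 1))) = Fin.cons (w q) w := by
              rw [dec_eq] at hfix
              have h4 : (Fin.cons (w q) w : Fin (N + 1) → Fin r) ∘
                  (swap 0 q.succ * Perm.decomposeFin.symm (0, e) : Perm (Fin (N + 1))) =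
                  ((Fin.cons (w q) w : Fin (N + 1) → Fin r) ∘
                    (swap 0 q.succ : Perm (Fin (N + 1)))) ∘
                    (Perm.decomposeFin.symm (0, e) : Perm (Fin (N + 1))) := rfl
              rw [h4] at hfix
              have h5 : (Fin.cons (w q) w : Fin (N + 1) → Fin r) ∘
                  (swap 0 q.succ : Perm (Fin (N + 1))) =
                  (Fin.cons (w q) w : Fin (N + 1) → Fin r) ∘
                    ((Perm.decomposeFin.symm (0, e))⁻¹ : Perm (Fin (N + 1))) := by
                conv_rhs => rw [← hfix]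
                funext i
                simp [Function.comp_apply]
              rw [h5]
              conv_lhs => rw [← hfix0]
              funext i
              simp [Function.comp_apply]
            have h6 := h1.1 m r (N + 1) (Perm.decomposeFin.symm (0, e)) (swap 0 q.succ)
              (Fin.cons (w q) w)
            rw [← dec_eq, hfix, hsw] at h6
            rw [h6, h3.2.1, h2 m r (N + 1) 0 q.succ _ (Fin.succ_ne_zero q).symm (by simp)]
            simp only [Fin.cons_zero, Fin.cons_succ]
          rw [e1, Fin.prod_univ_succ]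
          simp only [Fin.cons_zero, Fin.cons_succ, Fin.succ_inj]
          push_cast
          have e2 : (∏ i, ((-1 : K) ^ par m (w i) *
              D (w i) ^ ((if i = q then l i.succ + l 0 + 1 else l i.succ) + 1))) =
              D (w q) ^ (l 0 + 1) * ∏ i : Fin N, ((-1 : K) ^ par m (w i) *
                D (w i) ^ (l i.succ + 1)) := by
            have e3 : D (w q) ^ (l 0 + 1) = ∏ i : Fin N, if i = q then D (w q) ^ (l 0 + 1) else 1 := by
              rw [Finset.prod_ite_eq', if_pos (Finset.mem_univ q)]
            rw [e3, ← Finset.prod_mul_distrib]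
            refine Finset.prod_congr rfl fun i _ => ?_
            by_cases hi : i = q
            · subst hi
              rw [if_pos rfl, if_pos rfl]
              ring
            · rw [if_neg hi, if_neg hi, one_mul]
          rw [e2]
          have e4 : ((-1 : K) ^ par m (w q)) * ((-1 : K) ^ par m (w q)) = 1 := by
            rw [← mul_pow]; simp
          linear_combination (D (w q) ^ (l 0 + 1) * (∏ i : Fin N, ((-1 : K) ^ par m (w i) *
                D (w i) ^ (l i.succ + 1))) * (eps m e w : K)) * e4
        · rw [if_neg (fun h => hw h.2), if_neg hw, mul_zero, mul_zero]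
      · intro a _ ha
        rw [if_neg (fun h => ha h.1), mul_zero]
      · intro h
        exact absurd (Finset.mem_univ _) h

end Pool.Agent.L0h13.SD
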