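import Pool.Agent.L0h13.SD.Stm

/-!
# Module XHW: the sum of the transpositions `(0 p)` on a highest weight vector
-/

set_option autoImplicit false

namespace Pool.Agent.L0h13.SD

universe u

open Polynomial Equiv

namespace XHWm

variable {K : Type u} [Field K] {m r N : ℕ}

lemma par_sq (a : Fin r) : par m a * par m a = par m a := by
  unfold par; split_ifs <;> rfl

lemma pow_double (k : ℕ) : (-1 : K) ^ (k + k) = 1 := by
  rw [← two_mul, pow_mul]; norm_num

/-- the number of odd letters before `p` -/
def pre (m : ℕ) {r N : ℕ} (v : Fin N → Fin r) (p : Fin N) : ℕ :=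
  ∑ l : Fin N, if l < p then par m (v l) else 0

lemma pre_zero (v : Fin (N + 1) → Fin r) : pre m v 0 = 0 := by
  unfold pre
  refine Finset.sum_eq_zero fun l _ => ?_
  rw [if_neg (Fin.not_lt_zero l)]

lemma pre_cons (c : Fin r) (v : Fin N → Fin r) (p : Fin N) :
    pre m (Fin.cons c v : Fin (N + 1) → Fin r) p.succ = par m c + pre m v p := by
  unfold pre
  rw [Fin.sum_univ_succ, if_pos (Fin.succ_pos p), Fin.cons_zero]
  congr 1
  refine Finset.sum_congr rfl fun l _ => ?_
  rw [Fin.cons_succ]
  by_cases hl : l < p
  · rw [if_pos hl, if_pos (Fin.succ_lt_succ_iff.2 hl)]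
  · rw [if_neg hl, if_neg (fun h => hl (Fin.succ_lt_succ_iff.1 h))]

lemma rep_apply (a b : Fin r) (F : (Fin N → Fin r) → K) (w : Fin N → Fin r) :
    rep K m a b F w = ∑ j : Fin N, if w j = a then
      (-1 : K) ^ ((par m a + par m b) * pre m w j) * F (Function.update w j b) else 0 := rfl

lemma rep_cons (F : (Fin (N + 1) → Fin r) → K) (a b c : Fin r) (v : Fin N → Fin r) :
    rep K m a b F (Fin.cons c v) = (if c = a then F (Fin.cons b v) else 0) +
      ∑ p : Fin N, if v p = a then
        (-1 : K) ^ ((par m a + par m b) * (par m c + pre m v p)) *
        F (Fin.cons c (Function.update v p b)) else 0 := by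
  rw [rep_apply, Fin.sum_univ_succ]
  congr 1
  · rw [Fin.cons_zero, pre_zero, mul_zero, pow_zero, one_mul, Fin.update_cons_zero]
  · refine Finset.sum_congr rfl fun p _ => ?_
    rw [Fin.cons_succ, pre_cons, Fin.cons_update]

lemma cons_swap (c : Fin r) (v : Fin N → Fin r) (p : Fin N) :
    (Fin.cons c v : Fin (N + 1) → Fin r) ∘ (swap 0 p.succ : Perm (Fin (N + 1))) =
      Fin.cons (v p) (Function.update v p c) := by
  funext i
  refine Fin.cases ?_ (fun l => ?_) i
  · rw [Function.comp_apply, swap_apply_left, Fin.cons_zero, Fin.cons_succ]
  · rw [Function.comp_apply, Fin.cons_succ]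
    by_cases hl : l = p
    · subst hl
      rw [swap_apply_right, Fin.cons_zero, Function.update_self]
    · rw [swap_apply_of_ne_of_ne (Fin.succ_ne_zero l) (fun h => hl (Fin.succ_injective _ h)),
        Fin.cons_succ, Function.update_of_ne hl]

lemma act_swap (h : S_SWO) (F : (Fin (N + 1) → Fin r) → K) (c : Fin r) (v : Fin N → Fin r)
    (p : Fin N) : act K m (swap 0 p.succ) F (Fin.cons c v) =
      (-1 : K) ^ (par m (v p) * par m c + (par m (v p) + par m c) * pre m v p) *
        F (Fin.cons (v p) (Function.update v p c)) := by
  show ((eps m (swap 0 p.succ) ((Fin.cons c v : Fin (N + 1) → Fin r) ∘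
    (swap 0 p.succ : Perm (Fin (N + 1)))) : ℤ) : K) * F ((Fin.cons c v : Fin (N + 1) → Fin r) ∘
    (swap 0 p.succ : Perm (Fin (N + 1)))) = _
  rw [cons_swap, h m r N p]
  have e : (∑ l : Fin N, if l < p then
      par m ((Fin.cons (v p) (Function.update v p c) : Fin (N + 1) → Fin r) l.succ) else 0) =
      pre m v p := by
    unfold pre
    refine Finset.sum_congr rfl fun l _ => ?_
    by_cases hl : l < p
    · rw [if_pos hl, if_pos hl, Fin.cons_succ, Function.update_of_ne hl.ne]
    · rw [if_neg hl, if_neg hl]
  rw [e, Fin.cons_zero, Fin.cons_succ, Function.update_self]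
  push_cast
  rfl

end XHWm

open XHWm

theorem t_XHW (h : S_SWO) : S_XHW.{u} := by
  intro K _ m r N F μ c hμ hrep hc
  constructor
  · intro v
    set T : Fin N → K := fun p => act K m (swap 0 p.succ) F (Fin.cons c v) with hT
    have hTv : ∀ p, T p = (-1 : K) ^ (par m (v p) * par m c + (par m (v p) + par m c) * pre m v p) *
        F (Fin.cons (v p) (Function.update v p c)) := fun p => act_swap h F c v p
    have hsplit : (∑ p : Fin N, T p) = ∑ a : Fin r, ∑ p : Fin N, if v p = a then T p else 0 := by
      rw [Finset.sum_comm]
      refine Finset.sum_congr rfl fun p _ => ?_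
      rw [Finset.sum_ite_eq, if_pos (Finset.mem_univ _)]
    have hG : ∀ a : Fin r, (∑ p : Fin N, if v p = a then T p else 0) =
        (if a < c then -((-1 : K) ^ par m a) * F (Fin.cons c v) else 0) +
        (if a = c then (-1 : K) ^ par m c * ((μ c : K) - 1) * F (Fin.cons c v) else 0) := by
      intro a
      rcases lt_trichotomy a c with hac | hac | hac
      · rw [if_pos hac, if_neg hac.ne, add_zero]
        have h1 := congrFun (hrep a c hac) (Fin.cons a v)
        rw [rep_cons, if_pos rfl] at h1
        have h2 : (∑ p : Fin N, if v p = a then
            (-1 : K) ^ ((par m a + par m c) * (par m a + pre m v p)) *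
            F (Fin.cons a (Function.update v p c)) else 0) = - F (Fin.cons c v) :=
          eq_neg_of_add_eq_zero_right h1
        have h3 : (∑ p : Fin N, if v p = a then T p else 0) = (-1 : K) ^ par m a *
            ∑ p : Fin N, if v p = a then
            (-1 : K) ^ ((par m a + par m c) * (par m a + pre m v p)) *
            F (Fin.cons a (Function.update v p c)) else 0 := by
          rw [Finset.mul_sum]
          refine Finset.sum_congr rfl fun p _ => ?_
          by_cases hv : v p = a
          · rw [if_pos hv, if_pos hv, hTv p, hv, ← mul_assoc, ← pow_add]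
            congr 1
            have e : par m a + (par m a + par m c) * (par m a + pre m v p) =
                (par m a * par m c + (par m a + par m c) * pre m v p) + (par m a + par m a) := by
              have := par_sq (m := m) a
              calc _ = par m a + (par m a * par m a + par m c * par m a +
                  (par m a + par m c) * pre m v p) := by ring
                _ = _ := by rw [this]; ring
            rw [e, pow_add _ _ (par m a + par m a), pow_double, mul_one]
          · rw [if_neg hv, if_neg hv, mul_zero]
        rw [h3, h2]
        ring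
      · subst hac
        rw [if_neg (lt_irrefl _), if_pos rfl, zero_add]
        have h3 : ∀ p : Fin N, (if v p = a then T p else 0) =
            if v p = a then (-1 : K) ^ par m a * F (Fin.cons a v) else 0 := by
          intro p
          by_cases hv : v p = a
          · rw [if_pos hv, if_pos hv, hTv p]
            have e1 : Function.update v p a = v := by
              rw [← hv]; exact Function.update_eq_self p v
            rw [hv, e1]
            congr 1
            have e : par m a * par m a + (par m a + par m a) * pre m v p =
                par m a + (par m a * pre m v p + par m a * pre m v p) := by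
              rw [par_sq]; ring
            rw [e, pow_add, pow_double, mul_one]
          · rw [if_neg hv, if_neg hv]
        rw [Finset.sum_congr rfl fun p _ => h3 p, ← Finset.sum_filter, Finset.sum_const,
          nsmul_eq_mul]
        by_cases hF : F (Fin.cons a v) = 0
        · rw [hF]; ring
        · have e2 : μ a = (Finset.univ.filter fun p => v p = a).card + 1 := by
            rw [← hμ _ hF]
            unfold cnt
            rw [Fin.card_filter_univ_succ]
            simp only [Fin.cons_zero, Fin.cons_succ, if_true]
          rw [e2]
          push_cast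
          ring
      · rw [if_neg hac.not_gt, if_neg hac.ne', add_zero]
        refine Finset.sum_eq_zero fun p _ => ?_
        by_cases hv : v p = a
        · rw [if_pos hv, hTv p, hv, hc a _ hac, mul_zero]
        · rw [if_neg hv]
    rw [hsplit, Finset.sum_congr rfl fun a _ => hG a, Finset.sum_add_distrib, Finset.sum_ite_eq',
      if_pos (Finset.mem_univ _), sub_mul, Finset.sum_mul]
    have e : (∑ a : Fin r, if a < c then -((-1 : K) ^ par m a) * F (Fin.cons c v) else 0) =
        -∑ a : Fin r, (if a < c then (-1 : K) ^ par m a else 0) * F (Fin.cons c v) := by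
      rw [← Finset.sum_neg_distrib]
      refine Finset.sum_congr rfl fun a _ => ?_
      by_cases ha : a < c
      · rw [if_pos ha, if_pos ha, neg_mul]
      · rw [if_neg ha, if_neg ha, zero_mul, neg_zero]
    rw [e]
    ring
  · intro a b hab
    funext v
    have h1 := congrFun (hrep a b hab) (Fin.cons c v)
    rw [rep_cons] at h1
    have h0 : (if c = a then F (Fin.cons b v) else 0) = 0 := by
      by_cases hca : c = a
      · rw [if_pos hca]
        exact hc b v (hca ▸ hab)
      · rw [if_neg hca]
    rw [h0, zero_add] at h1
    have h2 : (∑ p : Fin N, if v p = a then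
        (-1 : K) ^ ((par m a + par m b) * (par m c + pre m v p)) *
        F (Fin.cons c (Function.update v p b)) else 0) =
        (-1 : K) ^ ((par m a + par m b) * par m c) *
          rep K m a b (fun v : Fin N → Fin r => F (Fin.cons c v)) v := by
      rw [rep_apply, Finset.mul_sum]
      refine Finset.sum_congr rfl fun p _ => ?_
      by_cases hv : v p = a
      · rw [if_pos hv, if_pos hv, ← mul_assoc, ← pow_add, mul_add]
      · rw [if_neg hv, if_neg hv, mul_zero]
    rw [h2] at h1
    have h3 : (-1 : K) ^ ((par m a + par m b) * par m c) ≠ 0 :=
      pow_ne_zero _ (neg_ne_zero.2 one_ne_zero)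
    exact (mul_eq_zero.1 h1).resolve_left h3

end Pool.Agent.L0h13.SD
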