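import Pool.Agent.L0h13.SD.Stm

/-!
# Module XOP of the project SD
-/

set_option autoImplicit false

namespace Pool.Agent.L0h13.SD

universe u

open Polynomial Equiv

theorem t_XOP (h1 : S_EPS) (h3 : S_RES) : S_XOP := by
  intro K _ m r N F c w x H
  have hmul : ∀ (n : ℕ) (σ τ : Perm (Fin n)) (G : (Fin n → Fin r) → K) (v : Fin n → Fin r),
      act K m (σ * τ) G v = (eps m σ (v ∘ σ) : K) * act K m τ G (v ∘ σ) := by
    intro n σ τ G v
    change (eps m (σ * τ) (v ∘ (σ * τ : Perm (Fin n))) : K) * G (v ∘ (σ * τ : Perm (Fin n))) =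
      (eps m σ (v ∘ σ) : K) * ((eps m τ ((v ∘ σ) ∘ τ) : K) * G ((v ∘ σ) ∘ τ))
    rw [h1.1 m r n τ σ v]
    push_cast
    rw [mul_assoc]
    rfl
  have hup : ∀ (e : Perm (Fin N)), (Perm.decomposeFin.symm (0, e))⁻¹ =
      Perm.decomposeFin.symm (0, e⁻¹) := by
    intro e
    rw [inv_eq_iff_mul_eq_one]
    ext i
    refine Fin.cases ?_ (fun j => ?_) i
    · simp
    · simp
  have hdec : ∀ (p : Fin (N + 1)) (e : Perm (Fin N)), Perm.decomposeFin.symm (p, e) =
      swap 0 p * Perm.decomposeFin.symm (0, e) := by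
    intro p e
    ext i
    refine Fin.cases ?_ (fun j => ?_) i
    · simp
    · simp
  have hcons : ∀ (e : Perm (Fin N)) (v : Fin N → Fin r),
      (Fin.cons c v : Fin (N + 1) → Fin r) ∘ (Perm.decomposeFin.symm (0, e)) = Fin.cons c (v ∘ e) := by
    intro e v
    funext i
    refine Fin.cases ?_ (fun j => ?_) i
    · simp
    · simp
  have hone : ∀ (G : (Fin (N + 1) → Fin r) → K) (v : Fin (N + 1) → Fin r), act K m 1 G v = G v := by
    intro G v
    change (eps m 1 (v ∘ (1 : Perm (Fin (N + 1)))) : K) * G (v ∘ (1 : Perm (Fin (N + 1)))) = G v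
    rw [h1.2 m r (N + 1)]
    simp
  have hterm : ∀ (p : Fin (N + 1)) (e : Perm (Fin N)),
      act K m (Perm.decomposeFin.symm (p, e))⁻¹ F (Fin.cons c w) =
        (eps m e⁻¹ (w ∘ (e⁻¹ : Perm (Fin N))) : K) *
          act K m (swap 0 p) F (Fin.cons c (w ∘ (e⁻¹ : Perm (Fin N)))) := by
    intro p e
    rw [hdec, mul_inv_rev, hup, swap_inv, hmul, hcons, h3.2.1 m r N]
    rfl
  have hcyc : ∀ (p : Fin (N + 1)) (e : Perm (Fin N)),
      cyc (Perm.decomposeFin.symm (p, e)) = cyc e + if p = 0 then 1 else 0 := by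
    intro p e
    rw [cyc, Equiv.apply_symm_apply]
  unfold phi
  rw [← Perm.decomposeFin.symm.sum_comp, Fintype.sum_prod_type_right, Finset.mul_sum]
  refine Finset.sum_congr rfl fun e _ => ?_
  rw [Fin.sum_univ_succ]
  simp only [hterm, hcyc, if_true]
  rw [swap_self]
  have hre : act K m (Equiv.refl (Fin (N + 1))) F = act K m 1 F := rfl
  rw [hre, hone]
  have h5 : ∀ p : Fin N, (if (p.succ : Fin (N + 1)) = 0 then 1 else 0) = 0 := fun p =>
    if_neg (Fin.succ_ne_zero p)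
  simp only [h5, add_zero]
  rw [← Finset.sum_mul, ← map_sum, ← Finset.mul_sum, H]
  change _ = (X + C x) * (C ((eps m e⁻¹ (w ∘ (e⁻¹ : Perm (Fin N))) : K) *
    F (Fin.cons c (w ∘ (e⁻¹ : Perm (Fin N))))) * X ^ cyc e)
  simp only [map_mul]
  ring

end Pool.Agent.L0h13.SD
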