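import Pool.Agent.L0h13.SD.BLK
import Pool.Agent.L0h13.SD.BRL
import Pool.Agent.L0h13.SD.BRR
import Pool.Agent.L0h13.SD.CMP
import Pool.Agent.L0h13.SD.CYC
import Pool.Agent.L0h13.SD.DEL
import Pool.Agent.L0h13.SD.DPM
import Pool.Agent.L0h13.SD.HWV
import Pool.Agent.L0h13.SD.MVP
import Pool.Agent.L0h13.SD.OPM
import Pool.Agent.L0h13.SD.PRM
import Pool.Agent.L0h13.SD.PTA
import Pool.Agent.L0h13.SD.PTM
import Pool.Agent.L0h13.SD.REP
import Pool.Agent.L0h13.SD.SHF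
import Pool.Agent.L0h13.SD.TI
import Pool.Agent.L0h13.SD.TRC
import Pool.Agent.L0h13.SD.XHW
import Pool.Agent.L0h13.SD.XOP
import Pool.Agent.L0h56.SD.EPS

/-!
# The classification of the tensor ideals
-/

set_option autoImplicit false

namespace Pool.Agent.L0h13.SD

universe u

open Pool.Agent.L0h56.SD

theorem hEPS : S_EPS := t_EPS
theorem hSWP : S_SWP := t_SWP
theorem hRES : S_RES := t_RES
theorem hADJ : S_ADJ := t_ADJ
theorem hBRL : S_BRL.{u} :=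
  t_BRL t_EPS (t_REP t_EPS t_ADJ) (t_HWV (t_XOP t_EPS t_RES) (t_XHW t_SWO)) t_DPM
theorem hBRR : S_BRR.{u} := t_BRR t_EPS (t_TRC t_EPS t_SWP t_RES) t_CMP t_MVP
theorem hPRM : S_PRM.{u} := t_PRM t_RES
theorem hOPM : S_OPM.{u} := t_OPM t_EPS
theorem hTI : S_TI.{u} := t_TI t_CYC (t_PTA t_CYC t_DEL) (t_PTM t_DEL) t_SHF t_BLK

end Pool.Agent.L0h13.SD
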