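import Pool.Agent.L0h13.SD.GeoD
import Pool.Agent.L0h13.SD.All

/-!
# The growth rate of numerical motives is an integer
-/

set_option autoImplicit false

open CategoryTheory AlgebraicGeometry Module

universe u v w

namespace Pool.Agent.L0h13.SD

open Pool.Agent.H914 VarClass Obj WeilCohomology Pool.Agent.N190.CB Pool.Agent.N103.OC
  Pool.Agent.H447 Pool.Agent.N536.SG Pool.Agent.N536.HK Pool.Agent.L0h13.GP

variable {k : Type u} [Field k] {𝒱 : VarClass k} {ops : CycleOps 𝒱}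

/-- `∑ a_σ σ` acts as zero on the `N`-th tensor power of the super vector space `K^(m|n)`. -/
def ActsAsZero (K : Type*) [Field K] (m n : ℕ) {N : ℕ} (a : Equiv.Perm (Fin N) → K) : Prop :=
  ∑ σ, a σ • act K m (r := m + n) σ = 0

/-- `∑ a_σ σ` is numerically trivial as a combination of self-correspondences of `X^(N + 1)`. -/
def NumTrivialPerm (W : WeilCohomology.{u, v} ops) (X : 𝒱.Obj) {N : ℕ}
    (a : Equiv.Perm (Fin (N + 1)) → W.K) : Prop :=
  NumTrivialOp W (Y133.Half.pw X N) (∑ σ, a σ • Y133.Half.rho W X N σ)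

/-- The numerically trivial combinations of permutations of the factors of the powers of `X` are those
which act as zero on the tensor powers of `K^(m|n)`, where `m + n = β`, and `m` is the dimension of the
even and `n` the dimension of the odd cohomology of `X`, both diminished by the same number. -/
def PermLaw (W : WeilCohomology.{u, v} ops) (X : 𝒱.Obj) (β : ℕ) : Prop :=
  ∃ d m n : ℕ, evenDim W X = m + d ∧ oddDim W X = n + d ∧ m + n = β ∧
    ∀ (N : ℕ) (a : Equiv.Perm (Fin (N + 1)) → W.K), NumTrivialPerm W X a ↔ ActsAsZero W.K m n a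

/-- The numerical ranks grow like `β^(2N)`. -/
def RankGrowth (ops : CycleOps 𝒱) (X : 𝒱.Obj) (β : ℕ) : Prop :=
  ∃ d : ℕ, ∀ N ≥ 1, β ^ (2 * N) ≤ (N + 1) ^ d * midRank ops (pw X N) ∧
    midRank ops (pw X N) ≤ (N + 1) ^ d * β ^ (2 * N)

section real

open Filter Topology

lemma le_of_poly_exp {b b' C d : ℕ} (h : ∀ n ≥ 1, b ^ (2 * n) ≤ C * (n + 1) ^ d * b' ^ (2 * n)) :
    b ≤ b' := by
  by_contra hlt
  push Not at hlt
  have hb : (0 : ℝ) < b := by
    have : 0 < b := by omega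
    exact_mod_cast this
  rcases Nat.eq_zero_or_pos b' with h0 | h0
  · have h1 := h 1 le_rfl
    rw [h0] at h1
    simp at h1
    omega
  · have hb' : (0 : ℝ) < b' := by exact_mod_cast h0
    have hθ1 : (b' : ℝ) / b < 1 := by
      rw [div_lt_one hb]
      exact_mod_cast hlt
    obtain ⟨n, hn, hn'⟩ := poly_exp (div_pos hb' hb) hθ1 C d
    have h1 := h n hn
    have h2 : (b : ℝ) ^ (2 * n) ≤ C * ((n + 1 : ℕ) : ℝ) ^ d * (b' : ℝ) ^ (2 * n) := by
      exact_mod_cast h1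
    rw [div_pow, ← mul_div_assoc, div_lt_one (by positivity)] at hn'
    exact absurd (lt_of_le_of_lt h2 hn') (lt_irrefl _)

end real

lemma RankGrowth.unique {X : 𝒱.Obj} {β β' : ℕ} (h : RankGrowth ops X β)
    (h' : RankGrowth ops X β') : β ≤ β' := by
  obtain ⟨d, h⟩ := h
  obtain ⟨d', h'⟩ := h'
  apply le_of_poly_exp (C := 1) (d := d + d')
  intro n hn
  calc β ^ (2 * n) ≤ (n + 1) ^ d * midRank ops (pw X n) := (h n hn).1
    _ ≤ (n + 1) ^ d * ((n + 1) ^ d' * β' ^ (2 * n)) := Nat.mul_le_mul_left _ (h' n hn).2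
    _ = 1 * (n + 1) ^ (d + d') * β' ^ (2 * n) := by rw [pow_add]; ring

variable {W : WeilCohomology.{u, v} ops} {X Y Z : 𝒱.Obj}

lemma op_sum {K : Type*} [Field K] {m r N : ℕ} (a : Equiv.Perm (Fin N) → K) :
    op K m r (∑ σ, a σ • pm K σ) = ∑ σ, a σ • act K m (r := r) σ := by
  rw [map_sum]
  exact Finset.sum_congr rfl fun σ _ => by rw [map_smul, op, lin_pm]

lemma opW_sum {N : ℕ} (a : Equiv.Perm (Fin (N + 1)) → W.K) :
    opW W X N (∑ σ, a σ • pm W.K σ) = ∑ σ, a σ • Y133.Half.rho W X N σ := by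
  rw [map_sum]
  exact Finset.sum_congr rfl fun σ _ => by rw [map_smul, opW_pm]

lemma numTrivialPerm_iff {N : ℕ} (a : Equiv.Perm (Fin (N + 1)) → W.K) :
    NumTrivialPerm W X a ↔ (∑ σ, a σ • pm W.K σ) ∈ JW W X (N + 1) := by
  rw [NumTrivialPerm, numTrivialOp_iff, mem_JW, opW_sum]

/-- The bounds for one Weil cohomology theory. -/
theorem exists_rate (W : WeilCohomology.{u, v} ops) (X : 𝒱.Obj) :
    ∃ β, PermLaw W X β ∧ ∀ N ≥ 1,
      β ^ (2 * N) ≤ (N + 1) ^ (β ^ 2) * midRank ops (pw X N) ∧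
      nonNeg W (pw X N) ^ 2 ≤ (N + 1) ^ (cohDim W X ^ 2) * β ^ (2 * N) := by
  obtain ⟨m, n, e, he⟩ := exists_pbasis W X
  obtain ⟨h1, h2, h3⟩ := even_odd_of_basis e he
  obtain ⟨d, hd, h⟩ := exists_super hEPS hADJ hSWP hRES hBRL hBRR hPRM hTI e he
  refine ⟨(m - d) + (n - d), ⟨d, m - d, n - d, by omega, by omega, rfl, fun N a => ?_⟩,
    fun N hN => ?_⟩
  · rw [numTrivialPerm_iff, h (N + 1), op_sum]
    exact Iff.rfl
  · obtain ⟨N, rfl⟩ := Nat.exists_eq_add_of_le' hN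
    have h4 := growth_bounds hEPS (m - d) ((m - d) + (n - d)) N (h (N + 1))
    rw [← pow_mul, mul_comm (N + 1) 2] at h4
    exact h4

lemma midRank_le (W : WeilCohomology.{u, v} ops) (X : 𝒱.Obj) {N : ℕ} (hN : 1 ≤ N) :
    midRank ops (pw X N) ≤ nonNeg W (pw X N) ^ 2 := by
  have h := powerBounds W X N hN
  exact h.1.trans (h.2.1.trans h.2.2.1)

lemma rankGrowth_of {β : ℕ} (h : ∀ N ≥ 1,
      β ^ (2 * N) ≤ (N + 1) ^ (β ^ 2) * midRank ops (pw X N) ∧
      nonNeg W (pw X N) ^ 2 ≤ (N + 1) ^ (cohDim W X ^ 2) * β ^ (2 * N)) : RankGrowth ops X β := by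
  refine ⟨β ^ 2 + cohDim W X ^ 2, fun N hN => ⟨?_, ?_⟩⟩
  · refine (h N hN).1.trans (Nat.mul_le_mul_right _ ?_)
    exact Nat.pow_le_pow_right (by omega) (by omega)
  · refine (midRank_le W X hN).trans ((h N hN).2.trans (Nat.mul_le_mul_right _ ?_))
    exact Nat.pow_le_pow_right (by omega) (by omega)

lemma nil_of_zero (h : cohDim W X = 0) : NilOnPowers W X := by
  intro n hn φ _
  obtain ⟨n, rfl⟩ := Nat.exists_eq_add_of_le' hn
  have h1 : cohDim W (pw X (n + 1)) = 0 := by rw [cohDim_pw, h, zero_pow (by omega)]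
  have h2 : Subsingleton (W.H (pw X (n + 1))) := Module.finrank_zero_iff.1 h1
  refine ⟨1, ?_⟩
  rw [pow_one]
  apply LinearMap.ext
  intro x
  exact Subsingleton.elim _ _

/-- Nilpotence and the growth rate. -/
theorem nil_iff_rate {β : ℕ} (hle : β ≤ cohDim W X) (h : ∀ N ≥ 1,
      β ^ (2 * N) ≤ (N + 1) ^ (β ^ 2) * midRank ops (pw X N) ∧
      nonNeg W (pw X N) ^ 2 ≤ (N + 1) ^ (cohDim W X ^ 2) * β ^ (2 * N)) :
    NilOnPowers W X ↔ β = cohDim W X := by
  constructor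
  · intro hn
    refine le_antisymm hle ?_
    apply le_of_poly_exp (C := 1) (d := cohDim W X ^ 2 + cohDim W X ^ 2)
    intro n hn'
    have h1 := large_of_nil hn n hn'
    calc cohDim W X ^ (2 * n) ≤ (n + 1) ^ (cohDim W X ^ 2) * midRank ops (pw X n) := h1
      _ ≤ (n + 1) ^ (cohDim W X ^ 2) * ((n + 1) ^ (cohDim W X ^ 2) * β ^ (2 * n)) :=
          Nat.mul_le_mul_left _ ((midRank_le W X hn').trans (h n hn').2)
      _ = _ := by rw [pow_add]; ring
  · intro hβ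
    rcases Nat.eq_zero_or_pos (cohDim W X) with h0 | h0
    · exact nil_of_zero h0
    · rw [(nilIffLarge W X h0).1]
      intro n hn
      have h1 := (h n hn).1
      rw [hβ] at h1
      exact h1

/-- The alternatives for the sign conjecture: it is true; or it is false, the growth rate is `b(X)` and
`c` is at most about one half of `b^n` for one of any two successive powers; or it is false, the
growth rate is at most `b(X) - 2`, and `c(X^N)^2 ≤ (N + 1)^(b^2) (b - 2)^(2N)`. -/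
def SignAlternatives (W : WeilCohomology.{u, v} ops) (X : 𝒱.Obj) (β : ℕ) : Prop :=
  (SignStd W X ∧ β = cohDim W X ∧ ∀ N ≥ 1, evenOddDim W (pw X N) = cohDim W X ^ N) ∨
  (¬ SignStd W X ∧ β = cohDim W X ∧ ∀ N ≥ 1, HalfAt W X N) ∨
  (¬ SignStd W X ∧ β + 2 ≤ cohDim W X ∧ ∀ N ≥ 1,
    evenOddDim W (pw X N) ^ 2 ≤ (N + 1) ^ (cohDim W X ^ 2) * (cohDim W X - 2) ^ (2 * N))

/-- Everything for one Weil cohomology theory. -/
def RateLaw (W : WeilCohomology.{u, v} ops) (X : 𝒱.Obj) (β : ℕ) : Prop :=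
  PermLaw W X β ∧
  (∀ N ≥ 1, midRank ops (pw X N) ≤ nonNeg W (pw X N) ^ 2 ∧
    nonNeg W (pw X N) ^ 2 ≤ (N + 1) ^ (cohDim W X ^ 2) * β ^ (2 * N)) ∧
  (NilOnPowers W X ↔ β = cohDim W X) ∧
  SignAlternatives W X β

lemma PermLaw.le {β : ℕ} (h : PermLaw W X β) : ∃ d, cohDim W X = β + 2 * d := by
  obtain ⟨m, n, e, he⟩ := exists_pbasis W X
  obtain ⟨h1, h2, h3⟩ := even_odd_of_basis e he
  obtain ⟨d, m', n', h4, h5, h6, -⟩ := h
  exact ⟨d, by omega⟩

theorem rateLaw {β : ℕ} (hP : PermLaw W X β) (h : ∀ N ≥ 1,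
      β ^ (2 * N) ≤ (N + 1) ^ (β ^ 2) * midRank ops (pw X N) ∧
      nonNeg W (pw X N) ^ 2 ≤ (N + 1) ^ (cohDim W X ^ 2) * β ^ (2 * N)) : RateLaw W X β := by
  obtain ⟨d, hd⟩ := hP.le
  have hnil := nil_iff_rate (W := W) (X := X) (by omega) h
  refine ⟨hP, fun N hN => ⟨midRank_le W X hN, (h N hN).2⟩, hnil, ?_⟩
  by_cases hs : SignStd W X
  · exact Or.inl ⟨hs, hnil.1 (nil_of_sign hs), fun N hN => eq_pow_of_sign hs hN⟩
  · right
    by_cases hn : NilOnPowers W X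
    · left
      refine ⟨hs, hnil.1 hn, fun N hN => ?_⟩
      obtain ⟨N, rfl⟩ := Nat.exists_eq_add_of_le' hN
      exact halfAt hs N
    · right
      have h1 : β ≠ cohDim W X := fun h2 => hn (hnil.2 h2)
      refine ⟨hs, by omega, fun N hN => ?_⟩
      calc evenOddDim W (pw X N) ^ 2 ≤ nonNeg W (pw X N) ^ 2 :=
            Nat.pow_le_pow_left (evenOddDim_le_nonNeg W _) 2
        _ ≤ (N + 1) ^ (cohDim W X ^ 2) * β ^ (2 * N) := (h N hN).2
        _ ≤ _ := Nat.mul_le_mul_left _ (Nat.pow_le_pow_left (by omega) _)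

/-- **The growth rate of numerical motives is an integer.** -/
theorem main (W₀ : WeilCohomology.{u, w} ops) (X : 𝒱.Obj) :
    ∃ β : ℕ, (∀ β', RankGrowth ops X β' ↔ β' = β) ∧
      (∀ N ≥ 1, β ^ (2 * N) ≤ (N + 1) ^ (β ^ 2) * midRank ops (pw X N)) ∧
      ∀ W : WeilCohomology.{u, v} ops, RateLaw W X β := by
  obtain ⟨β, hP, h⟩ := exists_rate W₀ X
  have hg := rankGrowth_of h
  refine ⟨β, fun β' => ⟨fun h' => le_antisymm (h'.unique hg) (hg.unique h'), ?_⟩,
    fun N hN => (h N hN).1, fun W => ?_⟩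
  · rintro rfl
    exact hg
  · obtain ⟨β', hP', h'⟩ := exists_rate W X
    have hg' := rankGrowth_of h'
    have he : β' = β := le_antisymm (hg'.unique hg) (hg.unique hg')
    subst he
    exact rateLaw hP' h'

/-- `β = (evenDim - d) + (oddDim - d)` for some `d ≤ evenDim`, `d ≤ oddDim`. -/
def Defect (W : WeilCohomology.{u, v} ops) (X : 𝒱.Obj) (β : ℕ) : Prop :=
  ∃ d m n : ℕ, evenDim W X = m + d ∧ oddDim W X = n + d ∧ m + n = β

theorem main' (W₀ : WeilCohomology.{u, w} ops) (X : 𝒱.Obj) :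
    ∃ β : ℕ, (∀ β', RankGrowth ops X β' ↔ β' = β) ∧
      (∀ N ≥ 1, β ^ (2 * N) ≤ (N + 1) ^ (β ^ 2) * midRank ops (pw X N)) ∧
      ∀ W : WeilCohomology.{u, v} ops, Defect W X β ∧
        (∀ N ≥ 1, midRank ops (pw X N) ≤ nonNeg W (pw X N) ^ 2 ∧
          nonNeg W (pw X N) ^ 2 ≤ (N + 1) ^ (cohDim W X ^ 2) * β ^ (2 * N)) ∧
        (NilOnPowers W X ↔ β = cohDim W X) ∧ SignAlternatives W X β := by
  obtain ⟨β, h1, h2, h3⟩ := main.{u, v, w} W₀ X
  refine ⟨β, h1, h2, fun W => ?_⟩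
  obtain ⟨⟨d, m, n, h4, h5, h6, -⟩, h7, h8, h9⟩ := h3 W
  exact ⟨⟨d, m, n, h4, h5, h6⟩, h7, h8, h9⟩

end Pool.Agent.L0h13.SD
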