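import Pool.Agent.L0h13.SD.Stm

/-!
# Elements of the group algebras on the first and on the last points
-/

set_option autoImplicit false

namespace Pool.Agent.L0h13.SD

open Polynomial Equiv

universe u

namespace BLKm

variable {N M : ℕ}

lemma blk_mul (a b : Perm (Fin N)) (c d : Perm (Fin M)) :
    blk a c * blk b d = blk (a * b) (c * d) := by
  ext i
  refine Fin.addCases (fun j => ?_) (fun j => ?_) i
  · rw [Perm.mul_apply, blk_castAdd, blk_castAdd, blk_castAdd, Perm.mul_apply]
  · rw [Perm.mul_apply, blk_natAdd, blk_natAdd, blk_natAdd, Perm.mul_apply]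

lemma blk_dn (a : Perm (Fin N)) :
    (blk a (1 : Perm (Fin (M + 1))) : Perm (Fin (N + (M + 1)))) =
      dn (blk a (1 : Perm (Fin M))) := by
  apply Equiv.ext
  intro i
  refine Fin.lastCases ?_ (fun j => ?_) (i : Fin ((N + M) + 1))
  · exact (blk_natAdd a (1 : Perm (Fin (M + 1))) (Fin.last M)).trans
      (dn_last (blk a (1 : Perm (Fin M)))).symm
  · refine Eq.trans ?_ (dn_castSucc (blk a (1 : Perm (Fin M))) j).symm
    refine Fin.addCases (fun k => ?_) (fun k => ?_) j
    · rw [blk_castAdd]
      exact blk_castAdd a (1 : Perm (Fin (M + 1))) k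
    · rw [blk_natAdd]
      exact blk_natAdd a (1 : Perm (Fin (M + 1))) k.castSucc

lemma blk_zero (a : Perm (Fin N)) :
    (blk a (1 : Perm (Fin 0)) : Perm (Fin (N + 0))) = a := by
  apply Equiv.ext
  intro i
  exact blk_castAdd a (1 : Perm (Fin 0)) i

end BLKm

open BLKm

theorem t_BLK : S_BLK.{u} := by
  intro K _ N M y y' f
  refine ⟨?_, ?_, ?_, ?_⟩
  · have h1 : ∀ σ : Perm (Fin N), (blkL (pm K σ * y') : GA K (N + M)) =
        blkL (pm K σ) * blkL y' := by
      intro σ
      have h := lin_ext (K := K) (V := GA K (N + M))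
        (f := (blkL (K := K) (N := N) (M := M)).comp (LinearMap.mulLeft K (pm K σ)))
        (g := (LinearMap.mulLeft K (blkL (pm K σ))).comp blkL) (by
          intro τ
          rw [LinearMap.comp_apply, LinearMap.comp_apply, LinearMap.mulLeft_apply,
            LinearMap.mulLeft_apply, pm_mul, blkL, lin_pm, lin_pm, lin_pm, pm_mul, blk_mul,
            mul_one])
      exact LinearMap.congr_fun h y'
    have h := lin_ext (K := K) (V := GA K (N + M))
      (f := (blkL (K := K) (N := N) (M := M)).comp (LinearMap.mulRight K y'))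
      (g := (LinearMap.mulRight K (blkL y')).comp blkL) (fun σ => h1 σ)
    exact LinearMap.congr_fun h y
  · have h1 : ∀ σ : Perm (Fin N), (blkL (pm K σ) : GA K (N + M)) * blkR f =
        blkR f * blkL (pm K σ) := by
      intro σ
      have h := lin_ext (K := K) (V := GA K (N + M))
        (f := (LinearMap.mulLeft K (blkL (pm K σ))).comp (blkR (K := K) (N := N) (M := M)))
        (g := (LinearMap.mulRight K (blkL (pm K σ))).comp blkR) (by
          intro τ
          rw [LinearMap.comp_apply, LinearMap.comp_apply, LinearMap.mulLeft_apply,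
            LinearMap.mulRight_apply, blkL, lin_pm, blkR, lin_pm, pm_mul, pm_mul, blk_mul,
            blk_mul, mul_one, one_mul, one_mul, mul_one])
      exact LinearMap.congr_fun h f
    have h := lin_ext (K := K) (V := GA K (N + M))
      (f := (LinearMap.mulRight K (blkR f)).comp (blkL (K := K) (N := N) (M := M)))
      (g := (LinearMap.mulLeft K (blkR f)).comp blkL) (fun σ => h1 σ)
    exact LinearMap.congr_fun h y
  · have h := lin_ext (K := K) (V := GA K (N + (M + 1)))
      (f := (blkL (K := K) (N := N) (M := M + 1)))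
      (g := (dnA (K := K) (N := N + M)).comp (blkL (K := K) (N := N) (M := M))) (by
        intro σ
        rw [LinearMap.comp_apply, blkL, lin_pm, blkL, lin_pm, dnA, lin_pm, blk_dn])
    exact LinearMap.congr_fun h y
  · have h := lin_ext (K := K) (V := GA K (N + 0))
      (f := (blkL (K := K) (N := N) (M := 0)))
      (g := (LinearMap.id : GA K N →ₗ[K] GA K N)) (by
        intro σ
        rw [blkL, lin_pm, LinearMap.id_apply, blk_zero])
    exact LinearMap.congr_fun h y

end Pool.Agent.L0h13.SD
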