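import Mathlib

/-!
# Signed permutations of words and tensor ideals in the group algebras of the symmetric groups

Definitions and first lemmas.
-/

set_option autoImplicit false

namespace Pool.Agent.L0h13.SD

open Polynomial Equiv

/-! ### Group algebras of the symmetric groups -/

/-- The group algebra of the symmetric group. -/
abbrev GA (K : Type*) [Field K] (N : ℕ) : Type _ := MonoidAlgebra K (Perm (Fin N))

section lin

variable {K : Type*} [Field K] {N : ℕ} {V : Type*} [AddCommGroup V] [Module K V]

/-- A permutation as an element of the group algebra. -/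
noncomputable def pm (K : Type*) [Field K] {N : ℕ} (σ : Perm (Fin N)) : GA K N :=
  MonoidAlgebra.single σ 1

lemma pm_mul (σ τ : Perm (Fin N)) : pm K σ * pm K τ = pm K (σ * τ) := by
  rw [pm, pm, pm, MonoidAlgebra.single_mul_single, one_mul]

lemma pm_one : pm K (1 : Perm (Fin N)) = 1 := rfl

/-- The linear map with given values on the permutations. -/
noncomputable def lin (g : Perm (Fin N) → V) : GA K N →ₗ[K] V where
  toFun y := ∑ σ, y.coeff σ • g σ
  map_add' x y := by
    rw [← Finset.sum_add_distrib]
    exact Finset.sum_congr rfl fun σ _ => by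
      rw [MonoidAlgebra.coeff_add, Finsupp.add_apply, add_smul]
  map_smul' c x := by
    rw [RingHom.id_apply, Finset.smul_sum]
    exact Finset.sum_congr rfl fun σ _ => by
      rw [MonoidAlgebra.coeff_smul, Finsupp.smul_apply, smul_smul, smul_eq_mul]

lemma lin_apply (g : Perm (Fin N) → V) (y : GA K N) : lin g y = ∑ σ, y.coeff σ • g σ := rfl

lemma lin_pm (g : Perm (Fin N) → V) (σ : Perm (Fin N)) : lin g (pm K σ) = g σ := by
  rw [lin_apply, Finset.sum_eq_single σ]
  · rw [pm, MonoidAlgebra.coeff_single, Finsupp.single_eq_same, one_smul]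
  · intro τ _ h
    rw [pm, MonoidAlgebra.coeff_single, Finsupp.single_eq_of_ne h, zero_smul]
  · intro h
    exact absurd (Finset.mem_univ σ) h

lemma sum_pm (y : GA K N) : ∑ σ, y.coeff σ • pm K σ = y := by
  apply MonoidAlgebra.coeff_injective
  ext τ
  rw [MonoidAlgebra.coeff_sum, Finsupp.finsetSum_apply, Finset.sum_eq_single τ]
  · rw [MonoidAlgebra.coeff_smul, pm, MonoidAlgebra.coeff_single, Finsupp.smul_apply,
      Finsupp.single_eq_same, smul_eq_mul, mul_one]
  · intro σ _ h
    rw [MonoidAlgebra.coeff_smul, pm, MonoidAlgebra.coeff_single, Finsupp.smul_apply,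
      Finsupp.single_eq_of_ne (Ne.symm h), smul_zero]
  · intro h
    exact absurd (Finset.mem_univ τ) h

/-- Linear maps which agree on the permutations are equal. -/
lemma lin_ext {f g : GA K N →ₗ[K] V} (h : ∀ σ, f (pm K σ) = g (pm K σ)) : f = g := by
  apply LinearMap.ext
  intro y
  rw [← sum_pm y, map_sum, map_sum]
  exact Finset.sum_congr rfl fun σ _ => by rw [map_smul, map_smul, h]

end lin

/-! ### The number of cycles -/

/-- The number of cycles of a permutation (the fixed points are counted). -/
def cyc : ∀ {N : ℕ}, Perm (Fin N) → ℕ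
  | 0, _ => 0
  | _ + 1, σ => cyc (Perm.decomposeFin σ).2 + if (Perm.decomposeFin σ).1 = 0 then 1 else 0

/-- The permutation of `Fin (N + 1)` which fixes the last point and agrees with `e` on the others. -/
def dn {N : ℕ} (e : Perm (Fin N)) : Perm (Fin (N + 1)) :=
  finSuccEquivLast.symm.permCongr (Equiv.optionCongr e)

/-- The permutation obtained by taking the last point out of its cycle. -/
def del {N : ℕ} (σ : Perm (Fin (N + 1))) : Perm (Fin N) :=
  Equiv.removeNone (finSuccEquivLast.permCongr σ)

lemma dn_last {N : ℕ} (e : Perm (Fin N)) : dn e (Fin.last N) = Fin.last N := by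
  simp [dn, Equiv.permCongr_apply]

lemma dn_castSucc {N : ℕ} (e : Perm (Fin N)) (i : Fin N) :
    dn e i.castSucc = (e i).castSucc := by
  simp [dn, Equiv.permCongr_apply]

/-- Two permutations side by side. -/
def blk {N M : ℕ} (e : Perm (Fin N)) (f : Perm (Fin M)) : Perm (Fin (N + M)) :=
  finSumFinEquiv.permCongr (Equiv.Perm.sumCongr e f)

lemma blk_castAdd {N M : ℕ} (e : Perm (Fin N)) (f : Perm (Fin M)) (i : Fin N) :
    blk e f (Fin.castAdd M i) = Fin.castAdd M (e i) := by
  simp [blk, Equiv.permCongr_apply]

lemma blk_natAdd {N M : ℕ} (e : Perm (Fin N)) (f : Perm (Fin M)) (i : Fin M) :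
    blk e f (Fin.natAdd N i) = Fin.natAdd N (f i) := by
  simp [blk, Equiv.permCongr_apply]

section algebra

variable {K : Type*} [Field K]

/-- The polynomial `∑ y_σ u^(number of cycles of σ)`. -/
noncomputable def pol {N : ℕ} : GA K N →ₗ[K] K[X] := lin fun σ => X ^ cyc σ

/-- The inclusion of the group algebra of the stabilizer of the last point. -/
noncomputable def dnA {N : ℕ} : GA K N →ₗ[K] GA K (N + 1) := lin fun σ => pm K (dn σ)

/-- `e` on the first and `f` on the last points. -/
noncomputable def blkL {N M : ℕ} : GA K N →ₗ[K] GA K (N + M) := lin fun σ => pm K (blk σ 1)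

/-- `f` on the last points. -/
noncomputable def blkR {N M : ℕ} : GA K M →ₗ[K] GA K (N + M) := lin fun σ => pm K (blk 1 σ)

/-- The partial trace with respect to the last point, with parameter `t`. -/
noncomputable def ptr (t : K) {N : ℕ} : GA K (N + 1) →ₗ[K] GA K N :=
  lin fun σ => (if σ (Fin.last N) = Fin.last N then t else 1) • pm K (del σ)

/-- The conditional expectation. -/
noncomputable def cex {N : ℕ} : GA K (N + 1) →ₗ[K] GA K N :=
  lin fun σ => if σ (Fin.last N) = Fin.last N then pm K (del σ) else 0

/-- The elements `y` such that the polynomials of all `y z` are divisible by `(u - t)^s`. -/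
noncomputable def JJ (t : K) (s N : ℕ) : Submodule K (GA K N) where
  carrier := {y | ∀ z, (X - C t) ^ s ∣ pol (y * z)}
  zero_mem' := fun z => by rw [zero_mul, map_zero]; exact dvd_zero _
  add_mem' := fun {x y} hx hy z => by rw [add_mul, map_add]; exact dvd_add (hx z) (hy z)
  smul_mem' := fun c x hx z => by
    rw [smul_mul_assoc, map_smul, Polynomial.smul_eq_C_mul]; exact Dvd.dvd.mul_left (hx z) _

lemma mem_JJ {t : K} {s N : ℕ} {y : GA K N} :
    y ∈ JJ t s N ↔ ∀ z, (X - C t) ^ s ∣ pol (y * z) := Iff.rfl

/-- Families of two-sided ideals in the group algebras, stable under induction and partial traces. -/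
structure TIdeal (t : K) (J : ∀ N, Submodule K (GA K N)) : Prop where
  mul_left : ∀ {N : ℕ} (z : GA K N) {y : GA K N}, y ∈ J N → z * y ∈ J N
  mul_right : ∀ {N : ℕ} (z : GA K N) {y : GA K N}, y ∈ J N → y * z ∈ J N
  up : ∀ {N : ℕ} {y : GA K N}, y ∈ J N → dnA y ∈ J (N + 1)
  tr : ∀ {N : ℕ} {y : GA K (N + 1)}, y ∈ J (N + 1) → ptr t y ∈ J N
  zero : J 0 = ⊥

/-- The ideals `JJ t s` are prime for the product of permutations side by side. -/
def IsPrimeJ (t : K) (s : ℕ) : Prop :=
  ∀ (N M : ℕ) (y : GA K N) (f : GA K M), blkL y * blkR f ∈ JJ t s (N + M) →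
    y ∈ JJ t s N ∨ f ∈ JJ t s M

end algebra

/-! ### Signed permutations of words

The letters are the elements of `Fin r`; the letters `< m` are even and the others are odd. -/

/-- The parity of a letter. -/
def par (m : ℕ) {r : ℕ} (a : Fin r) : ℕ := if (a : ℕ) < m then 0 else 1

/-- The sign with which the permutation `σ` acts on the word `w`: the product over all inversions of
`σ` in pairs of odd letters. -/
def eps (m : ℕ) {r N : ℕ} (σ : Perm (Fin N)) (w : Fin N → Fin r) : ℤ :=
  ∏ p : Fin N × Fin N,
    if p.1 < p.2 ∧ σ p.2 < σ p.1 then (-1) ^ (par m (w p.1) * par m (w p.2)) else 1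

section act

variable (K : Type*) [Field K] (m : ℕ) {r N : ℕ}

/-- The signed action of a permutation on functions on words. -/
def act (σ : Perm (Fin N)) : Module.End K ((Fin N → Fin r) → K) where
  toFun F := fun w => (eps m σ (w ∘ σ) : K) * F (w ∘ σ)
  map_add' F G := by
    funext w
    simp only [Pi.add_apply]
    ring
  map_smul' c F := by
    funext w
    simp only [Pi.smul_apply, smul_eq_mul, RingHom.id_apply]
    ring

/-- The action of the group algebra. -/
noncomputable def op (r : ℕ) : GA K N →ₗ[K] Module.End K ((Fin N → Fin r) → K) :=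
  lin fun σ => act K m (r := r) σ

/-- The operator which replaces one letter `a` by `b` in the arguments, with a sign. It lowers or
raises the weights. -/
def rep (a b : Fin r) : Module.End K ((Fin N → Fin r) → K) where
  toFun F := fun w => ∑ j : Fin N, if w j = a then
    (-1 : K) ^ ((par m a + par m b) * ∑ l : Fin N, if l < j then par m (w l) else 0) *
      F (Function.update w j b) else 0
  map_add' F G := by
    funext w
    simp only [Pi.add_apply]
    rw [← Finset.sum_add_distrib]
    exact Finset.sum_congr rfl fun j _ => by split_ifs <;> ring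
  map_smul' c F := by
    funext w
    simp only [Pi.smul_apply, smul_eq_mul, RingHom.id_apply]
    rw [Finset.mul_sum]
    exact Finset.sum_congr rfl fun j _ => by split_ifs <;> ring

/-- The value at the word `w` of `∑ u^(number of cycles of σ) σ⁻¹ F`. -/
noncomputable def phi (F : (Fin N → Fin r) → K) (w : Fin N → Fin r) : K[X] :=
  ∑ σ : Perm (Fin N), C (act K m σ⁻¹ F w) * X ^ cyc σ

/-- The number of letters `a` in `w`. -/
def cnt (w : Fin N → Fin r) (a : Fin r) : ℕ := (Finset.univ.filter fun i => w i = a).card

/-- The content polynomial of a weight. -/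
noncomputable def dpol (μ : Fin r → ℕ) : K[X] :=
  ∏ c : Fin r, ∏ l ∈ Finset.range (μ c),
    (X + C ((-1 : K) ^ par m c * l - ∑ a : Fin r, if a < c then (-1 : K) ^ par m a else 0))

/-- The power sums of a function on the letters. -/
noncomputable def psum (D : Fin r → K) (k : ℕ) : K := ∑ a : Fin r, (-1 : K) ^ par m a * D a ^ (k + 1)

end act

/-- The cycle monomial of a permutation, a cycle of length `k + 1` counting as `X k`; the point `i`
counts as `l i + 1` points. -/
noncomputable def cmon (K : Type*) [Field K] : ∀ {N : ℕ}, Perm (Fin N) → (Fin N → ℕ) → MvPolynomial ℕ K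
  | 0, _, _ => 1
  | _ + 1, σ, l =>
    if (Perm.decomposeFin σ).1 = 0 then
      MvPolynomial.X (l 0) * cmon K (Perm.decomposeFin σ).2 fun i => l i.succ
    else cmon K (Perm.decomposeFin σ).2 fun i =>
      if i.succ = (Perm.decomposeFin σ).1 then l i.succ + l 0 + 1 else l i.succ

end Pool.Agent.L0h13.SD
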