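import Pool.Agent.L0h13.SD.Base

/-!
# Statements of the modules of the project SD

Module `X` proves `theorem t_X : S_X` (or `theorem t_X (h : S_Y) : S_X` for the given hypotheses) in its
own file `Pool/Agent/L0h13/SD/X.lean`.
-/

set_option autoImplicit false

namespace Pool.Agent.L0h13.SD

universe u

open Polynomial Equiv

/-! ### Part A: cycles and partial traces (no signs) -/

/-- CYC. `cyc σ` is a class function, taking the last point out of its cycle changes `cyc` only if the
point is fixed, and `cyc σ = N` only for `σ = 1`. Hint: for every `r` the number of words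
`w : Fin N → Fin r` with `w ∘ σ = w` is `r ^ cyc σ` (induction on `N` with `decomposeFin`); use `r = 2`. -/
def S_CYC : Prop :=
  (∀ (N : ℕ) (σ τ : Perm (Fin N)), cyc (σ * τ) = cyc (τ * σ)) ∧
  (∀ (N : ℕ) (σ : Perm (Fin (N + 1))),
    cyc σ = cyc (del σ) + if σ (Fin.last N) = Fin.last N then 1 else 0) ∧
  (∀ (N : ℕ) (σ : Perm (Fin N)), cyc σ ≤ N ∧ (cyc σ = N → σ = 1)) ∧
  ∀ N : ℕ, cyc (1 : Perm (Fin N)) = N

/-- DEL. Taking out the last point commutes with the permutations which fix the last point. -/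
def S_DEL : Prop :=
  (∀ (N : ℕ) (a b : Perm (Fin N)), dn (a * b) = dn a * dn b) ∧
  (∀ (N : ℕ) (a b : Perm (Fin N)) (σ : Perm (Fin (N + 1))),
    del (dn a * σ * dn b) = a * del σ * b ∧
      ((dn a * σ * dn b) (Fin.last N) = Fin.last N ↔ σ (Fin.last N) = Fin.last N)) ∧
  ∀ (N : ℕ) (a : Perm (Fin N)), del (dn a) = a

/-- PTA. The partial trace and the polynomials. -/
def S_PTA : Prop := ∀ (K : Type u) [Field K] (t : K) (N : ℕ) (h : GA K N) (g : GA K (N + 1)),
  pol (dnA h * g) = pol (h * ptr t g) + (X - C t) * pol (h * cex g)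

/-- PTM. The partial trace is a map of bimodules. -/
def S_PTM : Prop := ∀ (K : Type u) [Field K] (t : K) (N : ℕ) (a b : GA K N) (g : GA K (N + 1)),
  ptr t (dnA a * g * dnA b) = a * ptr t g * b ∧ dnA (a * b) = dnA a * dnA b

/-- SHF. An ideal family is stable under the inclusions in the last points. Hint: `blk σ 1` on
`Fin (M + N)` is the `N`-fold iterate of `dn`; it is conjugate to `blk 1 σ` on `Fin (N + M)`. -/
def S_SHF : Prop := ∀ (K : Type u) [Field K] (t : K) (J : ∀ N, Submodule K (GA K N)), TIdeal t J →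
  ∀ (N M : ℕ) (f : GA K M), f ∈ J M → (blkR f : GA K (N + M)) ∈ J (N + M)

/-- BLK. Elements on the first and on the last points. -/
def S_BLK : Prop := ∀ (K : Type u) [Field K] (N M : ℕ) (y y' : GA K N) (f : GA K M),
  (blkL (y * y') : GA K (N + M)) = blkL y * blkL y' ∧
  (blkL y : GA K (N + M)) * blkR f = blkR f * blkL y ∧
  (blkL y : GA K (N + (M + 1))) = dnA (blkL y : GA K (N + M)) ∧
  (blkL y : GA K (N + 0)) = y

/-- TI. **Tensor ideals.** A stable family of ideals which contains `JJ t s₀` is one of the `JJ t s`,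
if the `JJ t s` are prime. -/
def S_TI : Prop := ∀ (K : Type u) [Field K] [CharZero K] (t : K) (J : ∀ N, Submodule K (GA K N)),
  TIdeal t J → ∀ s₀ : ℕ, (∀ N, JJ t s₀ N ≤ J N) → (∀ s, 1 ≤ s → s ≤ s₀ → IsPrimeJ t s) →
  ∃ s, 1 ≤ s ∧ s ≤ s₀ ∧ ∀ N, J N = JJ t s N

/-! ### Part B: signed permutations of words -/

/-- EPS. The signs form a cocycle. -/
def S_EPS : Prop :=
  (∀ (m r N : ℕ) (σ τ : Perm (Fin N)) (w : Fin N → Fin r),
    eps m (τ * σ) (w ∘ (τ * σ : Perm (Fin N))) =
      eps m τ (w ∘ τ) * eps m σ (w ∘ (τ * σ : Perm (Fin N)))) ∧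
  ∀ (m r N : ℕ) (w : Fin N → Fin r), eps m 1 w = 1

/-- SWP. The sign of the exchange of two equal letters. -/
def S_SWP : Prop := ∀ (m r N : ℕ) (p q : Fin N) (w : Fin N → Fin r), p ≠ q → w p = w q →
  eps m (swap p q) w = (-1) ^ par m (w p)

/-- SWO. The sign of the exchange of the first letter with another one. -/
def S_SWO : Prop := ∀ (m r N : ℕ) (p : Fin N) (w : Fin (N + 1) → Fin r),
  eps m (swap 0 p.succ) w = (-1) ^ (par m (w 0) * par m (w p.succ) +
    (par m (w 0) + par m (w p.succ)) * ∑ l : Fin N, if l < p then par m (w l.succ) else 0)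

/-- RES. The signs of permutations of the first or the last letters. -/
def S_RES : Prop :=
  (∀ (m r N : ℕ) (σ : Perm (Fin N)) (w : Fin (N + 1) → Fin r),
    eps m (dn σ) w = eps m σ fun i => w i.castSucc) ∧
  (∀ (m r N : ℕ) (σ : Perm (Fin N)) (w : Fin (N + 1) → Fin r),
    eps m (Perm.decomposeFin.symm (0, σ)) w = eps m σ fun i => w i.succ) ∧
  ∀ (m r N M : ℕ) (σ : Perm (Fin N)) (τ : Perm (Fin M)) (w : Fin (N + M) → Fin r),
    eps m (blk σ τ) w = eps m σ (fun i => w (Fin.castAdd M i)) * eps m τ fun i => w (Fin.natAdd N i)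

/-- ADJ. The sign of the exchange of two adjacent letters. -/
def S_ADJ : Prop := ∀ (m r N : ℕ) (i : Fin N) (w : Fin (N + 1) → Fin r),
  eps m (swap i.castSucc i.succ) w = (-1) ^ (par m (w i.castSucc) * par m (w i.succ))

/-- REP. The operators `rep a b` commute with the signed permutations. Hint: adjacent transpositions
generate (`Equiv.Perm.mclosure_swap_castSucc_succ`), with EPS and ADJ. -/
def S_REP : Prop := ∀ (K : Type u) [Field K] (m r N : ℕ) (a b : Fin r) (σ : Perm (Fin N)),
  act K m σ * rep K m a b = rep K m a b * act K m σ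

/-- XOP. The first step of the evaluation of `phi`: `∑ u^(cyc σ) σ⁻¹` is the same sum over the
permutations of the last `N` points, composed with `u + ∑ (0 p)`. -/
def S_XOP : Prop := ∀ (K : Type u) [Field K] (m r N : ℕ) (F : (Fin (N + 1) → Fin r) → K) (c : Fin r)
  (w : Fin N → Fin r) (x : K),
  (∀ v : Fin N → Fin r, (∑ p : Fin N, act K m (swap 0 p.succ) F (Fin.cons c v)) =
    x * F (Fin.cons c v)) →
  phi K m F (Fin.cons c w) = (X + C x) * phi K m (fun v => F (Fin.cons c v)) w

/-- XHW. The sum of the transpositions `(0 p)` on a highest weight vector. -/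
def S_XHW : Prop := ∀ (K : Type u) [Field K] (m r N : ℕ) (F : (Fin (N + 1) → Fin r) → K)
  (μ : Fin r → ℕ) (c : Fin r),
  (∀ w, F w ≠ 0 → cnt w = μ) → (∀ a b : Fin r, a < b → rep K m a b F = 0) →
  (∀ (b : Fin r) (v : Fin N → Fin r), c < b → F (Fin.cons b v) = 0) →
  (∀ v : Fin N → Fin r, (∑ p : Fin N, act K m (swap 0 p.succ) F (Fin.cons c v)) =
    ((-1 : K) ^ par m c * ((μ c : K) - 1) - ∑ a : Fin r, if a < c then (-1 : K) ^ par m a else 0) *
      F (Fin.cons c v)) ∧
  ∀ a b : Fin r, a < b → rep K m a b (fun v : Fin N → Fin r => F (Fin.cons c v)) = 0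

/-- HWV. The values of `phi` on a highest weight vector: a word `w` with `F w ≠ 0` at which
`∑ u^(cyc σ) σ⁻¹` acts as the content polynomial. Induction on `N`; `c` is the largest letter such that
`F (cons c v) ≠ 0` for some `v`. -/
def S_HWV : Prop := ∀ (K : Type u) [Field K] (m r N : ℕ) (F : (Fin N → Fin r) → K)
  (μ : Fin r → ℕ), F ≠ 0 → (∀ w, F w ≠ 0 → cnt w = μ) →
  (∀ a b : Fin r, a < b → rep K m a b F = 0) →
  ∃ w, F w ≠ 0 ∧ phi K m F w = dpol K m μ * C (F w)

/-- DPM. The order of vanishing of the content polynomial. -/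
def S_DPM : Prop := ∀ (K : Type u) [Field K] [CharZero K] (m n : ℕ) (μ : Fin (m + n) → ℕ),
  ¬ (X - C ((m : K) - n)) ^ (min m n + 1) ∣ dpol K m μ

/-- BRL. Elements of `JJ` act as zero on the words. -/
def S_BRL : Prop := ∀ (K : Type u) [Field K] [CharZero K] (m n N : ℕ) (y : GA K N),
  y ∈ JJ ((m : K) - n) (min m n + 1) N → op K m (m + n) y = 0

/-- TRC. The supertraces of signed permutations. -/
def S_TRC : Prop := ∀ (K : Type u) [Field K] (m r N : ℕ) (σ : Perm (Fin N)) (l : Fin N → ℕ)
  (D : Fin r → K),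
  (∑ w : Fin N → Fin r, (∏ i, ((-1 : K) ^ par m (w i) * D (w i) ^ (l i + 1))) *
    if w ∘ σ = w then (eps m σ w : K) else 0) = MvPolynomial.eval (psum K m D) (cmon K σ l)

/-- CMP. The specialisation of the cycle monomials. -/
def S_CMP : Prop := ∀ (K : Type u) [Field K] (N : ℕ) (σ : Perm (Fin N)) (l : Fin N → ℕ),
  MvPolynomial.aeval (fun _ => (X : K[X])) (cmon K σ l) = X ^ cyc σ

/-- MVP. A polynomial in the power sums which vanishes for all alphabets with `m` even and `n` odd
letters. Hint: its partial derivatives vanish for all alphabets with `m - 1` and `n - 1` letters. -/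
def S_MVP : Prop := ∀ (K : Type u) [Field K] [CharZero K] (m n : ℕ) (F : MvPolynomial ℕ K),
  (∀ D : Fin (m + n) → K, MvPolynomial.eval (psum K m D) F = 0) →
  (X - C ((m : K) - n)) ^ (min m n + 1) ∣ MvPolynomial.aeval (fun _ => (X : K[X])) F

/-- BRR. Elements which act as zero on the words belong to `JJ`. -/
def S_BRR : Prop := ∀ (K : Type u) [Field K] [CharZero K] (m n N : ℕ) (y : GA K N),
  op K m (m + n) y = 0 → y ∈ JJ ((m : K) - n) (min m n + 1) N

/-- PRM. The kernels of the actions on words are prime. -/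
def S_PRM : Prop := ∀ (K : Type u) [Field K] (m r N M : ℕ) (y : GA K N) (f : GA K M),
  op K m r (blkL y * blkR f : GA K (N + M)) = 0 → op K m r y = 0 ∨ op K m r f = 0

/-- OPM. The action is multiplicative. -/
def S_OPM : Prop := ∀ (K : Type u) [Field K] (m r N : ℕ) (y z : GA K N),
  op K m r (y * z) = op K m r y * op K m r z ∧ op K m r (1 : GA K N) = 1

end Pool.Agent.L0h13.SD
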