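import Pool.Agent.L0h13.GP.Main
import Pool.Agent.L0h13.SD.Stm

/-!
# The symmetric groups acting on the cohomology of the powers of a variety
-/

set_option autoImplicit false

open CategoryTheory AlgebraicGeometry Module

universe u v

namespace Pool.Agent.L0h13.SD

open Pool.Agent.H914 VarClass Obj WeilCohomology Pool.Agent.N190.CB Pool.Agent.N103.OC
  Pool.Agent.H447 Pool.Agent.N536.SG Pool.Agent.N536.HK Pool.Agent.L0h13.GP

variable {k : Type u} [Field k] {𝒱 : VarClass k} {ops : CycleOps 𝒱}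
  {W : WeilCohomology.{u, v} ops} {X Y Z : 𝒱.Obj}

/-- A homogeneous basis, the even classes first. -/
theorem exists_pbasis (W : WeilCohomology.{u, v} ops) (X : 𝒱.Obj) :
    ∃ (m n : ℕ) (e : Basis (Fin (m + n)) W.K (W.H X)), ∀ j, e j ∈ Y133.Half.PH W X (par m j) := by
  classical
  obtain ⟨e, he⟩ := Y133.Half.exists_hbasis W X
  choose a ha using he
  let P : Fin (finrank W.K (W.H X)) → Prop := fun j => a j % 2 = 0
  let q : Fin (finrank W.K (W.H X)) ≃
      Fin (Fintype.card {j // P j} + Fintype.card {j // ¬ P j}) :=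
    (Equiv.sumCompl P).symm.trans
      ((Equiv.sumCongr (Fintype.equivFin _) (Fintype.equivFin _)).trans finSumFinEquiv)
  refine ⟨_, _, e.reindex q, fun j => ?_⟩
  rw [Basis.reindex_apply]
  obtain ⟨i, rfl⟩ := q.surjective j
  rw [q.symm_apply_apply]
  by_cases h : P i
  · have h1 : q i = Fin.castAdd _ (Fintype.equivFin {j // P j} ⟨i, h⟩) := by
      simp only [q, Equiv.trans_apply]
      rw [Equiv.sumCompl_symm_apply_of_pos h]
      rfl
    have h2 : par (Fintype.card {j // P j}) (q i) = 0 := by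
      rw [h1, par, if_pos]
      exact (Fintype.equivFin {j // P j} ⟨i, h⟩).2
    rw [h2]
    exact Y133.Half.PH.congr h (ha i)
  · have h1 : q i = Fin.natAdd _ (Fintype.equivFin {j // ¬ P j} ⟨i, h⟩) := by
      simp only [q, Equiv.trans_apply]
      rw [Equiv.sumCompl_symm_apply_of_neg h]
      rfl
    have h2 : par (Fintype.card {j // P j}) (q i) = 1 := by
      rw [h1, par, if_neg]
      rw [Fin.val_natAdd]
      omega
    rw [h2]
    refine Y133.Half.PH.congr ?_ (ha i)
    change ¬ a i % 2 = 0 at h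
    omega

lemma ofFn_swap : ∀ {n : ℕ} (f : Fin (n + 1) → W.H Z) (a : Fin (n + 1) → ℕ)
    (_ : ∀ i, f i ∈ Y133.Half.PH W Z (a i)) (i : Fin n),
    (List.ofFn (f ∘ Equiv.swap i.castSucc i.succ)).prod =
      (-1 : W.K) ^ (a i.castSucc * a i.succ) • (List.ofFn f).prod := by
  intro n
  induction n with
  | zero => intro f a hf i; exact i.elim0
  | succ n ih =>
    intro f a hf i
    refine Fin.cases ?_ (fun i => ?_) i
    · have h0 : (f ∘ Equiv.swap (0 : Fin (n + 1)).castSucc (0 : Fin (n + 1)).succ) 0 = f 1 := by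
        exact congrArg f (Equiv.swap_apply_left _ _)
      have h1 : (f ∘ Equiv.swap (0 : Fin (n + 1)).castSucc (0 : Fin (n + 1)).succ)
          (Fin.succ 0) = f 0 := by
        exact congrArg f (Equiv.swap_apply_right _ _)
      have h2 : ∀ j : Fin n, (f ∘ Equiv.swap (0 : Fin (n + 1)).castSucc
          (0 : Fin (n + 1)).succ) j.succ.succ = f j.succ.succ := by
        intro j
        refine congrArg f (Equiv.swap_apply_of_ne_of_ne ?_ ?_)
        · exact Fin.succ_ne_zero _
        · intro h
          exact Fin.succ_ne_zero _ (Fin.succ_injective _ h)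
      rw [List.ofFn_succ, List.ofFn_succ, List.prod_cons, List.prod_cons, h0, h1]
      conv_rhs => rw [List.ofFn_succ, List.ofFn_succ, List.prod_cons, List.prod_cons]
      have h3 : (fun j : Fin n => (f ∘ Equiv.swap (0 : Fin (n + 1)).castSucc
          (0 : Fin (n + 1)).succ) j.succ.succ) = fun j => f j.succ.succ := funext h2
      rw [h3, ← mul_assoc, ← mul_assoc, Y133.Half.PH.comm (hf 1) (hf 0), smul_mul_assoc,
        mul_comm (a 1) (a 0)]
      rfl
    · have h0 : (f ∘ Equiv.swap i.succ.castSucc i.succ.succ) 0 = f 0 := by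
        refine congrArg f (Equiv.swap_apply_of_ne_of_ne ?_ ?_)
        · exact (Fin.succ_ne_zero i.castSucc).symm
        · exact (Fin.succ_ne_zero _).symm
      have h1 : (fun j : Fin (n + 1) => (f ∘ Equiv.swap i.succ.castSucc i.succ.succ) j.succ) =
          (fun j => f j.succ) ∘ Equiv.swap i.castSucc i.succ := by
        funext j
        refine congrArg f ?_
        rw [Fin.castSucc_succ]
        exact (Fin.succ_injective _).swap_apply _ _ _
      rw [List.ofFn_succ, List.prod_cons, h0, h1, ih (fun j => f j.succ) (fun j => a j.succ)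
        (fun j => hf j.succ) i]
      conv_rhs => rw [List.ofFn_succ, List.prod_cons]
      rw [mul_smul_comm]
      rfl

section Basis

variable {m r : ℕ} (e : Basis (Fin r) W.K (W.H X))

lemma rho_adj (he : ∀ j, e j ∈ Y133.Half.PH W X (par m j)) (n : ℕ) (i : Fin n)
    (w : Fin (n + 1) → Fin r) :
    Y133.Half.rho W X n (Equiv.swap i.castSucc i.succ) (Y133.Half.wb e n w) =
      (-1 : W.K) ^ (par m (w i.castSucc) * par m (w i.succ)) •
        Y133.Half.wb e n (w ∘ Equiv.swap i.castSucc i.succ) := by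
  set σ := Equiv.swap i.castSucc i.succ with hσ
  change W.map (Y133.Half.tau X n σ) (Y133.Half.wb e n w) = _
  rw [Y133.Half.wb_eq, Y133.Half.wb_eq, map_list_prod, List.map_ofFn]
  have h1 : (W.map (Y133.Half.tau X n σ)) ∘ (fun i => W.map (Y133.Half.prj X n i) (e (w i))) =
      (fun i => W.map (Y133.Half.prj X n i) (e ((w ∘ σ) i))) ∘ σ := by
    funext j
    rw [Function.comp_apply, Function.comp_apply, ← W.map_comp, Y133.Half.tau_prj,
      Function.comp_apply, hσ, Equiv.swap_apply_self]
  rw [h1, hσ, ofFn_swap (fun i_1 => W.map (Y133.Half.prj X n i_1) (e ((w ∘ σ) i_1)))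
    (fun j => par m (w (σ j))) (fun j => Y133.Half.PH.map _ (he _)) i]
  congr 2
  rw [hσ, Equiv.swap_apply_left, Equiv.swap_apply_right, mul_comm]

/-- **The symmetric group acts by signed permutations of words.** -/
theorem rho_wb (hE : S_EPS) (hA : S_ADJ) (he : ∀ j, e j ∈ Y133.Half.PH W X (par m j)) (n : ℕ)
    (σ : Equiv.Perm (Fin (n + 1))) :
    ∀ w : Fin (n + 1) → Fin r, Y133.Half.rho W X n σ (Y133.Half.wb e n w) =
      (eps m σ w : W.K) • Y133.Half.wb e n (w ∘ (σ⁻¹ : Equiv.Perm (Fin (n + 1)))) := by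
  have hσ : σ ∈ Submonoid.closure (Set.range fun i : Fin n => Equiv.swap i.castSucc i.succ) := by
    rw [Equiv.Perm.mclosure_swap_castSucc_succ]
    trivial
  induction hσ using Submonoid.closure_induction with
  | mem σ h =>
    obtain ⟨i, rfl⟩ := h
    intro w
    rw [rho_adj e he, hA, Equiv.swap_inv]
    push_cast
    rfl
  | one =>
    intro w
    rw [map_one, hE.2]
    simp
  | mul σ τ _ _ h1 h2 =>
    intro w
    rw [map_mul, Module.End.mul_apply, h2, map_smul, h1, smul_smul]
    have h3 := hE.1 m r (n + 1) τ σ (w ∘ ((σ * τ)⁻¹ : Equiv.Perm (Fin (n + 1))))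
    have h4 : (w ∘ ((σ * τ)⁻¹ : Equiv.Perm (Fin (n + 1)))) ∘ ((σ * τ : Equiv.Perm (Fin (n + 1)))) = w := by
      funext i
      simp
    have h5 : (w ∘ ((σ * τ)⁻¹ : Equiv.Perm (Fin (n + 1)))) ∘ σ =
        w ∘ (τ⁻¹ : Equiv.Perm (Fin (n + 1))) := by
      funext i
      simp
    rw [h4, h5] at h3
    rw [h3, mul_comm]
    push_cast
    congr 2

end Basis

end Pool.Agent.L0h13.SD
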