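import Pool.Agent.L0h13.SD.GeoA

/-!
# Numerically trivial combinations of permutations form a tensor ideal
-/

set_option autoImplicit false

open CategoryTheory AlgebraicGeometry Module

universe u v

namespace Pool.Agent.L0h13.SD

open Pool.Agent.H914 VarClass Obj WeilCohomology Pool.Agent.N190.CB Pool.Agent.N103.OC
  Pool.Agent.H447 Pool.Agent.N536.SG Pool.Agent.N536.HK Pool.Agent.L0h13.GP

section comb

lemma del_of_ne {N : ℕ} (σ : Equiv.Perm (Fin (N + 1))) (i : Fin N)
    (h : σ i.castSucc ≠ Fin.last N) : (del σ i).castSucc = σ i.castSucc := by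
  have h1 : ∃ x', (finSuccEquivLast.permCongr σ) (some i) = some x' := by
    obtain ⟨j, hj⟩ := Fin.exists_castSucc_eq.2 h
    refine ⟨j, ?_⟩
    rw [Equiv.permCongr_apply, finSuccEquivLast_symm_some, ← hj, finSuccEquivLast_castSucc]
  have h2 := Equiv.removeNone_some (finSuccEquivLast.permCongr σ) h1
  rw [Equiv.permCongr_apply, finSuccEquivLast_symm_some] at h2
  have h3 := congrArg finSuccEquivLast.symm h2
  rw [finSuccEquivLast_symm_some, Equiv.symm_apply_apply] at h3
  exact h3

lemma del_of_eq {N : ℕ} (σ : Equiv.Perm (Fin (N + 1))) (i : Fin N)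
    (h : σ i.castSucc = Fin.last N) : (del σ i).castSucc = σ (Fin.last N) := by
  have h1 : (finSuccEquivLast.permCongr σ) (some i) = none := by
    rw [Equiv.permCongr_apply, finSuccEquivLast_symm_some, h, finSuccEquivLast_last]
  have h2 := Equiv.removeNone_none (finSuccEquivLast.permCongr σ) h1
  rw [Equiv.permCongr_apply, finSuccEquivLast_symm_none] at h2
  have h3 := congrArg finSuccEquivLast.symm h2
  rw [finSuccEquivLast_symm_some, Equiv.symm_apply_apply] at h3
  exact h3

lemma eq_dn {N : ℕ} (σ : Equiv.Perm (Fin (N + 1))) (h : σ (Fin.last N) = Fin.last N) :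
    σ = dn (del σ) := by
  apply Equiv.ext
  intro i
  refine Fin.lastCases ?_ (fun i => ?_) i
  · rw [dn_last, h]
  · rw [dn_castSucc, del_of_ne]
    intro h1
    rw [← h] at h1
    exact (Fin.castSucc_lt_last i).ne (σ.injective h1)

lemma eq_dn_swap {N : ℕ} (σ : Equiv.Perm (Fin (N + 1))) (h : σ (Fin.last N) ≠ Fin.last N) :
    ∃ p : Fin N, σ = dn (del σ) * Equiv.swap p.castSucc (Fin.last N) := by
  obtain ⟨q, hq⟩ := σ.surjective (Fin.last N)
  have hq' : q ≠ Fin.last N := by
    rintro rfl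
    exact h hq
  obtain ⟨p, rfl⟩ := Fin.exists_castSucc_eq.2 hq'
  refine ⟨p, Equiv.ext fun i => ?_⟩
  refine Fin.lastCases ?_ (fun i => ?_) i
  · rw [Equiv.Perm.mul_apply, Equiv.swap_apply_right, dn_castSucc, del_of_eq σ p hq]
  · by_cases hi : i = p
    · subst hi
      rw [Equiv.Perm.mul_apply, Equiv.swap_apply_left, dn_last, hq]
    · rw [Equiv.Perm.mul_apply, Equiv.swap_apply_of_ne_of_ne
        (fun h1 => hi (Fin.castSucc_injective _ h1)) (Fin.castSucc_lt_last i).ne, dn_castSucc,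
        del_of_ne]
      intro h1
      rw [← hq] at h1
      exact hi (Fin.castSucc_injective _ (σ.injective h1))

lemma dn_inv_castSucc {N : ℕ} (σ : Equiv.Perm (Fin N)) (i : Fin N) :
    (dn σ)⁻¹ i.castSucc = (σ⁻¹ i).castSucc := by
  rw [Equiv.Perm.inv_eq_iff_eq, dn_castSucc]
  simp

lemma dn_inv_last {N : ℕ} (σ : Equiv.Perm (Fin N)) : (dn σ)⁻¹ (Fin.last N) = Fin.last N := by
  rw [Equiv.Perm.inv_eq_iff_eq, dn_last]

end comb

section linmul

variable {K : Type*} [Field K] {N : ℕ} {A : Type*} [Ring A] [Algebra K A]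

lemma lin_mul (g : Equiv.Perm (Fin N) →* A) (y z : GA K N) :
    lin (fun σ => g σ) (y * z) = lin (fun σ => g σ) y * lin (fun σ => g σ) z := by
  conv_lhs => rw [← sum_pm y, ← sum_pm z]
  rw [Finset.sum_mul, map_sum, lin_apply, Finset.sum_mul]
  refine Finset.sum_congr rfl fun σ _ => ?_
  rw [Finset.mul_sum, map_sum, lin_apply, Finset.mul_sum]
  refine Finset.sum_congr rfl fun τ _ => ?_
  rw [smul_mul_smul_comm, pm_mul, map_smul, lin_pm, map_mul, smul_mul_smul_comm]

lemma lin_one' (g : Equiv.Perm (Fin N) →* A) : lin (K := K) (fun σ => g σ) 1 = 1 := by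
  rw [← pm_one, lin_pm, map_one]

end linmul

variable {k : Type u} [Field k] {𝒱 : VarClass k} {ops : CycleOps 𝒱}
  {W : WeilCohomology.{u, v} ops} {X Y Z : 𝒱.Obj}

/-- The action of the group algebra on the cohomology of a power. -/
noncomputable def opW (W : WeilCohomology.{u, v} ops) (X : 𝒱.Obj) (n : ℕ) :
    GA W.K (n + 1) →ₗ[W.K] Module.End W.K (W.H (Y133.Half.pw X n)) :=
  lin fun σ => Y133.Half.rho W X n σ

lemma opW_mul (n : ℕ) (y z : GA W.K (n + 1)) :
    opW W X n (y * z) = opW W X n y * opW W X n z := lin_mul (Y133.Half.rho W X n) y z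

lemma opW_pm (n : ℕ) (σ : Equiv.Perm (Fin (n + 1))) :
    opW W X n (pm W.K σ) = Y133.Half.rho W X n σ := lin_pm _ _

lemma rho_mem (n : ℕ) (σ : Equiv.Perm (Fin (n + 1))) :
    Y133.Half.rho W X n σ ∈ KOp W (Y133.Half.pw X n) (Y133.Half.pw X n) 0 := R908.KOp.mapHom _

lemma opW_mem (n : ℕ) (y : GA W.K (n + 1)) :
    opW W X n y ∈ KOp W (Y133.Half.pw X n) (Y133.Half.pw X n) 0 := by
  rw [opW, lin_apply]
  exact Submodule.sum_mem _ fun σ _ => Submodule.smul_mem _ _ (rho_mem n σ)

/-- The numerically trivial elements of the group algebras. -/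
noncomputable def JW (W : WeilCohomology.{u, v} ops) (X : 𝒱.Obj) :
    ∀ N, Submodule W.K (GA W.K N)
  | 0 => ⊥
  | n + 1 => (NSub W (Y133.Half.pw X n)).comap (opW W X n)

lemma mem_JW {n : ℕ} {y : GA W.K (n + 1)} :
    y ∈ JW W X (n + 1) ↔ opW W X n y ∈ NSub W (Y133.Half.pw X n) := Iff.rfl

/-- The external product of an operator with the identity of one more factor. -/
noncomputable def ext1 (n : ℕ) (b : Module.End W.K (W.H (Y133.Half.pw X n))) :
    Module.End W.K (W.H (Y133.Half.pw X (n + 1))) :=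
  (extOp W b (1 : Module.End W.K (W.H X)) : Module.End W.K (W.H ((Y133.Half.pw X n).prod X)))

lemma ext1_mul (n : ℕ) (b c : Module.End W.K (W.H (Y133.Half.pw X n))) :
    ext1 n b * ext1 n c = ext1 n (b * c) := by
  have h := extOp_mul (W := W) b c (1 : Module.End W.K (W.H X)) 1
  rw [one_mul] at h
  exact h

lemma ext1_add (n : ℕ) (b c : Module.End W.K (W.H (Y133.Half.pw X n))) :
    ext1 n (b + c) = ext1 n b + ext1 n c := extOp_add_left b c 1

lemma ext1_smul (n : ℕ) (a : W.K) (b : Module.End W.K (W.H (Y133.Half.pw X n))) :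
    ext1 n (a • b) = a • ext1 n b := extOp_smul_left a b 1

lemma ext1_mem (n : ℕ) {b : Module.End W.K (W.H (Y133.Half.pw X n))}
    (hb : b ∈ KOp W (Y133.Half.pw X n) (Y133.Half.pw X n) 0) :
    ext1 n b ∈ KOp W (Y133.Half.pw X (n + 1)) (Y133.Half.pw X (n + 1)) 0 :=
  (kop_class W).ext hb (KOp.id X)

lemma ext1_nsub (n : ℕ) {b : Module.End W.K (W.H (Y133.Half.pw X n))}
    (hb : b ∈ NSub W (Y133.Half.pw X n)) : ext1 n b ∈ NSub W (Y133.Half.pw X (n + 1)) :=
  nsub_ext_left hb (KOp.id X)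

section Basis

variable {m r : ℕ} (e : Basis (Fin r) W.K (W.H X))

/-- The sign of a word. -/
noncomputable def sg (K : Type*) [Field K] (m : ℕ) {r N : ℕ} (w : Fin N → Fin r) : K :=
  ∏ i, (-1 : K) ^ par m (w i)

lemma sg_snoc (K : Type*) [Field K] (m : ℕ) {r N : ℕ} (w : Fin (N + 1) → Fin r) :
    sg K m w = sg K m (fun i => w i.castSucc) * (-1 : K) ^ par m (w (Fin.last N)) := by
  rw [sg, Fin.prod_univ_castSucc]
  rfl

lemma parW_wb (he : ∀ j, e j ∈ Y133.Half.PH W X (par m j)) (n : ℕ) :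
    ∀ w : Fin (n + 1) → Fin r,
    H914.par (W.isInternal (Y133.Half.pw X n)) (Y133.Half.wb e n w) =
      sg W.K m w • Y133.Half.wb e n w := by
  have h1 : ∀ (n : ℕ) (w : Fin (n + 1) → Fin r), Y133.Half.wb e n w ∈
      Y133.Half.PH W (Y133.Half.pw X n) (∑ i, par m (w i)) := by
    intro n
    induction n with
    | zero =>
      intro w
      rw [Y133.Half.wb_zero, Fin.sum_univ_succ, Fin.sum_univ_zero, add_zero]
      exact he _
    | succ n ih =>
      intro w
      rw [Y133.Half.wb_succ, Fin.sum_univ_castSucc]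
      exact Y133.Half.PH.mul (Y133.Half.PH.map _ (ih _)) (Y133.Half.PH.map _ (he _))
  intro w
  rw [Y133.Half.PH.par (h1 n w), sg, Finset.prod_pow_eq_pow_sum]

/-- The supertrace in terms of words. -/
lemma str_words (he : ∀ j, e j ∈ Y133.Half.PH W X (par m j)) (n : ℕ)
    (B : Module.End W.K (W.H (Y133.Half.pw X n))) :
    str W (Y133.Half.pw X n) B = ∑ w : Fin (n + 1) → Fin r,
      sg W.K m w * (Y133.Half.wb e n).repr (B (Y133.Half.wb e n w)) w := by
  classical
  rw [str_apply, LinearMap.trace_mul_comm, LinearMap.trace_eq_matrix_trace _ (Y133.Half.wb e n),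
    Matrix.trace]
  refine Finset.sum_congr rfl fun w _ => ?_
  rw [Matrix.diag_apply, LinearMap.toMatrix_apply, Module.End.mul_apply, parW_wb e he, map_smul,
    map_smul, Finsupp.smul_apply, smul_eq_mul]

lemma repr_snoc (n : ℕ) (x : W.H (Y133.Half.pw X n)) (a : Fin r) (w : Fin (n + 2) → Fin r) :
    (Y133.Half.wb e (n + 1)).repr (W.map (Y133.Half.pfst X n) x *
      W.map (Y133.Half.psnd X n) (e a)) w =
      if a = w (Fin.last _) then (Y133.Half.wb e n).repr x (fun i => w i.castSucc) else 0 := by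
  classical
  have hx : x ∈ Submodule.span W.K (Set.range (Y133.Half.wb e n)) := by
    rw [Basis.span_eq]
    trivial
  induction hx using Submodule.span_induction with
  | zero => simp
  | add x y _ _ hx hy =>
    rw [map_add, add_mul, map_add, Finsupp.add_apply, hx, hy, map_add, Finsupp.add_apply]
    split_ifs <;> simp
  | smul c x _ hx =>
    rw [map_smul, smul_mul_assoc, map_smul, Finsupp.smul_apply, hx, map_smul, Finsupp.smul_apply]
    split_ifs <;> simp
  | mem x hx =>
    obtain ⟨v, rfl⟩ := hx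
    have h1 : W.map (Y133.Half.pfst X n) (Y133.Half.wb e n v) *
        W.map (Y133.Half.psnd X n) (e a) = Y133.Half.wb e (n + 1) (Fin.snoc v a) := by
      rw [Y133.Half.wb_succ]
      simp
    rw [h1, Basis.repr_self, Basis.repr_self, Finsupp.single_apply, Finsupp.single_apply]
    by_cases h2 : a = w (Fin.last _)
    · rw [if_pos h2]
      by_cases h3 : v = fun i => w i.castSucc
      · rw [if_pos h3, if_pos]
        rw [h2, h3]
        exact Fin.snoc_init_self w
      · rw [if_neg h3, if_neg]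
        intro h4
        apply h3
        funext i
        rw [← h4, Fin.snoc_castSucc]
    · rw [if_neg h2, if_neg]
      intro h4
      apply h2
      rw [← h4, Fin.snoc_last]

lemma extOp_wb (n : ℕ) (b : Module.End W.K (W.H (Y133.Half.pw X n))) (w : Fin (n + 2) → Fin r) :
    ext1 n b (Y133.Half.wb e (n + 1) w) =
      W.map (Y133.Half.pfst X n) (b (Y133.Half.wb e n fun i => w i.castSucc)) *
        W.map (Y133.Half.psnd X n) (e (w (Fin.last _))) := by
  rw [Y133.Half.wb_succ]
  exact extOp_tmul b 1 _ _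

lemma sum_snoc {A : Type*} [AddCommMonoid A] (n : ℕ) (f : (Fin (n + 1) → Fin r) → A) :
    ∑ w, f w = ∑ v : Fin n → Fin r, ∑ a : Fin r, f (Fin.snoc v a) := by
  rw [← (Fin.snocEquiv (fun _ : Fin (n + 1) => Fin r)).sum_comp f, Fintype.sum_prod_type,
    Finset.sum_comm]
  rfl

lemma sq_par (K : Type*) [Field K] (a : ℕ) : (-1 : K) ^ a * (-1 : K) ^ a = 1 := by
  rw [← mul_pow]
  simp

/-- The supertrace of an external product with the identity. -/
lemma str_ext_one (he : ∀ j, e j ∈ Y133.Half.PH W X (par m j)) (n : ℕ)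
    (b : Module.End W.K (W.H (Y133.Half.pw X n))) :
    str W (Y133.Half.pw X (n + 1)) (ext1 n b) =
      (∑ a : Fin r, (-1 : W.K) ^ par m a) * str W (Y133.Half.pw X n) b := by
  rw [str_words e he, str_words e he, sum_snoc, Finset.mul_sum]
  refine Finset.sum_congr rfl fun v _ => ?_
  rw [Finset.sum_mul]
  refine Finset.sum_congr rfl fun a _ => ?_
  rw [extOp_wb, repr_snoc, if_pos rfl, sg_snoc]
  simp only [Fin.snoc_castSucc, Fin.snoc_last]
  ring

/-- The partial supertrace of a transposition. -/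
lemma str_ext_swap (hE : S_EPS) (hA : S_ADJ) (hS : S_SWP)
    (he : ∀ j, e j ∈ Y133.Half.PH W X (par m j)) (n : ℕ)
    (b : Module.End W.K (W.H (Y133.Half.pw X n))) (p : Fin (n + 1)) :
    str W (Y133.Half.pw X (n + 1)) (ext1 n b *
      Y133.Half.rho W X (n + 1) (Equiv.swap p.castSucc (Fin.last _))) =
      str W (Y133.Half.pw X n) b := by
  rw [str_words e he, str_words e he, sum_snoc]
  refine Finset.sum_congr rfl fun v _ => ?_
  have hpl : p.castSucc ≠ Fin.last (n + 1) := (Fin.castSucc_lt_last p).ne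
  have h1 : ∀ a : Fin r, sg W.K m (Fin.snoc v a : Fin (n + 2) → Fin r) *
      (Y133.Half.wb e (n + 1)).repr ((ext1 n b *
        Y133.Half.rho W X (n + 1) (Equiv.swap p.castSucc (Fin.last _)))
        (Y133.Half.wb e (n + 1) (Fin.snoc v a))) (Fin.snoc v a) =
      if v p = a then sg W.K m v * (Y133.Half.wb e n).repr (b (Y133.Half.wb e n v)) v else 0 := by
    intro a
    set w : Fin (n + 2) → Fin r := Fin.snoc v a with hw
    rw [Module.End.mul_apply, rho_wb e hE hA he, map_smul, map_smul, Finsupp.smul_apply, extOp_wb,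
      repr_snoc, Equiv.swap_inv]
    have h2 : (w ∘ (Equiv.swap p.castSucc (Fin.last (n + 1)))) (Fin.last (n + 1)) = v p := by
      rw [Function.comp_apply, Equiv.swap_apply_right, hw, Fin.snoc_castSucc]
    have h3 : w (Fin.last (n + 1)) = a := by rw [hw, Fin.snoc_last]
    rw [h2, h3]
    by_cases h4 : v p = a
    · rw [if_pos h4, if_pos h4]
      have h5 : w p.castSucc = w (Fin.last (n + 1)) := by rw [h3, hw, Fin.snoc_castSucc, h4]
      have h6 : w ∘ (Equiv.swap p.castSucc (Fin.last (n + 1))) = w := by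
        funext i
        rw [Function.comp_apply, Equiv.swap_apply_def]
        split_ifs with h7 h8
        · rw [h7, h5]
        · rw [h8, h5]
        · rfl
      rw [h6, hS m r _ p.castSucc (Fin.last _) w hpl h5, h5, h3, sg_snoc, h3]
      have h7 : (fun i : Fin (n + 1) => w i.castSucc) = v := by
        funext i
        rw [hw, Fin.snoc_castSucc]
      rw [h7, smul_eq_mul]
      push_cast
      linear_combination (sg W.K m v * ((Y133.Half.wb e n).repr (b (Y133.Half.wb e n v)) v)) *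
        sq_par W.K (par m a)
    · rw [if_neg h4, if_neg h4, smul_zero, mul_zero]
  rw [Finset.sum_congr rfl fun a _ => h1 a, Finset.sum_ite_eq, if_pos (Finset.mem_univ _)]

lemma rho_dn (hE : S_EPS) (hA : S_ADJ) (hR : S_RES)
    (he : ∀ j, e j ∈ Y133.Half.PH W X (par m j)) (n : ℕ) (σ : Equiv.Perm (Fin (n + 1))) :
    Y133.Half.rho W X (n + 1) (dn σ) =
      ext1 n (Y133.Half.rho W X n σ) := by
  apply (Y133.Half.wb e (n + 1)).ext
  intro w
  rw [rho_wb e hE hA he, extOp_wb, rho_wb e hE hA he, hR.1, map_smul, smul_mul_assoc,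
    Y133.Half.wb_succ]
  have h1 : (w ∘ ((dn σ)⁻¹ : Equiv.Perm (Fin (n + 1 + 1)))) (Fin.last (n + 1)) =
      w (Fin.last (n + 1)) := by
    rw [Function.comp_apply, dn_inv_last]
  have h2 : (fun i : Fin (n + 1) => (w ∘ ((dn σ)⁻¹ : Equiv.Perm (Fin (n + 1 + 1)))) i.castSucc) =
      (fun i => w i.castSucc) ∘ (σ⁻¹ : Equiv.Perm (Fin (n + 1))) := by
    funext i
    rw [Function.comp_apply, Function.comp_apply, dn_inv_castSucc]
  rw [h1, h2]

lemma opW_dn (hE : S_EPS) (hA : S_ADJ) (hR : S_RES)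
    (he : ∀ j, e j ∈ Y133.Half.PH W X (par m j)) (n : ℕ) (y : GA W.K (n + 1)) :
    opW W X (n + 1) (dnA y) = ext1 n (opW W X n y) := by
  let E : Module.End W.K (W.H (Y133.Half.pw X n)) →ₗ[W.K]
      Module.End W.K (W.H (Y133.Half.pw X (n + 1))) :=
    { toFun := fun b => ext1 n b
      map_add' := fun b c => ext1_add n b c
      map_smul' := fun c b => ext1_smul n c b }
  have h : opW W X (n + 1) ∘ₗ dnA = E ∘ₗ opW W X n := by
    apply lin_ext
    intro σ
    rw [LinearMap.comp_apply, LinearMap.comp_apply, dnA, lin_pm, opW_pm, opW_pm,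
      rho_dn e hE hA hR he]
    rfl
  exact congrArg (fun f => f y) h

/-- **The partial trace.** -/
lemma str_ptr (hE : S_EPS) (hA : S_ADJ) (hS : S_SWP) (hR : S_RES)
    (he : ∀ j, e j ∈ Y133.Half.PH W X (par m j)) (n : ℕ) (y : GA W.K (n + 1 + 1))
    (a : Module.End W.K (W.H (Y133.Half.pw X n))) :
    str W (Y133.Half.pw X n) (a * opW W X n (ptr (∑ a : Fin r, (-1 : W.K) ^ par m a) y)) =
      str W (Y133.Half.pw X (n + 1)) (ext1 n a * opW W X (n + 1) y) := by
  have h : str W (Y133.Half.pw X n) ∘ₗ LinearMap.mulLeft W.K a ∘ₗ opW W X n ∘ₗ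
      ptr (∑ a : Fin r, (-1 : W.K) ^ par m a) =
      str W (Y133.Half.pw X (n + 1)) ∘ₗ LinearMap.mulLeft W.K (ext1 n a) ∘ₗ
        opW W X (n + 1) := by
    apply lin_ext
    intro σ
    simp only [LinearMap.comp_apply, LinearMap.mulLeft_apply]
    rw [ptr, lin_pm, map_smul, opW_pm, opW_pm, mul_smul_comm, map_smul, smul_eq_mul]
    by_cases hσ : σ (Fin.last (n + 1)) = Fin.last (n + 1)
    · rw [if_pos hσ]
      have h1 : Y133.Half.rho W X (n + 1) σ = ext1 n (Y133.Half.rho W X n (del σ)) := by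
        rw [← rho_dn e hE hA hR he, ← eq_dn σ hσ]
      rw [h1, ext1_mul, str_ext_one e he]
    · obtain ⟨p, hp⟩ := eq_dn_swap σ hσ
      rw [if_neg hσ, one_mul]
      have h1 : Y133.Half.rho W X (n + 1) σ = ext1 n (Y133.Half.rho W X n (del σ)) *
          Y133.Half.rho W X (n + 1) (Equiv.swap p.castSucc (Fin.last _)) := by
        rw [← rho_dn e hE hA hR he, ← map_mul, ← hp]
      rw [h1, ← mul_assoc, ext1_mul, str_ext_swap e hE hA hS he]
  exact congrArg (fun f => f y) h

end Basis

end Pool.Agent.L0h13.SD
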