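import Pool.Agent.L0h13.SD.GeoB

/-!
# The ideals of numerically trivial combinations of permutations are ideals of words
-/

set_option autoImplicit false

open CategoryTheory AlgebraicGeometry Module

universe u v

namespace Pool.Agent.L0h13.SD

open Pool.Agent.H914 VarClass Obj WeilCohomology Pool.Agent.N190.CB Pool.Agent.N103.OC
  Pool.Agent.H447 Pool.Agent.N536.SG Pool.Agent.N536.HK Pool.Agent.L0h13.GP

lemma sum_parity (K : Type*) [Field K] (m n : ℕ) :
    ∑ a : Fin (m + n), (-1 : K) ^ par m a = (m : K) - n := by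
  rw [Fin.sum_univ_add]
  have h1 : ∀ i : Fin m, (-1 : K) ^ par m (Fin.castAdd n i) = 1 := by
    intro i
    rw [par, if_pos (by rw [Fin.val_castAdd]; exact i.2), pow_zero]
  have h2 : ∀ i : Fin n, (-1 : K) ^ par m (Fin.natAdd m i) = -1 := by
    intro i
    rw [par, if_neg (by rw [Fin.val_natAdd]; omega), pow_one]
  rw [Finset.sum_congr rfl fun i _ => h1 i, Finset.sum_congr rfl fun i _ => h2 i]
  simp
  ring

lemma eq_one_smul {K : Type*} [Field K] (y : GA K 1) : y = y.coeff 1 • pm K 1 := by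
  conv_lhs => rw [← sum_pm y]
  rw [Fintype.sum_unique]
  rfl

variable {k : Type u} [Field k] {𝒱 : VarClass k} {ops : CycleOps 𝒱}
  {W : WeilCohomology.{u, v} ops} {X Y Z : 𝒱.Obj}

/-- **The numerically trivial elements form a tensor ideal.** -/
theorem tideal_JW (hE : S_EPS) (hA : S_ADJ) (hS : S_SWP) (hR : S_RES) {m n : ℕ}
    (e : Basis (Fin (m + n)) W.K (W.H X)) (he : ∀ j, e j ∈ Y133.Half.PH W X (par m j)) :
    TIdeal ((m : W.K) - n) (JW W X) where
  mul_left := by
    intro N z y hy
    cases N with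
    | zero =>
      have h1 : y = 0 := hy
      rw [h1, mul_zero]
      exact Submodule.zero_mem _
    | succ N =>
      rw [mem_JW] at hy ⊢
      rw [opW_mul]
      exact nsub_mul hy (opW_mem N z)
  mul_right := by
    intro N z y hy
    cases N with
    | zero =>
      have h1 : y = 0 := hy
      rw [h1, zero_mul]
      exact Submodule.zero_mem _
    | succ N =>
      rw [mem_JW] at hy ⊢
      rw [opW_mul]
      exact nsub_mul' hy (opW_mem N z)
  up := by
    intro N y hy
    cases N with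
    | zero =>
      have h1 : y = 0 := hy
      rw [h1, map_zero]
      exact Submodule.zero_mem _
    | succ N =>
      rw [mem_JW] at hy ⊢
      rw [opW_dn e hE hA hR he]
      exact ext1_nsub N hy
  tr := by
    intro N y hy
    cases N with
    | zero =>
      obtain ⟨c, rfl⟩ : ∃ c : W.K, y = c • pm W.K 1 := ⟨_, eq_one_smul y⟩
      have h1 : opW W X 0 (c • pm W.K 1) ∈ NSub W (Y133.Half.pw X 0) := hy
      have h2 := h1.2 1 (KOp.id _)
      rw [one_mul, map_smul, opW_pm, map_one, map_smul, smul_eq_mul, str_words e he] at h2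
      have h4 : ∑ w : Fin 1 → Fin (m + n), sg W.K m w *
          (Y133.Half.wb e 0).repr ((1 : Module.End W.K (W.H (Y133.Half.pw X 0)))
            (Y133.Half.wb e 0 w)) w = (m : W.K) - n := by
        rw [← sum_parity, ← (Equiv.funUnique (Fin 1) (Fin (m + n))).sum_comp]
        refine Finset.sum_congr rfl fun w _ => ?_
        rw [Module.End.one_apply, Basis.repr_self, Finsupp.single_eq_same, mul_one, sg,
          Fin.prod_univ_succ, Fin.prod_univ_zero, mul_one]
        rfl
      rw [h4] at h2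
      change ptr ((m : W.K) - n) (c • pm W.K 1) = 0
      have h5 : (1 : Equiv.Perm (Fin (0 + 1))) (Fin.last 0) = Fin.last 0 := rfl
      rw [map_smul, ptr, lin_pm, if_pos h5, smul_smul, h2, zero_smul]
    | succ N =>
      rw [mem_JW] at hy ⊢
      refine ⟨opW_mem N _, fun a ha => ?_⟩
      rw [← sum_parity, str_ptr e hE hA hS hR he]
      exact hy.2 _ (ext1_mem N ha)
  zero := rfl

/-- The matrix coefficients of the two actions. -/
lemma repr_opW (hE : S_EPS) (hA : S_ADJ) {m r : ℕ}
    (e : Basis (Fin r) W.K (W.H X)) (he : ∀ j, e j ∈ Y133.Half.PH W X (par m j)) (N : ℕ)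
    (y : GA W.K (N + 1)) (w w' : Fin (N + 1) → Fin r) :
    (Y133.Half.wb e N).repr (opW W X N y (Y133.Half.wb e N w)) w' =
      op W.K m r y (Pi.single w 1) w' := by
  classical
  let A : GA W.K (N + 1) →ₗ[W.K] W.K :=
    { toFun := fun y => (Y133.Half.wb e N).repr (opW W X N y (Y133.Half.wb e N w)) w'
      map_add' := fun x y => by
        rw [map_add, LinearMap.add_apply, map_add, Finsupp.add_apply]
      map_smul' := fun c y => by
        rw [map_smul, LinearMap.smul_apply, map_smul, Finsupp.smul_apply]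
        rfl }
  let B : GA W.K (N + 1) →ₗ[W.K] W.K :=
    { toFun := fun y => op W.K m r y (Pi.single w 1) w'
      map_add' := fun x y => by rw [map_add]; rfl
      map_smul' := fun c y => by rw [map_smul]; rfl }
  have h : A = B := by
    apply lin_ext
    intro σ
    change (Y133.Half.wb e N).repr (opW W X N (pm W.K σ) (Y133.Half.wb e N w)) w' =
      op W.K m r (pm W.K σ) (Pi.single w 1) w'
    rw [opW_pm, rho_wb e hE hA he, map_smul, Finsupp.smul_apply, Basis.repr_self,
      Finsupp.single_apply, op, lin_pm]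
    change _ = (eps m σ (w' ∘ σ) : W.K) * (Pi.single w 1 : (Fin (N + 1) → Fin r) → W.K) (w' ∘ σ)
    rw [Pi.single_apply]
    by_cases h1 : w ∘ (σ⁻¹ : Equiv.Perm (Fin (N + 1))) = w'
    · have h2 : w' ∘ σ = w := by
        rw [← h1]
        funext i
        simp
      rw [if_pos h1, if_pos h2, h2, smul_eq_mul]
    · have h2 : ¬ w' ∘ σ = w := by
        intro h3
        apply h1
        rw [← h3]
        funext i
        simp
      rw [if_neg h1, if_neg h2, smul_zero, mul_zero]
  exact congrArg (fun f => f y) h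

lemma opW_eq_zero (hE : S_EPS) (hA : S_ADJ) {m r : ℕ}
    (e : Basis (Fin r) W.K (W.H X)) (he : ∀ j, e j ∈ Y133.Half.PH W X (par m j)) (N : ℕ)
    {y : GA W.K (N + 1)} (hy : op W.K m r y = 0) : opW W X N y = 0 := by
  apply (Y133.Half.wb e N).ext
  intro w
  apply (Y133.Half.wb e N).repr.injective
  ext w'
  rw [repr_opW hE hA e he, hy]
  simp

lemma eq_zero_of_op {K : Type*} [Field K] {m r : ℕ} {y : GA K 0} (hy : op K m r y = 0) :
    y = 0 := by
  have h1 := congrArg (fun f : Module.End K ((Fin 0 → Fin r) → K) => f (fun _ => 1) Fin.elim0) hy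
  have h2 : (default : Equiv.Perm (Fin 0)) = 1 := rfl
  rw [op, lin_apply, Fintype.sum_unique, h2] at h1
  have h3 : y.coeff (1 : Equiv.Perm (Fin 0)) * ((eps m (1 : Equiv.Perm (Fin 0))
      ((Fin.elim0 : Fin 0 → Fin r) ∘ (1 : Equiv.Perm (Fin 0))) : K) * 1) = 0 := h1
  have h4 : eps m (1 : Equiv.Perm (Fin 0)) ((Fin.elim0 : Fin 0 → Fin r) ∘
      (1 : Equiv.Perm (Fin 0))) = 1 := by
    rw [eps]
    exact Finset.prod_eq_one fun p _ => p.1.elim0
  rw [h4] at h3
  rw [← sum_pm y, Fintype.sum_unique, h2]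
  have h5 : y.coeff (1 : Equiv.Perm (Fin 0)) = 0 := by simpa using h3
  rw [h5, zero_smul]

lemma JJ_le (hE : S_EPS) (hA : S_ADJ) (hL : S_BRL.{v}) {m n : ℕ}
    (e : Basis (Fin (m + n)) W.K (W.H X)) (he : ∀ j, e j ∈ Y133.Half.PH W X (par m j)) (N : ℕ) :
    JJ ((m : W.K) - n) (min m n + 1) N ≤ JW W X N := by
  intro y hy
  have h1 := hL W.K m n N y hy
  cases N with
  | zero => exact eq_zero_of_op h1
  | succ N =>
    rw [mem_JW, opW_eq_zero hE hA e he N h1]
    exact Submodule.zero_mem _

lemma prime_JJ (hL : S_BRL.{v}) (hR : S_BRR.{v}) (hP : S_PRM.{v}) {K : Type v} [Field K]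
    [CharZero K] (m n : ℕ) : IsPrimeJ ((m : K) - n) (min m n + 1) := by
  intro N M y f h
  rcases hP K m (m + n) N M y f (hL K m n (N + M) _ h) with h1 | h1
  · exact Or.inl (hR K m n N y h1)
  · exact Or.inr (hR K m n M f h1)

/-- **The ideals of numerically trivial combinations of permutations.** -/
theorem exists_super (hE : S_EPS) (hA : S_ADJ) (hS : S_SWP) (hRe : S_RES) (hL : S_BRL.{v})
    (hR : S_BRR.{v}) (hP : S_PRM.{v}) (hT : S_TI.{v}) {m n : ℕ}
    (e : Basis (Fin (m + n)) W.K (W.H X)) (he : ∀ j, e j ∈ Y133.Half.PH W X (par m j)) :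
    ∃ d ≤ min m n, ∀ (N : ℕ) (y : GA W.K N), y ∈ JW W X N ↔
      op W.K (m - d) ((m - d) + (n - d)) y = 0 := by
  obtain ⟨s, h1, h2, h3⟩ := hT W.K ((m : W.K) - n) (JW W X) (tideal_JW hE hA hS hRe e he)
    (min m n + 1) (JJ_le hE hA hL e he) (fun s h1 h2 => by
      obtain ⟨d, hd⟩ : ∃ d, d = min m n + 1 - s := ⟨_, rfl⟩
      have h3 := prime_JJ hL hR hP (K := W.K) (m - d) (n - d)
      have h4 : min (m - d) (n - d) + 1 = s := by omega
      rw [h4, Nat.cast_sub (by omega), Nat.cast_sub (by omega)] at h3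
      have h5 : (m : W.K) - (d : W.K) - ((n : W.K) - (d : W.K)) = (m : W.K) - n := by ring
      rw [h5] at h3
      exact h3)
  obtain ⟨d, hd⟩ : ∃ d, d = min m n + 1 - s := ⟨_, rfl⟩
  refine ⟨d, by omega, fun N y => ?_⟩
  rw [h3 N]
  have h4 : min (m - d) (n - d) + 1 = s := by omega
  have h5 : ((m - d : ℕ) : W.K) - ((n - d : ℕ) : W.K) = (m : W.K) - n := by
    rw [Nat.cast_sub (by omega), Nat.cast_sub (by omega)]
    ring
  have h6 := hL W.K (m - d) (n - d) N y
  have h7 := hR W.K (m - d) (n - d) N y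
  rw [h4, h5] at h6 h7
  exact ⟨h6, h7⟩

end Pool.Agent.L0h13.SD
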