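import Pool.Agent.L0h13.SD.GeoC

/-!
# The growth of the numerical rank
-/

set_option autoImplicit false

open CategoryTheory AlgebraicGeometry Module

universe u v w

namespace Pool.Agent.L0h13.SD

open Pool.Agent.H914 VarClass Obj WeilCohomology Pool.Agent.N190.CB Pool.Agent.N103.OC
  Pool.Agent.H447 Pool.Agent.N536.SG Pool.Agent.N536.HK Pool.Agent.L0h13.GP

section words

/-- The signed action is a representation. -/
def actHom (hE : S_EPS) (K : Type*) [Field K] (m r N : ℕ) :
    Equiv.Perm (Fin N) →* Module.End K ((Fin N → Fin r) → K) where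
  toFun := act K m
  map_one' := by
    apply LinearMap.ext
    intro F
    funext w
    change (eps m 1 (w ∘ (1 : Equiv.Perm (Fin N))) : K) * F (w ∘ (1 : Equiv.Perm (Fin N))) = F w
    rw [hE.2]
    simp
  map_mul' σ τ := by
    apply LinearMap.ext
    intro F
    funext w
    change (eps m (σ * τ) (w ∘ (σ * τ : Equiv.Perm (Fin N))) : K) *
      F (w ∘ (σ * τ : Equiv.Perm (Fin N))) = (eps m σ (w ∘ σ) : K) *
        ((eps m τ ((w ∘ σ) ∘ τ) : K) * F ((w ∘ σ) ∘ τ))
    rw [hE.1, Equiv.Perm.coe_mul, Function.comp_assoc]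
    push_cast
    ring

lemma range_op {K : Type*} [Field K] (m r N : ℕ) :
    LinearMap.range (op K m (N := N) r) = Submodule.span K (Set.range (act K m (r := r) (N := N))) := by
  apply le_antisymm
  · rintro _ ⟨y, rfl⟩
    rw [op, lin_apply]
    exact Submodule.sum_mem _ fun σ _ => Submodule.smul_mem _ _ (Submodule.subset_span ⟨σ, rfl⟩)
  · rw [Submodule.span_le]
    rintro _ ⟨σ, rfl⟩
    exact ⟨pm K σ, by rw [op, lin_pm]⟩

lemma finrank_words {K : Type*} [Field K] (r N : ℕ) :
    finrank K ((Fin N → Fin r) → K) = r ^ N := by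
  rw [Module.finrank_fintype_fun_eq_card, Fintype.card_fun, Fintype.card_fin, Fintype.card_fin]

lemma finrank_op_le {K : Type*} [Field K] (m r N : ℕ) :
    finrank K (LinearMap.range (op K m (N := N) r)) ≤ (r ^ N) ^ 2 := by
  have h := Submodule.finrank_le (LinearMap.range (op K m (N := N) r))
  rw [Module.finrank_linearMap, finrank_words] at h
  rw [sq]
  exact h

lemma eps_ne_zero {m r N : ℕ} (σ : Equiv.Perm (Fin N)) (w : Fin N → Fin r) : eps m σ w ≠ 0 := by
  rw [eps]
  apply Finset.prod_ne_zero_iff.2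
  intro p _
  split_ifs
  · exact pow_ne_zero _ (by norm_num)
  · exact one_ne_zero

lemma le_finrank_op (hE : S_EPS) {K : Type*} [Field K] [CharZero K] (m r N : ℕ) :
    (r ^ N) ^ 2 ≤ finrank K (LinearMap.range (op K m (N := N) r)) * (N + 1) ^ (r ^ 2) := by
  classical
  have h := Y133.Half.span_perm (Pi.basisFun K (Fin N → Fin r)) (actHom hE K m r N) (by
    intro σ w
    refine ⟨(eps m σ (w ∘ σ) : K), by exact_mod_cast eps_ne_zero σ _, ?_⟩
    rw [Pi.basisFun_apply, Pi.basisFun_apply]
    funext w'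
    change (eps m σ (w' ∘ σ) : K) * (Pi.single (w ∘ σ) 1 : (Fin N → Fin r) → K) (w' ∘ σ) =
      (eps m σ (w ∘ σ) : K) * (Pi.single w 1 : (Fin N → Fin r) → K) w'
    rw [Pi.single_apply, Pi.single_apply]
    by_cases h1 : w' = w
    · rw [h1, if_pos rfl, if_pos rfl]
    · have h2 : ¬ w' ∘ σ = w ∘ σ := by
        intro h3
        apply h1
        funext i
        have h4 := congrFun h3 (σ⁻¹ i)
        simpa using h4
      rw [if_neg h1, if_neg h2, mul_zero, mul_zero])
  rw [finrank_words, Fintype.card_fin] at h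
  have h2 : Submodule.span K (Set.range (actHom hE K m r N)) =
      LinearMap.range (op K m (N := N) r) := (range_op m r N).symm
  rw [h2] at h
  exact h

end words

variable {k : Type u} [Field k] {𝒱 : VarClass k} {ops : CycleOps 𝒱}
  {W : WeilCohomology.{u, v} ops} {X Y Z : 𝒱.Obj}

/-- The permutations modulo numerically trivial operators. -/
lemma finrank_quot (m r n : ℕ) (h : ∀ y : GA W.K (n + 1), y ∈ JW W X (n + 1) ↔ op W.K m r y = 0) :
    finrank W.K ((Submodule.span W.K (Set.range (Y133.Half.rho W X n))).map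
      (NSub W (Y133.Half.pw X n)).mkQ) = finrank W.K (LinearMap.range (op W.K m (N := n + 1) r)) := by
  set Q := (NSub W (Y133.Half.pw X n)).mkQ ∘ₗ opW W X n with hQ
  have h1 : (Submodule.span W.K (Set.range (Y133.Half.rho W X n))).map
      (NSub W (Y133.Half.pw X n)).mkQ = LinearMap.range Q := by
    rw [hQ, LinearMap.range_comp]
    congr 1
    apply le_antisymm
    · rw [Submodule.span_le]
      rintro _ ⟨σ, rfl⟩
      exact ⟨pm W.K σ, opW_pm n σ⟩
    · rintro _ ⟨y, rfl⟩
      rw [opW, lin_apply]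
      exact Submodule.sum_mem _ fun σ _ => Submodule.smul_mem _ _ (Submodule.subset_span ⟨σ, rfl⟩)
  have h2 : LinearMap.ker Q = LinearMap.ker (op W.K m (N := n + 1) r) := by
    ext y
    rw [LinearMap.mem_ker, LinearMap.mem_ker, ← h y, mem_JW, hQ, LinearMap.comp_apply,
      Submodule.mkQ_apply, Submodule.Quotient.mk_eq_zero]
  have hfin : FiniteDimensional W.K (GA W.K (n + 1)) :=
    Module.Finite.of_basis (MonoidAlgebra.basis (Equiv.Perm (Fin (n + 1))) W.K)
  have h3 := LinearMap.finrank_range_add_finrank_ker Q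
  have h4 := LinearMap.finrank_range_add_finrank_ker (op W.K m (N := n + 1) r)
  rw [h2] at h3
  rw [h1]
  omega

/-- The two sided bounds. -/
theorem growth_bounds (hE : S_EPS) (m r n : ℕ)
    (h : ∀ y : GA W.K (n + 1), y ∈ JW W X (n + 1) ↔ op W.K m r y = 0) :
    (r ^ (n + 1)) ^ 2 ≤ (n + 2) ^ (r ^ 2) * midRank ops (pw X (n + 1)) ∧
    nonNeg W (pw X (n + 1)) ^ 2 ≤ (n + 2) ^ (cohDim W X ^ 2) * (r ^ (n + 1)) ^ 2 := by
  rw [pw_eq]
  have h0 := finrank_quot m r n h
  constructor
  · have h1 := le_finrank_op hE (K := W.K) m r (n + 1)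
    have h2 : finrank W.K ((Submodule.span W.K (Set.range (Y133.Half.rho W X n))).map
        (NSub W (Y133.Half.pw X n)).mkQ) ≤ midRank ops (Y133.Half.pw X n) := by
      refine le_trans ?_ (finrank_quot_le W _)
      apply Submodule.finrank_mono
      apply Submodule.map_mono
      rw [Submodule.span_le]
      rintro _ ⟨σ, rfl⟩
      exact rho_mem n σ
    rw [h0] at h2
    calc (r ^ (n + 1)) ^ 2 ≤ _ := h1
      _ ≤ midRank ops (Y133.Half.pw X n) * (n + 1 + 1) ^ (r ^ 2) := Nat.mul_le_mul_right _ h2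
      _ = _ := by rw [mul_comm]
  · obtain ⟨e, he⟩ := Y133.Half.exists_hbasis W X
    obtain ⟨f, hf, hff, h1⟩ := exists_idem (Y133.Half.wb e n) (Y133.Half.rho W X n)
      (Y133.Half.tau_wb e he n) (NSub W (Y133.Half.pw X n))
      (fun σ x hx => nsub_mul hx (rho_mem n σ)) (fun σ x hx => nsub_mul' hx (rho_mem n σ))
    rw [Fintype.card_fin, h0] at h1
    calc nonNeg W (Y133.Half.pw X n) ^ 2 ≤ finrank W.K (LinearMap.range (1 - f)) ^ 2 :=
          Nat.pow_le_pow_left (nonNeg_le hf hff) 2
      _ ≤ _ := h1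
      _ ≤ (r ^ (n + 1)) ^ 2 * (n + 1 + 1) ^ (cohDim W X ^ 2) :=
          Nat.mul_le_mul_right _ (finrank_op_le m r (n + 1))
      _ = _ := by rw [mul_comm]

/-- The dimension of the even cohomology. -/
noncomputable def evenDim (W : WeilCohomology.{u, v} ops) (X : 𝒱.Obj) : ℕ :=
  finrank W.K (Y133.Half.PH W X 0)

/-- The dimension of the odd cohomology. -/
noncomputable def oddDim (W : WeilCohomology.{u, v} ops) (X : 𝒱.Obj) : ℕ :=
  finrank W.K (Y133.Half.PH W X 1)

lemma evenDim_eq : evenDim W X = finrank W.K (Y133.Half.PH W X 0) := rfl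

lemma oddDim_eq : oddDim W X = finrank W.K (Y133.Half.PH W X 1) := rfl

lemma even_odd_of_basis {m n : ℕ} (e : Basis (Fin (m + n)) W.K (W.H X))
    (he : ∀ j, e j ∈ Y133.Half.PH W X (par m j)) :
    evenDim W X = m ∧ oddDim W X = n ∧ cohDim W X = m + n := by
  have h0 : cohDim W X = m + n := by
    rw [cohDim, Module.finrank_eq_card_basis e, Fintype.card_fin]
  have hli := e.linearIndependent
  have h1 : m ≤ evenDim W X := by
    rw [evenDim_eq]
    let f : Fin m → Y133.Half.PH W X 0 := fun i => ⟨e (Fin.castAdd n i), by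
      have := he (Fin.castAdd n i)
      rwa [par, if_pos (by rw [Fin.val_castAdd]; exact i.2)] at this⟩
    have hf : LinearIndependent W.K f := by
      apply LinearIndependent.of_comp (Y133.Half.PH W X 0).subtype
      exact hli.comp (Fin.castAdd n) (Fin.castAdd_injective m n)
    simpa using hf.fintype_card_le_finrank
  have h2 : n ≤ oddDim W X := by
    rw [oddDim_eq]
    let f : Fin n → Y133.Half.PH W X 1 := fun i => ⟨e (Fin.natAdd m i), by
      have := he (Fin.natAdd m i)
      rwa [par, if_neg (by rw [Fin.val_natAdd]; omega)] at this⟩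
    have hf : LinearIndependent W.K f := by
      apply LinearIndependent.of_comp (Y133.Half.PH W X 1).subtype
      exact hli.comp (Fin.natAdd m) (Fin.natAdd_injective n m)
    simpa using hf.fintype_card_le_finrank
  have h3 : Y133.Half.PH W X 0 ⊓ Y133.Half.PH W X 1 = ⊥ := by
    rw [eq_bot_iff]
    rintro x ⟨hx0, hx1⟩
    have h4 := Y133.Half.PH.par hx0
    rw [Y133.Half.PH.par hx1, pow_zero, pow_one, one_smul, neg_smul, one_smul] at h4
    have h5 : (2 : W.K) • x = 0 := by
      rw [two_smul]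
      nth_rewrite 1 [← h4]
      rw [neg_add_cancel]
    exact (smul_eq_zero.1 h5).resolve_left two_ne_zero
  have h4 := Submodule.finrank_sup_add_finrank_inf_eq (Y133.Half.PH W X 0) (Y133.Half.PH W X 1)
  rw [h3, finrank_bot, add_zero, ← evenDim_eq, ← oddDim_eq] at h4
  have h5 : finrank W.K (Y133.Half.PH W X 0 ⊔ Y133.Half.PH W X 1 : Submodule W.K (W.H X)) ≤
      cohDim W X := Submodule.finrank_le _
  omega

end Pool.Agent.L0h13.SD
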