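import Pool.Agent.L0h13.SD.Stm

/-!
# Ideal families are stable under the inclusions in the last points (helper24)
-/

set_option autoImplicit false

namespace Pool.Agent.L0h13.SD

universe u

open Polynomial Equiv

namespace SHF

lemma blk_one_zero {N : ℕ} (σ : Perm (Fin N)) : blk (M := 0) σ 1 = σ := by
  ext i
  have h : i = Fin.castAdd 0 i := rfl
  rw [h, blk_castAdd]
  rfl

lemma blk_one_succ {N M : ℕ} (σ : Perm (Fin N)) :
    (blk σ (1 : Perm (Fin (M + 1))) : Perm (Fin (N + (M + 1)))) = dn (blk σ (1 : Perm (Fin M))) := by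
  apply Equiv.ext
  intro i
  refine Fin.lastCases (n := N + M)
    (motive := fun i => blk σ (1 : Perm (Fin (M + 1))) i = dn (blk σ (1 : Perm (Fin M))) i)
    ?_ (fun i => ?_) i
  · refine Eq.trans ?_ (dn_last (blk σ (1 : Perm (Fin M)))).symm
    exact blk_natAdd σ (1 : Perm (Fin (M + 1))) (Fin.last M)
  · rw [dn_castSucc]
    refine Fin.addCases (motive := fun i => blk σ (1 : Perm (Fin (M + 1))) i.castSucc =
      (blk σ (1 : Perm (Fin M)) i).castSucc) (fun j => ?_) (fun j => ?_) i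
    · rw [blk_castAdd]
      exact blk_castAdd σ (1 : Perm (Fin (M + 1))) j
    · rw [blk_natAdd]
      exact blk_natAdd σ (1 : Perm (Fin (M + 1))) j.castSucc

variable {K : Type u} [Field K]

lemma blkL_zero {N : ℕ} (y : GA K N) : (blkL y : GA K (N + 0)) = y := by
  have h : (blkL : GA K N →ₗ[K] GA K (N + 0)) = LinearMap.id := by
    apply lin_ext
    intro σ
    rw [blkL, lin_pm, blk_one_zero]
    rfl
  rw [h]
  rfl

lemma blkL_succ {N M : ℕ} (y : GA K N) :
    (blkL y : GA K (N + (M + 1))) = dnA (blkL y : GA K (N + M)) := by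
  have h : (blkL : GA K N →ₗ[K] GA K (N + (M + 1))) = dnA.comp (blkL : GA K N →ₗ[K] GA K (N + M)) := by
    apply lin_ext
    intro σ
    rw [LinearMap.comp_apply, blkL, blkL, lin_pm, lin_pm, dnA, lin_pm, blk_one_succ]
  rw [h]
  rfl

lemma blkL_mem {t : K} {J : ∀ N, Submodule K (GA K N)} (hJ : TIdeal t J) {M : ℕ} {f : GA K M}
    (hf : f ∈ J M) : ∀ N : ℕ, (blkL f : GA K (M + N)) ∈ J (M + N)
  | 0 => by rw [blkL_zero]; exact hf
  | N + 1 => by
    rw [blkL_succ]
    exact hJ.up (blkL_mem hJ hf N)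

lemma conj_mem {t : K} {J : ∀ N, Submodule K (GA K N)} (hJ : TIdeal t J) {M N L : ℕ} (hL : M + N = L)
    (j : Fin (M + N) ≃ Fin L) {f : GA K M} (hf : f ∈ J M) :
    lin (fun σ => pm K (j.permCongr (blk σ (1 : Perm (Fin N))))) f ∈ J L := by
  subst hL
  have h : lin (fun σ => pm K (j.permCongr (blk σ (1 : Perm (Fin N))))) f =
      pm K (j : Perm (Fin (M + N))) * blkL f * pm K (j : Perm (Fin (M + N)))⁻¹ := by
    have h2 : lin (fun σ => pm K (j.permCongr (blk σ (1 : Perm (Fin N))))) =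
        ((LinearMap.mulRight K (pm K (j : Perm (Fin (M + N)))⁻¹)).comp
          (LinearMap.mulLeft K (pm K (j : Perm (Fin (M + N)))))).comp
          (blkL : GA K M →ₗ[K] GA K (M + N)) := by
      apply lin_ext
      intro σ
      rw [lin_pm, LinearMap.comp_apply, LinearMap.comp_apply, LinearMap.mulRight_apply,
        LinearMap.mulLeft_apply, blkL, lin_pm, pm_mul, pm_mul]
      congr 1
    rw [h2]
    rfl
  rw [h]
  exact hJ.mul_right _ (hJ.mul_left _ (blkL_mem hJ hf N))

end SHF

theorem t_SHF : S_SHF.{u} := by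
  intro K _ t J hJ N M f hf
  have h := SHF.conj_mem hJ (Nat.add_comm M N) (finAddFlip : Fin (M + N) ≃ Fin (N + M)) hf
  have h2 : ∀ σ : Perm (Fin M), (finAddFlip : Fin (M + N) ≃ Fin (N + M)).permCongr
      (blk σ (1 : Perm (Fin N))) = blk (1 : Perm (Fin N)) σ := by
    intro σ
    apply Equiv.ext
    intro i
    rw [Equiv.permCongr_apply]
    refine Fin.addCases (motive := fun i => finAddFlip ((blk σ (1 : Perm (Fin N)))
      ((finAddFlip : Fin (M + N) ≃ Fin (N + M)).symm i)) = blk (1 : Perm (Fin N)) σ i)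
      (fun j => ?_) (fun j => ?_) i
    · have h3 : (finAddFlip : Fin (M + N) ≃ Fin (N + M)).symm (Fin.castAdd M j) = Fin.natAdd M j := by
        rw [Equiv.symm_apply_eq, finAddFlip_apply_natAdd]
      rw [h3, blk_natAdd, blk_castAdd, finAddFlip_apply_natAdd]
    · have h3 : (finAddFlip : Fin (M + N) ≃ Fin (N + M)).symm (Fin.natAdd N j) = Fin.castAdd N j := by
        rw [Equiv.symm_apply_eq, finAddFlip_apply_castAdd]
      rw [h3, blk_natAdd, blk_castAdd, finAddFlip_apply_castAdd]
  simp_rw [h2] at h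
  exact h

end Pool.Agent.L0h13.SD
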